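import Pool.Agent.TRB.GeoK

/-!
# Closures

PROOF. Let t > -1, q = (t+1)/S0 > 0. For s in Wg, Z = Zf s: t <= Re (Gf s) iff q * norm (Z - I La)^2 <= Re Z (Gf_re; Z /= I La as Re Z > 0). Let
D = {Z | q * norm (Z - I La)^2 <= Re Z}: closed and bounded (a closed disc), so compact; its points other than I La have Re Z > 0.
Sf is continuous at all points of D (Sf_differentiableAt), and {s in Wg, t <= Re Gf s} union {1} = Sf '' D (Sf_ILa, Sf_Zf, Zf_Sf, Sf_mem). So it is compact.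
compact_circle: the set is the image under Sf of D' = {Z in D | Z /= I La, norm (a0 + S0/(Z - I La) - b I) = ρ}; D' is closed:
on D' norm (Z - I La) >= S0/(ρ + norm (a0 - b I)) (or D' is empty), the set D inter {that} is compact and the equation is closed there.
-/

set_option autoImplicit false

namespace Pool.Agent.TRB.Geo

open Complex Metric Set

private theorem S0_pos : 0 < S0 := div_pos two_pos k0_re_pos

private theorem ILa_re : (I * (La : ℂ)).re = 0 := by simp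

/-- the disc -/
private def DD (q : ℝ) : Set ℂ := {Z | q * ‖Z - I * La‖ ^ 2 ≤ Z.re}

private theorem isCompact_DD {q : ℝ} (hq : 0 < q) : IsCompact (DD q) := by
  refine (isCompact_closedBall (I * (La : ℂ)) (1 / q)).of_isClosed_subset ?_ ?_
  · exact isClosed_le (by fun_prop) continuous_re
  · intro Z hZ
    have hZ : q * ‖Z - I * La‖ ^ 2 ≤ Z.re := hZ
    rw [mem_closedBall, dist_eq_norm, le_div_iff₀ hq]
    have h1 : Z.re ≤ ‖Z - I * La‖ := by
      have := re_le_norm (Z - I * La)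
      rwa [sub_re, ILa_re, sub_zero] at this
    rcases eq_or_lt_of_le (norm_nonneg (Z - I * La)) with h | h
    · rw [← h, zero_mul]; exact zero_le_one
    · have h2 : q * ‖Z - I * La‖ ^ 2 ≤ ‖Z - I * La‖ := hZ.trans h1
      have h3 : (‖Z - I * La‖ * q) * ‖Z - I * La‖ ≤ 1 * ‖Z - I * La‖ := by linarith [h2]
      exact le_of_mul_le_mul_right h3 h

private theorem DD_cases {q : ℝ} (hq : 0 < q) {Z : ℂ} (hZ : Z ∈ DD q) :
    0 < Z.re ∨ Z = I * La := by
  have hZ : q * ‖Z - I * La‖ ^ 2 ≤ Z.re := hZ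
  by_cases h : Z = I * La
  · exact Or.inr h
  · left
    have : 0 < ‖Z - I * La‖ := norm_pos_iff.2 (sub_ne_zero.2 h)
    exact lt_of_lt_of_le (by positivity) hZ

private theorem cont_Sf {q : ℝ} (hq : 0 < q) : ContinuousOn Sf (DD q) := fun _ hZ =>
  (Sf_differentiableAt (DD_cases hq hZ)).continuousAt.continuousWithinAt

private theorem ne_of_re_pos {Z : ℂ} (h : 0 < Z.re) : Z - I * La ≠ 0 := by
  intro h0
  rw [sub_eq_zero] at h0
  rw [h0, ILa_re] at h
  exact lt_irrefl _ h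

private theorem level_iff {t : ℝ} {s : ℂ} (hs : s ∈ Wg) :
    t ≤ (Gf s).re ↔ Zf s ∈ DD ((t + 1) / S0) := by
  have hZ := Zf_re_pos hs
  have hn : 0 < ‖Zf s - I * La‖ := norm_pos_iff.2 (ne_of_re_pos hZ)
  rw [Gf_re]
  change _ ↔ (t + 1) / S0 * ‖Zf s - I * La‖ ^ 2 ≤ (Zf s).re
  rw [div_mul_eq_mul_div, div_le_iff₀ S0_pos, mul_comm (Zf s).re S0,
    ← le_div_iff₀ (by positivity : 0 < ‖Zf s - I * La‖ ^ 2)]
  constructor <;> intro h <;> linarith

theorem compact_level (t : ℝ) (ht : -1 < t) :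
    IsCompact ({s | s ∈ Wg ∧ t ≤ (Gf s).re} ∪ {(1 : ℂ)}) := by
  have hq : 0 < (t + 1) / S0 := div_pos (by linarith) S0_pos
  have h := (isCompact_DD hq).image_of_continuousOn (cont_Sf hq)
  convert h using 1
  ext s
  constructor
  · rintro (⟨h1, h2⟩ | h1)
    · exact ⟨Zf s, (level_iff h1).1 h2, Sf_Zf h1⟩
    · rw [mem_singleton_iff] at h1
      refine ⟨I * La, ?_, by rw [h1, Sf_ILa]⟩
      change _ * ‖I * (La : ℂ) - I * La‖ ^ 2 ≤ (I * (La : ℂ)).re
      rw [ILa_re]; simp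
  · rintro ⟨Z, hZ, rfl⟩
    rcases DD_cases hq hZ with h1 | h1
    · left
      refine ⟨Sf_mem h1, ?_⟩
      rw [level_iff (Sf_mem h1), Zf_Sf h1]
      exact hZ
    · right
      rw [h1, Sf_ILa]
      exact mem_singleton _

private theorem circle_iff {b ρ : ℝ} {Z : ℂ} (hZ : Z - I * La ≠ 0) :
    ‖a0 + S0 / (Z - I * La) - b * I‖ = ρ ↔
      S0 ≤ (ρ + ‖a0 - b * I‖) * ‖Z - I * La‖ ∧
        ‖(a0 - b * I) * (Z - I * La) + S0‖ = ρ * ‖Z - I * La‖ := by
  have hn : 0 < ‖Z - I * La‖ := norm_pos_iff.2 hZ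
  have h1 : (a0 - b * I) * (Z - I * La) + S0 =
      (a0 + S0 / (Z - I * La) - b * I) * (Z - I * La) := by
    field_simp
    ring
  have h2 : ‖(a0 - b * I) * (Z - I * La) + S0‖ =
      ‖a0 + S0 / (Z - I * La) - b * I‖ * ‖Z - I * La‖ := by
    rw [h1, norm_mul]
  constructor
  · intro h
    refine ⟨?_, by rw [h2, h]⟩
    have h3 : ‖(S0 : ℂ)‖ ≤ ‖(a0 - b * I) * (Z - I * La) + S0‖ + ‖(a0 - b * I) * (Z - I * La)‖ := by
      have := norm_sub_le ((a0 - b * I) * (Z - I * La) + S0) ((a0 - b * I) * (Z - I * La))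
      rwa [add_sub_cancel_left] at this
    rw [h2, h, norm_mul, norm_real, Real.norm_of_nonneg S0_pos.le] at h3
    linarith
  · rintro ⟨-, h⟩
    rw [h2] at h
    exact mul_right_cancel₀ hn.ne' h

theorem compact_circle (t b ρ : ℝ) (ht : -1 < t) :
    IsCompact {s | s ∈ Wg ∧ t ≤ (Gf s).re ∧ ‖Gf s - b * I‖ = ρ} := by
  have hq : 0 < (t + 1) / S0 := div_pos (by linarith) S0_pos
  have hc : IsClosed {Z : ℂ | S0 ≤ (ρ + ‖a0 - b * I‖) * ‖Z - I * La‖ ∧
      ‖(a0 - b * I) * (Z - I * La) + S0‖ = ρ * ‖Z - I * La‖} := by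
    have c1 : Continuous fun Z : ℂ => (ρ + ‖a0 - b * I‖) * ‖Z - I * La‖ := by fun_prop
    have c2 : Continuous fun Z : ℂ => ‖(a0 - b * I) * (Z - I * La) + S0‖ := by fun_prop
    have c3 : Continuous fun Z : ℂ => ρ * ‖Z - I * La‖ := by fun_prop
    exact IsClosed.inter (isClosed_le continuous_const c1) (isClosed_eq c2 c3)
  have h := ((isCompact_DD hq).inter_right hc).image_of_continuousOn
    ((cont_Sf hq).mono inter_subset_left)
  convert h using 1
  ext s
  constructor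
  · rintro ⟨h1, h2, h3⟩
    refine ⟨Zf s, ⟨(level_iff h1).1 h2, ?_⟩, Sf_Zf h1⟩
    exact (circle_iff (ne_of_re_pos (Zf_re_pos h1))).1 h3
  · rintro ⟨Z, ⟨hZ, hZ2⟩, rfl⟩
    rcases DD_cases hq hZ with h1 | h1
    · have hW := Sf_mem h1
      refine ⟨hW, ?_, ?_⟩
      · rw [level_iff hW, Zf_Sf h1]
        exact hZ
      · have := (circle_iff (ne_of_re_pos h1)).2 hZ2
        unfold Gf
        rw [Zf_Sf h1]
        exact this
    · exfalso
      have h2 := hZ2.1
      rw [h1, sub_self, norm_zero, mul_zero] at h2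
      exact absurd S0_pos (not_lt.2 h2)

end Pool.Agent.TRB.Geo
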