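import Pool.Agent.TRB.Defs

/-!
# exp(-w) for norm w = 2 is outside the closed disc 10 Re s >= 3 + 3 |s|^2

PROOF. w = x + i y, x >= 0, x^2 + y^2 = 4, s = exp(-w): norm s = exp(-x), Re s = exp(-x) cos y. Multiply by exp x: the claim is
10 cos y < 3 (exp x + exp(-x)) = 6 cosh x. cosh x >= 1 + x^2/2, cos y <= 1 - y^2/2 + y^4/24 (Real.cos_le... or Real.cos_bound type lemmas; valid for all y).
6 + 3 x^2 - 10 + 5 y^2 - (10/24) y^4 with x^2 = 4 - y^2: 8 + 2 y^2 - (5/12) y^4 >= 8 for 0 <= y^2 <= 4 (2 y^2 >= (5/12) y^4 iff y^2 <= 24/5).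
-/

set_option autoImplicit false

namespace Pool.Agent.TRB.Geo

open Complex

theorem exp_out (w : ℂ) (h : ‖w‖ = 2) (h' : 0 ≤ w.re) :
    10 * (exp (-w)).re - 3 - 3 * ‖exp (-w)‖ ^ 2 < 0 := by
  have hxy : w.re ^ 2 + w.im ^ 2 = 4 := by
    have h1 := Complex.sq_norm w
    rw [h, Complex.normSq_apply] at h1
    nlinarith
  rw [Complex.norm_exp, Complex.exp_re, Complex.neg_re, Complex.neg_im, Real.cos_neg]
  set x := w.re with hx
  set y := w.im with hy
  have hy2 : |y| ≤ 2 := abs_le_of_sq_le_sq (by nlinarith [sq_nonneg x]) (by norm_num)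
  have hpi := Real.pi_gt_three
  have hpi2 := Real.pi_lt_d2
  have hc : Real.cos y ≤ 1 - 2 / Real.pi ^ 2 * y ^ 2 :=
    Real.cos_le_one_sub_mul_cos_sq (by linarith)
  have hp : (3 : ℝ) / 20 ≤ 2 / Real.pi ^ 2 := by
    rw [div_le_div_iff₀ (by norm_num) (by positivity)]
    nlinarith
  have hc2 : Real.cos y ≤ 1 - 3 / 20 * y ^ 2 := by
    have h2 := mul_le_mul_of_nonneg_right hp (sq_nonneg y)
    linarith
  have he1 := Real.quadratic_le_exp_of_nonneg h'
  have he2 := Real.add_one_le_exp (-x)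
  have hE : Real.exp x * Real.exp (-x) = 1 := by
    rw [← Real.exp_add]; simp
  have hpos := Real.exp_pos (-x)
  have key : 10 * Real.cos y < 3 * (Real.exp x + Real.exp (-x)) := by nlinarith
  have key2 := mul_lt_mul_of_pos_right key hpos
  have e3 : 3 * (Real.exp x + Real.exp (-x)) * Real.exp (-x)
      = 3 * (Real.exp x * Real.exp (-x)) + 3 * Real.exp (-x) ^ 2 := by ring
  rw [e3, hE] at key2
  linarith

end Pool.Agent.TRB.Geo
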