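import Pool.Agent.TRB.GeoK

/-!
# The exit circle lies close to sg

PROOF. s in Wg, Z = Zf s, c = chi s, v = S0/(Z - I La) (nonzero), q = S0/Lr >= 1.6e7, bg I - a0 = 1 + I q/2, so norm (Gf s - bg I) = norm (v - (1 + I q/2)).
(i) norm (v - (1 + I q/2)) >= 5q/6. Put q' = S0/La < q. norm (v - I q'/2) >= 5q/6 - 1 - (q-q')/2 > q'/2 because q/3 > 1; so
norm v ^2 > q' Im v. Since Z = I La + S0/v, Im Z = La - S0 Im v/norm v^2 = La (1 - q' Im v/norm v^2) > 0. Re Z Im Z = Re c Im c (Zx_re_mul_im), Re Z > 0, Re c > 0, so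
Im c > 0.
(ii) norm (v - (1 + I q/2)) = 5q/6: norm v <= 1 + 4q/3, norm (Z - I La) = S0/norm v >= S0/(1 + 4q/3) >= 0.7499 Lr, so norm (Z - I Lr) >= 0.74 Lr
(La - Lr <= 1/1000). norm (Z + I Lr) = norm (S0 + I (La+Lr) v)/norm v; S0 + I (La+Lr)(1 + I q/2) = -S0 (La-Lr)/(2 Lr) + I (La + Lr), of norm <= S0/2000000 + 2001,
so norm (S0 + I (La+Lr) v) >= (La+Lr) 5q/6 - S0/2000000 - 2001 >= 1.66 S0 and norm (Z + I Lr) >= 1.66 S0/(1+4q/3) >= 1.24 Lr.
c^2 = Z^2 + Lr^2 = (Z - I Lr)(Z + I Lr) (Zx_sq), so norm c ^2 >= 0.74 * 1.24 * Lr^2 >= 0.9 Lr^2, norm c >= 900, and norm_sig_sub_sg with s = sig c (sig_chi).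
-/

set_option autoImplicit false

namespace Pool.Agent.TRB.Geo

open Complex Metric Set

private theorem hq_pos : 16600000 ≤ S0 / Lr ∧ S0 / Lr ≤ 16700000 := by
  obtain ⟨h1, h2⟩ := S0_bounds
  unfold Lr
  constructor <;> linarith

private theorem Z_sub_re {s : ℂ} : (Zf s - I * La).re = (Zf s).re := by
  simp

private theorem Z_sub_ne {s : ℂ} (h : s ∈ Wg) : Zf s - I * La ≠ 0 := by
  intro h0
  have h1 : (Zf s - I * La).re = 0 := by rw [h0]; simp
  rw [Z_sub_re] at h1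
  have := Zf_re_pos h
  linarith

private theorem Gf_sub (s : ℂ) :
    Gf s - bg * I = S0 / (Zf s - I * La) - (1 + I * ((S0 / Lr / 2 : ℝ) : ℂ)) := by
  unfold Gf a0 bg
  push_cast
  have : (Lr : ℂ) ≠ 0 := by
    unfold Lr
    norm_num
  field_simp
  ring

theorem chi_im_pos_of (s : ℂ) (h : s ∈ Wg) (h' : rg ≤ ‖Gf s - bg * I‖) : 0 < (chi s).im := by
  obtain ⟨hq1, hq2⟩ := hq_pos
  obtain ⟨hS1, hS2⟩ := S0_bounds
  obtain ⟨hL1, hL2⟩ := La_bounds
  have hLr : Lr = 1000 := rfl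
  have hLa : 0 < La := La_pos
  have hD := Z_sub_ne h
  have hre := Zf_re_pos h
  rw [Gf_sub] at h'
  set D : ℂ := Zf s - I * La with hDdef
  set v : ℂ := S0 / D with hv
  set q : ℝ := S0 / Lr with hq
  set q' : ℝ := S0 / La with hq'
  have hS0 : 0 < S0 := by linarith
  have hqq : q' ≤ q := by
    rw [hq, hq']
    exact div_le_div_of_nonneg_left hS0.le (by rw [hLr]; norm_num) hL1.le
  have hq'0 : 0 < q' := div_pos hS0 hLa
  have hrg : rg = 5 / 6 * q := rfl
  have h1 : ‖(1 : ℂ) + I * (((q - q') / 2 : ℝ) : ℂ)‖ ≤ 1 + (q - q') / 2 := by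
    refine (norm_add_le _ _).trans ?_
    rw [norm_one, norm_mul, norm_I, one_mul, Complex.norm_real, Real.norm_eq_abs,
      abs_of_nonneg (by linarith)]
  have h2 : v - (1 + I * ((q / 2 : ℝ) : ℂ)) =
      (v - I * ((q' / 2 : ℝ) : ℂ)) - (1 + I * (((q - q') / 2 : ℝ) : ℂ)) := by
    push_cast
    ring
  have h3 : q' / 2 < ‖v - I * ((q' / 2 : ℝ) : ℂ)‖ := by
    rw [h2] at h'
    have := norm_sub_le (v - I * ((q' / 2 : ℝ) : ℂ)) (1 + I * (((q - q') / 2 : ℝ) : ℂ))
    rw [hrg] at h'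
    linarith
  have h4 : (q' / 2) ^ 2 < ‖v - I * ((q' / 2 : ℝ) : ℂ)‖ ^ 2 :=
    pow_lt_pow_left₀ h3 (by positivity) (by norm_num)
  rw [← Complex.normSq_eq_norm_sq, Complex.normSq_apply] at h4
  have e1 : (v - I * ((q' / 2 : ℝ) : ℂ)).re = v.re := by simp
  have e2 : (v - I * ((q' / 2 : ℝ) : ℂ)).im = v.im - q' / 2 := by simp
  rw [e1, e2] at h4
  have h5 : q' * v.im < v.re * v.re + v.im * v.im := by nlinarith
  -- imaginary part of D
  have hv0 : v ≠ 0 := div_ne_zero (by exact_mod_cast hS0.ne') hD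
  have hDv : D = S0 / v := by
    rw [hv]
    have : (S0 : ℂ) ≠ 0 := by exact_mod_cast hS0.ne'
    field_simp
  have hn : 0 < normSq v := Complex.normSq_pos.mpr hv0
  have hDim : D.im = -(S0 * v.im / normSq v) := by
    rw [hDv, Complex.div_im]
    simp
  have hZim : (Zf s).im = La + D.im := by
    rw [hDdef]
    simp
  have hns : normSq v = v.re * v.re + v.im * v.im := Complex.normSq_apply v
  have h6 : 0 < (Zf s).im := by
    rw [hZim, hDim]
    have h7 : S0 * v.im < La * normSq v := by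
      have : S0 = La * q' := by rw [hq']; field_simp
      rw [this, hns]
      nlinarith
    have h8 : S0 * v.im / normSq v < La := by
      rw [div_lt_iff₀ hn]
      exact h7
    linarith
  have h9 := Zx_re_mul_im (chi s)
  have h10 : 0 < (chi s).re := by
    have hs : ‖s‖ < 1 := h.1
    have hd := den_ne_zero hs
    rw [chi_re hd]
    have : 0 < 1 - ‖s‖ ^ 2 := by nlinarith [norm_nonneg s]
    have : 0 < ‖den s‖ := norm_pos_iff.mpr hd
    positivity
  have h11 : 0 < (chi s).re * (chi s).im := by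
    rw [← h9]
    exact mul_pos hre h6
  exact (pos_iff_pos_of_mul_pos h11).mp h10

theorem exit_near_sg (s : ℂ) (h : s ∈ Wg) (h' : ‖Gf s - bg * I‖ = rg) : ‖s - sg‖ ≤ 1 / 300 := by
  obtain ⟨hq1, hq2⟩ := hq_pos
  obtain ⟨hS1, hS2⟩ := S0_bounds
  obtain ⟨hL1, hL2⟩ := La_bounds
  have hLr : Lr = 1000 := rfl
  have hLa : 0 < La := La_pos
  have hD := Z_sub_ne h
  have hre := Zf_re_pos h
  rw [Gf_sub] at h'
  set D : ℂ := Zf s - I * La with hDdef
  set v : ℂ := S0 / D with hv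
  set q : ℝ := S0 / Lr with hq
  have hS0 : 0 < S0 := by linarith
  have hSq : S0 = 1000 * q := by rw [hq, hLr]; ring
  have hrg : rg = 5 / 6 * q := rfl
  have hv0 : v ≠ 0 := div_ne_zero (by exact_mod_cast hS0.ne') hD
  have hDv : D = S0 / v := by
    rw [hv]
    have : (S0 : ℂ) ≠ 0 := by exact_mod_cast hS0.ne'
    field_simp
  have hvpos : 0 < ‖v‖ := norm_pos_iff.mpr hv0
  have hq0 : 0 < q := by linarith
  have n1 : ‖(1 : ℂ) + I * ((q / 2 : ℝ) : ℂ)‖ ≤ 1 + q / 2 := by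
    refine (norm_add_le _ _).trans ?_
    rw [norm_one, norm_mul, norm_I, one_mul, Complex.norm_real, Real.norm_eq_abs,
      abs_of_nonneg (by linarith)]
  have n2 : ‖v‖ ≤ 1 + 4 * q / 3 := by
    have : v = (v - (1 + I * ((q / 2 : ℝ) : ℂ))) + (1 + I * ((q / 2 : ℝ) : ℂ)) := by ring
    rw [this]
    refine (norm_add_le _ _).trans ?_
    rw [h', hrg]
    linarith
  have n3 : 749.9 ≤ ‖D‖ := by
    rw [hDv, norm_div, Complex.norm_real, Real.norm_eq_abs, abs_of_pos hS0,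
      le_div_iff₀ hvpos, hSq]
    nlinarith
  have n4 : 740 ≤ ‖Zf s - I * Lr‖ := by
    have e : D = (Zf s - I * Lr) - I * ((La - Lr : ℝ) : ℂ) := by
      rw [hDdef]
      push_cast
      ring
    have h1 := norm_sub_le (Zf s - I * Lr) (I * ((La - Lr : ℝ) : ℂ))
    rw [← e, norm_mul, norm_I, one_mul, Complex.norm_real, Real.norm_eq_abs,
      abs_of_pos (by linarith)] at h1
    linarith
  have hsum : 0 < La + Lr := by rw [hLr]; linarith
  have n5 : 1240 ≤ ‖Zf s + I * Lr‖ := by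
    have hLrC : (Lr : ℂ) ≠ 0 := by
      rw [hLr]
      norm_num
    have e : Zf s + I * Lr = (I * ((La + Lr : ℝ) : ℂ) * (v - (1 + I * ((q / 2 : ℝ) : ℂ))) -
        ((((La - Lr) * q / 2 : ℝ) : ℂ) - I * ((La + Lr : ℝ) : ℂ))) / v := by
      rw [eq_div_iff hv0]
      have e2 : Zf s + I * Lr = D + I * (La + Lr) := by
        rw [hDdef]
        ring
      rw [e2, add_mul]
      have e3 : D * v = S0 := by
        rw [hv]
        field_simp
      rw [e3]
      have e4 : (S0 : ℂ) = Lr * q := by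
        rw [hq]
        push_cast
        field_simp
      rw [e4]
      push_cast
      linear_combination (((La : ℂ) + Lr) * q / 2) * Complex.I_sq
    rw [e, norm_div, le_div_iff₀ hvpos]
    have h1 := norm_sub_norm_le (I * ((La + Lr : ℝ) : ℂ) * (v - (1 + I * ((q / 2 : ℝ) : ℂ))))
      ((((La - Lr) * q / 2 : ℝ) : ℂ) - I * ((La + Lr : ℝ) : ℂ))
    have h2 : ‖I * ((La + Lr : ℝ) : ℂ) * (v - (1 + I * ((q / 2 : ℝ) : ℂ)))‖ =
        (La + Lr) * (5 / 6 * q) := by
      rw [norm_mul, norm_mul, norm_I, one_mul, Complex.norm_real, Real.norm_eq_abs,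
        abs_of_pos hsum, h', hrg]
    have h3 : ‖(((La - Lr) * q / 2 : ℝ) : ℂ) - I * ((La + Lr : ℝ) : ℂ)‖ ≤
        (La - Lr) * q / 2 + (La + Lr) := by
      refine (norm_sub_le _ _).trans ?_
      rw [Complex.norm_real, norm_mul, norm_I, one_mul, Complex.norm_real, Real.norm_eq_abs,
        Real.norm_eq_abs, abs_of_pos hsum, abs_of_nonneg]
      have : 0 < La - Lr := by linarith
      positivity
    rw [h2] at h1
    have h4 : (La - Lr) * q ≤ 1 / 1000 * q := by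
      apply mul_le_mul_of_nonneg_right _ hq0.le
      linarith
    have h5 : 2000 * (5 / 6 * q) ≤ (La + Lr) * (5 / 6 * q) := by
      apply mul_le_mul_of_nonneg_right _ (by positivity)
      linarith
    have h6 : La + Lr ≤ 2001 := by linarith
    nlinarith
  have n6 : (chi s) ^ 2 = (Zf s - I * Lr) * (Zf s + I * Lr) := by
    have h1 := Zx_sq (chi s)
    have h2 : Zf s ^ 2 = (chi s) ^ 2 - Lr ^ 2 := h1
    linear_combination -h2 + ((Lr : ℂ) ^ 2) * Complex.I_sq
  have n7 : 900 ≤ ‖chi s‖ := by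
    have h1 : ‖chi s‖ ^ 2 = ‖Zf s - I * Lr‖ * ‖Zf s + I * Lr‖ := by
      rw [← norm_pow, n6, norm_mul]
    have h2 : (740 : ℝ) * 1240 ≤ ‖Zf s - I * Lr‖ * ‖Zf s + I * Lr‖ :=
      mul_le_mul n4 n5 (by norm_num) (norm_nonneg _)
    by_contra hcon
    push Not at hcon
    nlinarith [norm_nonneg (chi s)]
  have hd := den_ne_zero h.1
  have h10 : 0 ≤ (chi s).re := by
    have hs : ‖s‖ < 1 := h.1
    rw [chi_re hd]
    have : 0 < 1 - ‖s‖ ^ 2 := by nlinarith [norm_nonneg s]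
    positivity
  have h11 := norm_sig_sub_sg h10 (by linarith)
  rw [sig_chi hd] at h11
  refine h11.trans ?_
  rw [div_le_div_iff₀ (by linarith) (by norm_num)]
  linarith

end Pool.Agent.TRB.Geo
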