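import Pool.Agent.TRB.GeoMap

/-!
# Wg and Ug r are Runge sets

PROOF. Rays: for norm a >= 1 the set {x a | x >= 1} is preconnected, unbounded and disjoint from ball 0 1. If moreover norm (a - 1) >= r, 0 < r, then
norm (x a - 1) >= r for all x >= 1, since x^2 |a|^2 - 2 x Re a + 1 has derivative 2 x |a|^2 - 2 Re a >= 0 for x >= 1, |a| >= 1.
Slit: let norm a < 1, Im (chi a) = 0, Re (chi a) <= Lr. Then x0 := Re (chi a) > 0, chi a = x0, a = sig x0. Take
C = sig '' (segment [0, x0] of the real axis) union the ray {y s0 | y >= 1}, s0 = sig 0 = (3+4I)/5 of norm 1: preconnected (both parts contain s0),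
unbounded, contains a. sig x for 0 < x <= x0 has chi (sig x) = x on the slit so it is not in Wg; norm (sig 0) = 1.
For Ug r: a point not in Ug r is either real >= 1 (take C = the real numbers >= 1... i.e. {s | s.im = 0 and 1 <= s.re}, convex, unbounded) or not in Wg and not in ball 1 r:
if norm a >= 1 take the ray; if norm a < 1 take C as above: its points of norm < 1 are not in Wg hence not in ball 1 r (hypothesis
ball 1 r inter ball 0 1 in Wg), and norm (s0 - 1) = 2/sqrt 5 >= 1/2 >= r so the ray of s0 avoids ball 1 r.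
-/

set_option autoImplicit false

namespace Pool.Agent.TRB.Geo

open Complex Metric Set

/-- the ray from `a` to infinity, away from the origin -/
private def ray (a : ℂ) : Set ℂ := (fun x : ℝ => (x : ℂ) * a) '' Ici 1

private theorem mem_ray (a : ℂ) : a ∈ ray a := ⟨1, mem_Ici.2 le_rfl, by simp⟩

private theorem ray_conn (a : ℂ) : IsPreconnected (ray a) :=
  isPreconnected_Ici.image _ (by fun_prop)

private theorem ray_norm {a z : ℂ} (ha : 1 ≤ ‖a‖) (hz : z ∈ ray a) : 1 ≤ ‖z‖ := by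
  obtain ⟨x, hx, rfl⟩ := hz
  have hx1 : (1 : ℝ) ≤ x := hx
  show 1 ≤ ‖(x : ℂ) * a‖
  rw [norm_mul, Complex.norm_real, Real.norm_of_nonneg (by linarith)]
  nlinarith

private theorem ray_unb {a : ℂ} (ha : 1 ≤ ‖a‖) {C : Set ℂ} (hC : ray a ⊆ C) :
    ¬ Bornology.IsBounded C := by
  intro hb
  obtain ⟨R, hR⟩ := (isBounded_iff_forall_norm_le.1 (hb.subset hC))
  have hx1 : (1 : ℝ) ≤ max 1 (R + 1) := le_max_left _ _
  have h := hR _ ⟨max 1 (R + 1), hx1, rfl⟩
  simp only at h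
  rw [norm_mul, Complex.norm_real, Real.norm_of_nonneg (by linarith)] at h
  have h2 : R + 1 ≤ max 1 (R + 1) := le_max_right _ _
  nlinarith

private theorem ray_ball {a z : ℂ} {r : ℝ} (ha : 1 ≤ ‖a‖) (h1 : r ≤ ‖a - 1‖) (hz : z ∈ ray a) :
    r ≤ ‖z - 1‖ := by
  obtain ⟨x, hx, rfl⟩ := hz
  have hx1 : (1 : ℝ) ≤ x := hx
  refine h1.trans ?_
  show ‖a - 1‖ ≤ ‖(x : ℂ) * a - 1‖
  refine le_of_sq_le_sq ?_ (norm_nonneg _)
  rw [← Complex.normSq_eq_norm_sq, ← Complex.normSq_eq_norm_sq, Complex.normSq_apply,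
    Complex.normSq_apply]
  have h2 : a.re ≤ ‖a‖ := Complex.re_le_norm a
  have h3 : ‖a‖ ^ 2 = a.re * a.re + a.im * a.im := by
    rw [← Complex.normSq_eq_norm_sq, Complex.normSq_apply]
  simp only [Complex.sub_re, Complex.sub_im, Complex.mul_re, Complex.mul_im, Complex.ofReal_re,
    Complex.ofReal_im, Complex.one_re, Complex.one_im]
  have h4 : ‖a‖ ≤ ‖a‖ ^ 2 := by nlinarith
  have h5 : 0 ≤ (x - 1) * (a.re * a.re + a.im * a.im - a.re) :=
    mul_nonneg (by linarith) (by linarith)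
  have h6 : 0 ≤ (x - 1) ^ 2 * (a.re * a.re + a.im * a.im) :=
    mul_nonneg (sq_nonneg _) (by nlinarith [sq_nonneg a.re, sq_nonneg a.im])
  nlinarith

private theorem norm_s0 : ‖sig 0‖ = 1 := norm_sig_eq (by simp)

private theorem norm_s0_sub : 1 / 2 ≤ ‖sig 0 - 1‖ := by
  rw [sig_zero]
  refine le_of_sq_le_sq ?_ (norm_nonneg _)
  rw [← Complex.normSq_eq_norm_sq, Complex.normSq_apply]
  have h1 : ((3 + 4 * I) / 5 - 1 : ℂ).re = -2 / 5 := by
    have : ((3 + 4 * I) / 5 - 1 : ℂ) = ((-2 / 5 : ℝ) : ℂ) + ((4 / 5 : ℝ) : ℂ) * I := by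
      push_cast
      ring
    rw [this]
    simp
  have h2 : ((3 + 4 * I) / 5 - 1 : ℂ).im = 4 / 5 := by
    have : ((3 + 4 * I) / 5 - 1 : ℂ) = ((-2 / 5 : ℝ) : ℂ) + ((4 / 5 : ℝ) : ℂ) * I := by
      push_cast
      ring
    rw [this]
    simp
  rw [h1, h2]
  norm_num

/-- the set from a point of the slit to infinity -/
private def tail (x0 : ℝ) : Set ℂ := (fun x : ℝ => sig (x : ℂ)) '' Icc 0 x0 ∪ ray (sig 0)

private theorem tail_conn {x0 : ℝ} (h : 0 ≤ x0) : IsPreconnected (tail x0) := by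
  refine IsPreconnected.union (sig 0) ⟨0, ⟨le_rfl, h⟩, by simp⟩ (mem_ray _) ?_ (ray_conn _)
  refine isPreconnected_Icc.image _ ?_
  intro x hx
  have h1 : DifferentiableAt ℂ sig (x : ℂ) := differentiableAt_sig (by simpa using hx.1)
  exact (ContinuousAt.comp (f := fun x : ℝ => (x : ℂ)) (g := sig) h1.continuousAt
    Complex.continuous_ofReal.continuousAt).continuousWithinAt

private theorem tail_unb (x0 : ℝ) : ¬ Bornology.IsBounded (tail x0) :=
  ray_unb norm_s0.ge subset_union_right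

/-- the points of the tail -/
private theorem tail_cases {x0 : ℝ} (hx0 : x0 ≤ Lr) {z : ℂ} (hz : z ∈ tail x0) :
    (‖z‖ < 1 ∧ (chi z).im = 0 ∧ (chi z).re ≤ Lr) ∨ z ∈ ray (sig 0) := by
  rcases hz with ⟨x, hx, rfl⟩ | hz
  · rcases hx.1.eq_or_lt with h | h
    · right
      have : x = 0 := h.symm
      subst this
      show sig ((0 : ℝ) : ℂ) ∈ ray (sig 0)
      rw [Complex.ofReal_zero]
      exact mem_ray _
    · left
      have h1 : chi (sig (x : ℂ)) = x := chi_sig (by simpa using h.le)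
      refine ⟨norm_sig_lt (by simpa using h), ?_, ?_⟩
      · show (chi (sig (x : ℂ))).im = 0
        rw [h1]
        simp
      · show (chi (sig (x : ℂ))).re ≤ Lr
        rw [h1]
        simpa using hx.2.trans hx0
  · exact Or.inr hz

private theorem slit_data {a : ℂ} (h1 : ‖a‖ < 1) (h2 : (chi a).im = 0) :
    0 ≤ (chi a).re ∧ a ∈ tail (chi a).re := by
  have hd := den_ne_zero h1
  have hn : 0 ≤ ‖a‖ := norm_nonneg a
  have h0 : 0 ≤ (chi a).re := by
    rw [chi_re hd]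
    refine div_nonneg ?_ (sq_nonneg _)
    nlinarith
  refine ⟨h0, Or.inl ⟨(chi a).re, ⟨h0, le_rfl⟩, ?_⟩⟩
  have h3 : (((chi a).re : ℝ) : ℂ) = chi a := Complex.ext (by simp) (by simp [h2])
  show sig (((chi a).re : ℝ) : ℂ) = a
  rw [h3]
  exact sig_chi hd

theorem rungeSet_Wg : RungeSet Wg := by
  intro a ha
  by_cases h1 : 1 ≤ ‖a‖
  · refine ⟨ray a, ray_conn a, mem_ray a, ?_, ray_unb h1 subset_rfl⟩
    intro z hz hzW
    exact absurd hzW.1 (not_lt.2 (ray_norm h1 hz))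
  · have h1' := not_le.1 h1
    have h2 : (chi a).im = 0 ∧ (chi a).re ≤ Lr := by
      by_contra hcon
      exact ha ⟨h1', hcon⟩
    obtain ⟨h3, h4⟩ := slit_data h1' h2.1
    refine ⟨tail (chi a).re, tail_conn h3, h4, ?_, tail_unb _⟩
    intro z hz hzW
    rcases tail_cases h2.2 hz with h | h
    · exact hzW.2 h.2
    · exact absurd hzW.1 (not_lt.2 (ray_norm norm_s0.ge h))

theorem rungeSet_Ug (r : ℝ) (hr : 0 < r) (hr2 : r ≤ 1 / 2)
    (h : ball (1 : ℂ) r ∩ ball (0 : ℂ) 1 ⊆ Wg) : RungeSet (Ug r) := by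
  intro a ha
  by_cases hre : a.im = 0 ∧ 1 ≤ a.re
  · refine ⟨ray 1, ray_conn 1, ⟨a.re, hre.2, ?_⟩, ?_, ray_unb (by simp) subset_rfl⟩
    · exact Complex.ext (by simp) (by simp [hre.1])
    · rintro z ⟨x, hx, rfl⟩ hz
      refine hz.2 ⟨?_, ?_⟩
      · simp
      · have hx1 : (1 : ℝ) ≤ x := hx
        simpa using hx1
  have hW : a ∉ Wg := fun hcon => ha ⟨Or.inl hcon, hre⟩
  have hB : a ∉ ball (1 : ℂ) r := fun hcon => ha ⟨Or.inr hcon, hre⟩
  by_cases h1 : 1 ≤ ‖a‖
  · refine ⟨ray a, ray_conn a, mem_ray a, ?_, ray_unb h1 subset_rfl⟩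
    have h2 : r ≤ ‖a - 1‖ := by
      rw [mem_ball, dist_eq_norm, not_lt] at hB
      exact hB
    rintro z hz ⟨hzW | hzB, -⟩
    · exact absurd hzW.1 (not_lt.2 (ray_norm h1 hz))
    · rw [mem_ball, dist_eq_norm] at hzB
      exact absurd hzB (not_lt.2 (ray_ball h1 h2 hz))
  · have h1' := not_le.1 h1
    have h2 : (chi a).im = 0 ∧ (chi a).re ≤ Lr := by
      by_contra hcon
      exact hW ⟨h1', hcon⟩
    obtain ⟨h3, h4⟩ := slit_data h1' h2.1
    refine ⟨tail (chi a).re, tail_conn h3, h4, ?_, tail_unb _⟩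
    have hs : r ≤ ‖sig 0 - 1‖ := hr2.trans norm_s0_sub
    rintro z hz ⟨hz', -⟩
    rcases tail_cases h2.2 hz with h5 | h5
    · rcases hz' with hzW | hzB
      · exact hzW.2 h5.2
      · have h6 : z ∈ Wg := h ⟨hzB, by rw [mem_ball, dist_zero_right]; exact h5.1⟩
        exact h6.2 h5.2
    · rcases hz' with hzW | hzB
      · exact absurd hzW.1 (not_lt.2 (ray_norm norm_s0.ge h5))
      · rw [mem_ball, dist_eq_norm] at hzB
        exact absurd hzB (not_lt.2 (ray_ball norm_s0.ge hs h5))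

end Pool.Agent.TRB.Geo
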