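import Pool.Agent.TRB.GeoPole
import Pool.Agent.TRB.GeoRunge
import Pool.Agent.TRB.GeoClos
import Pool.Agent.TRB.GeoEx
import Pool.Agent.TRB.GeoE2

/-!
# The geometric data exist
-/

set_option autoImplicit false

namespace Pool.Agent.TRB.Geo

open Complex Metric Set Filter Topology

theorem S0_pos : 0 < S0 := by
  have := S0_bounds.1
  linarith

theorem Gf_differentiableAt {s : ℂ} (h : s ∈ Wg) : DifferentiableAt ℂ Gf s := by
  have h1 := Zf_re_pos h
  have hne : Zf s - I * La ≠ 0 := by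
    intro h0
    have h2 := congrArg Complex.re h0
    simp at h2
    linarith
  unfold Gf
  exact (differentiableAt_const _).add
    ((differentiableAt_const _).div ((Zf_differentiableAt h).sub_const _) hne)

theorem continuousOn_Gf : ContinuousOn Gf Wg :=
  fun _ hs => (Gf_differentiableAt hs).continuousAt.continuousWithinAt

/-- the part of the cut region far from the pole -/
def E1 : Set ℂ := {s | s ∈ Wg ∧ -1 / 2 < (Gf s).re ∧ rg < ‖Gf s - bg * I‖}

/-- the part near the pole -/
def E2 (h : ℝ) (k : ℕ) : Set ℂ := exp '' {u | |u.re| < h ∧ |u.im| < Real.pi / k}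

theorem isOpen_E1 : IsOpen E1 := by
  have h1 := continuousOn_Gf.isOpen_inter_preimage isOpen_Wg
    ((isOpen_lt (continuous_const (y := (-1 / 2 : ℝ))) continuous_re).inter
      (isOpen_lt (continuous_const (y := rg)) (continuous_norm.comp
        (continuous_id.sub (continuous_const (y := (bg : ℂ) * I))))))
  exact h1

theorem isOpen_E2 (h : ℝ) (k : ℕ) : IsOpen (E2 h k) := by
  apply isOpenMap_exp
  exact (isOpen_lt continuous_re.abs continuous_const).inter
    (isOpen_lt continuous_im.abs continuous_const)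

theorem closure_E1 {s : ℂ} (hs : s ∈ closure E1) (h1 : s ≠ 1) :
    s ∈ Wg ∧ -1 / 2 ≤ (Gf s).re ∧ rg ≤ ‖Gf s - bg * I‖ := by
  have hsub : E1 ⊆ {s | s ∈ Wg ∧ -1 / 2 ≤ (Gf s).re} ∪ {(1 : ℂ)} :=
    fun s hs => Or.inl ⟨hs.1, hs.2.1.le⟩
  have h2 := closure_minimal hsub (compact_level (-1 / 2) (by norm_num)).isClosed hs
  rcases h2 with h2 | h2
  · refine ⟨h2.1, h2.2, ?_⟩
    have hc : ContinuousAt (fun z => ‖Gf z - bg * I‖) s :=
      ((Gf_differentiableAt h2.1).continuousAt.sub continuousAt_const).norm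
    by_contra hlt
    push Not at hlt
    have h3 : ∀ᶠ z in 𝓝 s, ‖Gf z - bg * I‖ < rg := hc.eventually (gt_mem_nhds hlt)
    obtain ⟨z, hz1, hz2⟩ := mem_closure_iff_nhds.1 hs _ h3
    exact absurd hz1 (not_lt.2 hz2.2.2.le)
  · exact absurd h2 h1

theorem closure_E2 (h : ℝ) (k : ℕ) :
    closure (E2 h k) ⊆ exp '' {u | |u.re| ≤ h ∧ |u.im| ≤ Real.pi / k} := by
  have hcomp : IsCompact {u : ℂ | |u.re| ≤ h ∧ |u.im| ≤ Real.pi / k} := by
    apply Metric.isCompact_of_isClosed_isBounded
    · exact (isClosed_le continuous_re.abs continuous_const).inter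
        (isClosed_le continuous_im.abs continuous_const)
    · refine (isBounded_iff_forall_norm_le).2 ⟨h + Real.pi / k, fun u hu => ?_⟩
      exact (norm_le_abs_re_add_abs_im u).trans (add_le_add hu.1 hu.2)
  apply closure_minimal _ (hcomp.image continuous_exp).isClosed
  rintro _ ⟨u, hu, rfl⟩
  exact ⟨u, ⟨hu.1.le, hu.2.le⟩, rfl⟩

theorem data_exists : Nonempty Data := by
  obtain ⟨r, C, hr, hr2, hsub, hpos, hpole⟩ := pole
  have hS0 := S0_pos
  have hLa := La_pos
  -- h and k
  have hc0 : ContinuousAt exp (0 : ℂ) := continuous_exp.continuousAt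
  obtain ⟨d, hd, hd'⟩ := Metric.continuousAt_iff.1 hc0 r hr
  set h : ℝ := d / 3 with hh
  have hh0 : 0 < h := by positivity
  obtain ⟨k0', hk0⟩ := exists_nat_ge (3 * Real.pi / d)
  set k : ℕ := k0' + 2 with hk
  have hkpos : (0 : ℝ) < k := by
    rw [hk]
    positivity
  have hpik : Real.pi / k ≤ d / 3 := by
    rw [div_le_iff₀ hkpos]
    have h1 : 3 * Real.pi / d ≤ k := by
      rw [hk]
      push_cast
      linarith
    rw [div_le_iff₀ hd] at h1
    linarith
  have hpik0 : 0 < Real.pi / k := div_pos Real.pi_pos hkpos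
  have hpik1 : Real.pi / k < Real.pi := by
    rw [div_lt_iff₀ hkpos]
    have : (1 : ℝ) < k := by
      rw [hk]
      push_cast
      have : (0 : ℝ) ≤ k0' := Nat.cast_nonneg _
      linarith
    nlinarith [Real.pi_pos]
  have hrect : ∀ u : ℂ, |u.re| ≤ h → |u.im| ≤ Real.pi / k → exp u ∈ ball (1 : ℂ) r := by
    intro u h1 h2
    have h3 : ‖u‖ < d := by
      refine lt_of_le_of_lt (norm_le_abs_re_add_abs_im u) ?_
      linarith
    have h4 := hd' (x := u) (by simpa using h3)
    rwa [exp_zero] at h4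
  -- points of the side |Im u| = pi / k
  have hside : ∀ u : ℂ, |u.re| ≤ h → |u.im| = Real.pi / k → (exp u).im ≠ 0 := by
    intro u h1 h2 h0
    rw [exp_im] at h0
    rcases mul_eq_zero.1 h0 with h3 | h3
    · exact (Real.exp_pos _).ne' h3
    · have h4 : Real.sin |u.im| = 0 := by
        rcases abs_choice u.im with h5 | h5
        · rw [h5, h3]
        · rw [h5, Real.sin_neg, h3, neg_zero]
      rw [h2] at h4
      exact (Real.sin_pos_of_pos_of_lt_pi hpik0 hpik1).ne' h4
  have h1E2 : (1 : ℂ) ∈ E2 h k := ⟨0, ⟨by simpa using hh0, by simpa using hpik0⟩, exp_zero⟩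
  have hUmem : ∀ s ∈ ball (1 : ℂ) r, s.im ≠ 0 → s ∈ Ug r :=
    fun s hs h0 => ⟨Or.inr hs, fun h1 => h0 h1.1⟩
  have hWU : Wg ⊆ Ug r := by
    intro s hs
    refine ⟨Or.inl hs, fun h1 => ?_⟩
    have h2 := (re_le_norm s).trans_lt hs.1
    exact absurd h1.2 (not_le.2 h2)
  have hEo : IsOpen (E1 ∪ E2 h k) := isOpen_E1.union (isOpen_E2 h k)
  have hfrE : frontier (E1 ∪ E2 h k) = closure (E1 ∪ E2 h k) \ (E1 ∪ E2 h k) := hEo.frontier_eq
  -- analysis of the closure of E2
  have hE2an : ∀ η ∈ closure (E2 h k), η ∉ E1 ∪ E2 h k →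
      (η ∈ Ug r ∧ (Gf η).re ≤ -1 / 2 ∧ ‖η‖ < Real.exp h) ∨ ‖η‖ = Real.exp h := by
    intro η hη hnE
    obtain ⟨u, ⟨hu1, hu2⟩, rfl⟩ := closure_E2 h k hη
    have hball := hrect u hu1 hu2
    have hnorm : ‖exp u‖ = Real.exp u.re := norm_exp u
    rcases eq_or_lt_of_le ((le_abs_self _).trans hu1) with h1 | h1
    · right
      rw [hnorm, h1]
    · left
      have hlt : ‖exp u‖ < Real.exp h := by
        rw [hnorm]
        exact Real.exp_lt_exp.2 h1
      have hne1 : exp u ≠ 1 := fun h0 => hnE (Or.inr (h0 ▸ h1E2))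
      obtain ⟨q1, q2, q3, q4⟩ := hpole _ hball hne1
      rcases lt_or_ge ‖exp u‖ 1 with h2 | h2
      · have hW : exp u ∈ Wg := hsub ⟨hball, by rwa [mem_ball_zero_iff]⟩
        refine ⟨hWU hW, ?_, hlt⟩
        by_contra h3
        push Not at h3
        exact hnE (Or.inl ⟨hW, h3, q3⟩)
      · have h3 : 0 ≤ u.re := by
          rw [hnorm] at h2
          exact Real.one_le_exp_iff.1 h2
        have h4 : |u.im| = Real.pi / k := by
          refine le_antisymm hu2 ?_
          by_contra h5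
          push Not at h5
          exact hnE (Or.inr ⟨u, ⟨by rwa [abs_of_nonneg h3], h5⟩, rfl⟩)
        exact ⟨hUmem _ hball (hside u hu1 h4), (q4 h2).trans (by norm_num), hlt⟩
  have hsg : ∀ e : ℝ, |e| = Real.pi / k → exp ((e : ℂ) * I) ∈ Ug r ∧
      (Gf (exp ((e : ℂ) * I))).re ≤ -1 / 2 := by
    intro e he
    have h1 : ((e : ℂ) * I).re = 0 := by simp
    have h2 : ((e : ℂ) * I).im = e := by simp
    have h3 : |((e : ℂ) * I).re| ≤ h := by
      rw [h1, abs_zero]
      exact hh0.le
    have hball := hrect ((e : ℂ) * I) h3 (by rw [h2, he])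
    have him := hside ((e : ℂ) * I) h3 (by rw [h2, he])
    have hne1 : exp ((e : ℂ) * I) ≠ 1 := by
      intro h0
      rw [h0] at him
      exact him one_im
    obtain ⟨q1, q2, q3, q4⟩ := hpole _ hball hne1
    refine ⟨hUmem _ hball him, (q4 ?_).trans (by norm_num)⟩
    rw [norm_exp_ofReal_mul_I]
  have hcA : ∃ c1 : ℝ, 0 < c1 ∧ ∀ η ∈ closure E1, η ∉ E2 h k → ‖η‖ ≤ 1 - c1 := by
    have hKc : IsCompact (closure E1 ∩ (E2 h k)ᶜ) := by
      have hsub' : E1 ⊆ {s | s ∈ Wg ∧ -1 / 2 ≤ (Gf s).re} ∪ {(1 : ℂ)} :=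
        fun s hs => Or.inl ⟨hs.1, hs.2.1.le⟩
      have hc1 := (compact_level (-1 / 2) (by norm_num)).of_isClosed_subset isClosed_closure
        (closure_minimal hsub' (compact_level (-1 / 2) (by norm_num)).isClosed)
      exact hc1.inter_right (isOpen_E2 h k).isClosed_compl
    rcases (closure E1 ∩ (E2 h k)ᶜ).eq_empty_or_nonempty with he | hne
    · refine ⟨1, one_pos, fun η h1 h2 => ?_⟩
      have : η ∈ closure E1 ∩ (E2 h k)ᶜ := ⟨h1, h2⟩
      rw [he] at this
      exact absurd this (notMem_empty _)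
    · obtain ⟨η0, hη0, hmax⟩ := hKc.exists_isMaxOn hne (f := fun η => ‖η‖) (by fun_prop)
      have h1 : η0 ≠ 1 := fun h0 => hη0.2 (h0 ▸ h1E2)
      have h2 := (closure_E1 hη0.1 h1).1.1
      refine ⟨1 - ‖η0‖, by linarith, fun η h3 h4 => ?_⟩
      have h5 : ‖η‖ ≤ ‖η0‖ := hmax ⟨h3, h4⟩
      linarith
  obtain ⟨c1, hc1, hc1'⟩ := hcA
  refine ⟨{
    W := Wg
    U := Ug r
    E := E1 ∪ E2 h k
    G := Gf
    S := S0 * La / 2
    r := r
    C := C
    b := bg
    ρ := rg
    h := h
    k := k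
    hWo := isOpen_Wg
    hUo := ?_
    hWU := hWU
    hWb := fun s hs => by rw [mem_ball_zero_iff]; exact hs.1
    h0W := zero_mem_Wg
    hRW := rungeSet_Wg
    hRU := rungeSet_Ug r hr hr2 hsub
    hPW := hasPrimitives_Wg
    hG := ?_
    hG0 := Gf_zero
    hS := by positivity
    hr := hr
    hr2 := hr2
    hrW := hsub
    hpole := fun s hs h1 => (hpole s hs h1).2.1
    hV := ?_
    hT := fun s h1 h2 => Gf_near_T s h1 h2
    hEo := hEo
    hEb := ?_
    h1E := Or.inr h1E2
    hE2 := ?_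
    hh := hh0
    hk := by omega
    hρ := ?_
    hfr := ?_
    hKb := compact_circle (-1 / 2) bg rg (by norm_num)
    hc := ?_
    hp1 := ?_
    hp2 := ?_ }⟩
  · apply (isOpen_Wg.union isOpen_ball).sdiff
    exact (isClosed_eq continuous_im continuous_const).inter
      (isClosed_le continuous_const continuous_re)
  · intro s hs
    rcases hs.1 with h1 | h1
    · exact (Gf_differentiableAt h1).differentiableWithinAt
    · have hne : s ≠ 1 := by
        rintro rfl
        exact hs.2 ⟨one_im, le_of_eq one_re.symm⟩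
      exact (hpole s h1 hne).1.differentiableWithinAt
  · have hsub' : {s | s ∈ Wg ∧ 1 / 4 < (Gf s).re} ⊆ {s | s ∈ Wg ∧ 1 / 4 ≤ (Gf s).re} ∪ {(1 : ℂ)} :=
      fun s hs => Or.inl ⟨hs.1, hs.2.le⟩
    intro s hs
    rcases closure_minimal hsub' (compact_level (1 / 4) (by norm_num)).isClosed hs with h1 | h1
    · exact Or.inl h1.1
    · exact Or.inr h1
  · apply Bornology.IsBounded.union
    · exact (isBounded_ball (x := (0 : ℂ)) (r := 1)).subset
        (fun s hs => by rw [mem_ball_zero_iff]; exact hs.1.1)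
    · refine (isBounded_ball (x := (1 : ℂ)) (r := r)).subset ?_
      rintro _ ⟨u, hu, rfl⟩
      exact hrect u hu.1.le hu.2.le
  · intro w hw1 hw2 hmem
    have h1 := exp_out w hw1 hw2
    have hsub' : E1 ∪ E2 h k ⊆ {s : ℂ | 0 ≤ 10 * s.re - 3 - 3 * ‖s‖ ^ 2} := by
      rintro s (hs | ⟨u, hu, rfl⟩)
      · have h2 := chi_im_pos_of s hs.1 hs.2.2.le
        have hden := den_ne_zero hs.1.1
        rw [chi_im hden] at h2
        have h3 : 0 < ‖den s‖ ^ 2 := by
          have := norm_pos_iff.2 hden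
          positivity
        exact ((div_pos_iff_of_pos_right h3).1 h2).le
      · exact (hpos _ (hrect u hu.1.le hu.2.le)).le
    have hcl : IsClosed {s : ℂ | 0 ≤ 10 * s.re - 3 - 3 * ‖s‖ ^ 2} :=
      isClosed_le continuous_const (by fun_prop)
    have h2 : 0 ≤ 10 * (exp (-w)).re - 3 - 3 * ‖exp (-w)‖ ^ 2 := closure_minimal hsub' hcl hmem
    linarith
  · unfold rg Lr
    positivity
  · intro η hη
    rw [hfrE] at hη
    obtain ⟨hη1, hη2⟩ := hη
    rw [closure_union] at hη1
    rcases hη1 with h1 | h1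
    · have hne1 : η ≠ 1 := fun h0 => hη2 (Or.inr (h0 ▸ h1E2))
      obtain ⟨q1, q2, q3⟩ := closure_E1 h1 hne1
      rcases le_or_gt (Gf η).re (-1 / 2) with h2 | h2
      · left
        refine ⟨hWU q1, h2, q1.1.trans ?_⟩
        exact Real.one_lt_exp_iff.2 hh0
      · right
        left
        have h3 : ‖Gf η - bg * I‖ = rg := by
          refine le_antisymm ?_ q3
          by_contra h4
          push Not at h4
          exact hη2 (Or.inl ⟨q1, h2, h4⟩)
        exact ⟨q1, q2, h3, exit_near_sg η q1 h3⟩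
    · rcases hE2an η h1 hη2 with h2 | h2
      · exact Or.inl h2
      · exact Or.inr (Or.inr h2)
  · refine ⟨min c1 (1 - Real.exp (-h)), lt_min hc1 ?_, ?_⟩
    · have : Real.exp (-h) < 1 := Real.exp_lt_one_iff.2 (by linarith)
      linarith
    · intro η hη h1 h2
      rw [hfrE] at hη
      obtain ⟨hη1, hη2⟩ := hη
      have hnE2 : η ∉ E2 h k := fun h0 => hη2 (Or.inr h0)
      rw [closure_union] at hη1
      rcases hη1 with h3 | h3
      · have h4 := hc1' η h3 hnE2
        have h5 := min_le_left c1 (1 - Real.exp (-h))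
        linarith
      · obtain ⟨u, ⟨hu1, hu2⟩, rfl⟩ := closure_E2 h k h3
        have hnorm : ‖exp u‖ = Real.exp u.re := norm_exp u
        have h4 : u.re < h := by
          rw [hnorm] at h2
          exact Real.exp_lt_exp.1 h2
        have h5 : -h < u.re := by
          have h6 := min_le_right c1 (1 - Real.exp (-h))
          rw [hnorm] at h1
          exact Real.exp_lt_exp.1 (by linarith)
        have h6 : |u.im| = Real.pi / k := by
          refine le_antisymm hu2 ?_
          by_contra h7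
          push Not at h7
          exact hnE2 ⟨u, ⟨abs_lt.2 ⟨h5, h4⟩, h7⟩, rfl⟩
        have h7 : exp u = ‖exp u‖ * exp ((u.im : ℂ) * I) := by
          rw [hnorm, ofReal_exp, ← exp_add, re_add_im]
        rcases abs_choice u.im with h8 | h8
        · left
          rw [h8] at h6
          rw [← h6]
          exact h7
        · right
          rw [h8] at h6
          have h9 : ((u.im : ℝ) : ℂ) * I = -(((Real.pi / k : ℝ) : ℂ) * I) := by
            rw [← h6]
            push_cast
            ring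
          rw [← h9]
          exact h7
  · exact hsg (Real.pi / k) (abs_of_pos hpik0)
  · have h1 := hsg (-(Real.pi / k)) (by rw [abs_neg, abs_of_pos hpik0])
    have h2 : ((-(Real.pi / k) : ℝ) : ℂ) * I = -(((Real.pi / k : ℝ) : ℂ) * I) := by
      push_cast
      ring
    rw [h2] at h1
    exact h1

end Pool.Agent.TRB.Geo
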