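import Pool.Agent.TRB.Defs

/-!
# On the boundary Re G = 1/4 Newton's map leaves the unit disc

PROOF. s in frontier V0, s /= 1. hV: s in closure V0 is in W (union {1}), so s in W. V0 is open (W open, G continuous on W), so s not in
V0, Re G s <= 1/4, and s in closure V0 and continuity of G at s give Re G s >= 1/4. So Re G s = 1/4, G s /= 0 and
norm (1 - 1/g)^2 = 1 + (1 - 2 Re g)/norm g^2 = 1 + 1/(2 norm g ^2), g = G s.
Claim: there is B with (2 * norm (G s)^2 + 1) * Real.log (1/norm s) <= B for all s in frontier V0, s /= 1 (s /= 0 since 0 in V0).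
Then for n > 2 B: log (norm (s (1-1/g)^n)) = (n/2) log (1 + 1/(2 norm g^2)) - log(1/norm s) >= (n/2)/(2 norm g^2 + 1) - B/(2 norm g^2+1) > 0
(log (1+x) >= x/(1+x)).
Proof of the claim. Near 1 (norm (1-s) < r): hpole: G s = S/(1-s) + e, norm e <= C, so Re (S/(1-s)) <= 1/4 + C. But
Re (1/(1-s)) = (1 - norm s ^2 + norm (1-s)^2)/(2 norm (1-s)^2), so 1 - norm s^2 <= C' * norm (1-s)^2 with C' = 2 (1/4 + abs C)/S;
norm s >= 1/2 (r <= 1/2), so log (1/norm s) <= (1/2)(1/norm s^2 - 1) <= 2 (1 - norm s^2) <= 2 C' norm (1-s)^2, and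
norm (G s)^2 * norm (1-s)^2 <= (S + abs C)^2. Away from 1: the set of s in closure V0 with norm (1-s) >= r is compact and inside W, so G
is bounded on it; norm s >= e0 > 0 for s in frontier V0, because a ball around 0 is inside the open V0; so log (1/norm s) <= log (1/e0).
-/

set_option autoImplicit false

namespace Pool.Agent.TRB

open Complex Metric Set

/-- membership facts on the boundary -/
private theorem Exit.front (D : Data) {s : ℂ} (hs : s ∈ frontier D.V0) (hs1 : s ≠ 1) :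
    s ∈ D.W ∧ (D.G s).re = 1 / 4 := by
  have hGW : ContinuousOn D.G D.W := D.hG.continuousOn.mono D.hWU
  have hreW : ContinuousOn (fun z => (D.G z).re) D.W :=
    Complex.continuous_re.comp_continuousOn hGW
  have hVo : IsOpen D.V0 := by
    have h := hreW.isOpen_inter_preimage D.hWo (isOpen_Ioi (a := (1 / 4 : ℝ)))
    have e : D.V0 = D.W ∩ (fun z => (D.G z).re) ⁻¹' Ioi (1 / 4 : ℝ) := rfl
    rw [e]
    exact h
  have hcl : s ∈ closure D.V0 := frontier_subset_closure hs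
  have hW : s ∈ D.W := by
    rcases D.hV hcl with h | h
    · exact h
    · exact absurd h hs1
  have hn : s ∉ D.V0 := by
    have h := hs.2
    rwa [hVo.interior_eq] at h
  refine ⟨hW, le_antisymm ?_ ?_⟩
  · by_contra hc
    exact hn ⟨hW, not_le.1 hc⟩
  · by_contra hc
    rw [not_le] at hc
    have hca : ContinuousAt (fun z => (D.G z).re) s := hreW.continuousAt (D.hWo.mem_nhds hW)
    have hev : ∀ᶠ z in nhds s, (D.G z).re < 1 / 4 := hca.eventually (gt_mem_nhds hc)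
    rw [mem_closure_iff_frequently] at hcl
    obtain ⟨z, hz1, hz2⟩ := (hcl.and_eventually hev).exists
    exact absurd hz1.2 (not_lt.2 hz2.le)

/-- near the pole -/
private theorem Exit.near (D : Data) {s : ℂ} (hW : s ∈ D.W) (hre : (D.G s).re = 1 / 4)
    (hs1 : s ≠ 1) (hr : ‖1 - s‖ < D.r) :
    (2 * ‖D.G s‖ ^ 2 + 1) * Real.log (1 / ‖s‖) ≤
      (2 * (D.S + |D.C|) ^ 2 + 1) * (4 * (1 / 4 + |D.C|) / D.S) := by
  have hb : s ∈ ball (1 : ℂ) D.r := by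
    rw [mem_ball, dist_eq_norm, norm_sub_rev]
    exact hr
  have hp := D.hpole s hb hs1
  have hS := D.hS
  have hd : (1 : ℂ) - s ≠ 0 := sub_ne_zero.2 (Ne.symm hs1)
  have hdn : 0 < ‖1 - s‖ := norm_pos_iff.2 hd
  have hd1 : ‖1 - s‖ < 1 / 2 := lt_of_lt_of_le hr D.hr2
  have hsn : 1 / 2 ≤ ‖s‖ := by
    have h1 : ‖(1 : ℂ)‖ ≤ ‖1 - s‖ + ‖s‖ := by
      have h2 := norm_add_le (1 - s) s
      rwa [sub_add_cancel] at h2
    rw [norm_one] at h1
    linarith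
  have hCa : D.C ≤ |D.C| := le_abs_self _
  have hCn : 0 ≤ |D.C| := abs_nonneg _
  -- real part of S/(1-s)
  have hre1 : ((D.S : ℂ) / (1 - s)).re ≤ 1 / 4 + |D.C| := by
    have h1 : |(D.G s - (D.S : ℂ) / (1 - s)).re| ≤ D.C :=
      (Complex.abs_re_le_norm _).trans hp
    rw [Complex.sub_re, hre] at h1
    have h2 := (abs_le.1 h1).1
    linarith
  have hns : ‖1 - s‖ ^ 2 = (1 - s.re) ^ 2 + s.im ^ 2 := by
    rw [← Complex.normSq_eq_norm_sq, Complex.normSq_apply]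
    simp
    ring
  have hss : ‖s‖ ^ 2 = s.re ^ 2 + s.im ^ 2 := by
    rw [← Complex.normSq_eq_norm_sq, Complex.normSq_apply]
    ring
  have hre2 : ((D.S : ℂ) / (1 - s)).re = D.S * (1 - s.re) / ‖1 - s‖ ^ 2 := by
    rw [← Complex.normSq_eq_norm_sq, Complex.div_re]
    simp
  have hd2 : 0 < ‖1 - s‖ ^ 2 := pow_pos hdn 2
  have h3 : 1 - s.re ≤ (1 / 4 + |D.C|) / D.S * ‖1 - s‖ ^ 2 := by
    rw [hre2, div_le_iff₀ hd2] at hre1
    rw [div_mul_eq_mul_div, le_div_iff₀ hS]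
    linarith
  have h4 : 1 - ‖s‖ ^ 2 ≤ 2 * ((1 / 4 + |D.C|) / D.S) * ‖1 - s‖ ^ 2 := by
    have h5 : 1 - ‖s‖ ^ 2 = 2 * (1 - s.re) - ‖1 - s‖ ^ 2 := by
      rw [hns, hss]
      ring
    rw [h5]
    nlinarith
  have hlog : Real.log (1 / ‖s‖) ≤ 4 * (1 / 4 + |D.C|) / D.S * ‖1 - s‖ ^ 2 := by
    have hs0 : 0 < ‖s‖ := by linarith
    have hA : 0 ≤ (1 / 4 + |D.C|) / D.S * ‖1 - s‖ ^ 2 := by positivity
    have h6 : Real.log (1 / ‖s‖) = 1 / 2 * Real.log (1 / ‖s‖ ^ 2) := by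
      rw [one_div ‖s‖, one_div (‖s‖ ^ 2), Real.log_inv, Real.log_inv, Real.log_pow]
      push_cast
      ring
    have h7 : Real.log (1 / ‖s‖ ^ 2) ≤ 1 / ‖s‖ ^ 2 - 1 :=
      Real.log_le_sub_one_of_pos (by positivity)
    have hs4 : 1 / 4 ≤ ‖s‖ ^ 2 := by nlinarith
    have h8 : 1 / ‖s‖ ^ 2 - 1 ≤ 8 * ((1 / 4 + |D.C|) / D.S * ‖1 - s‖ ^ 2) := by
      rw [sub_le_iff_le_add, div_le_iff₀ (by positivity)]
      nlinarith
    have e1 : 4 * (1 / 4 + |D.C|) / D.S * ‖1 - s‖ ^ 2 =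
        4 * ((1 / 4 + |D.C|) / D.S * ‖1 - s‖ ^ 2) := by ring
    rw [h6, e1]
    linarith
  have hGn : ‖D.G s‖ * ‖1 - s‖ ≤ D.S + |D.C| := by
    have h9 : ‖D.G s‖ ≤ D.S / ‖1 - s‖ + |D.C| := by
      have h10 : ‖D.G s‖ ≤ ‖D.G s - (D.S : ℂ) / (1 - s)‖ + ‖(D.S : ℂ) / (1 - s)‖ := by
        have h11 := norm_add_le (D.G s - (D.S : ℂ) / (1 - s)) ((D.S : ℂ) / (1 - s))
        rwa [sub_add_cancel] at h11
      rw [norm_div, Complex.norm_real, Real.norm_eq_abs, abs_of_pos hS] at h10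
      linarith
    calc ‖D.G s‖ * ‖1 - s‖ ≤ (D.S / ‖1 - s‖ + |D.C|) * ‖1 - s‖ :=
          mul_le_mul_of_nonneg_right h9 hdn.le
      _ = D.S + |D.C| * ‖1 - s‖ := by
          rw [add_mul, div_mul_cancel₀ _ hdn.ne']
      _ ≤ D.S + |D.C| := by nlinarith
  have hk0 : 0 ≤ 4 * (1 / 4 + |D.C|) / D.S := by positivity
  have hG2 : ‖D.G s‖ ^ 2 * ‖1 - s‖ ^ 2 ≤ (D.S + |D.C|) ^ 2 := by
    rw [← mul_pow]
    exact pow_le_pow_left₀ (by positivity) hGn 2
  calc (2 * ‖D.G s‖ ^ 2 + 1) * Real.log (1 / ‖s‖)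
      ≤ (2 * ‖D.G s‖ ^ 2 + 1) * (4 * (1 / 4 + |D.C|) / D.S * ‖1 - s‖ ^ 2) :=
        mul_le_mul_of_nonneg_left hlog (by positivity)
    _ = (2 * (‖D.G s‖ ^ 2 * ‖1 - s‖ ^ 2) + ‖1 - s‖ ^ 2) * (4 * (1 / 4 + |D.C|) / D.S) := by ring
    _ ≤ (2 * (D.S + |D.C|) ^ 2 + 1) * (4 * (1 / 4 + |D.C|) / D.S) := by
        apply mul_le_mul_of_nonneg_right _ hk0
        nlinarith

/-- the bound on the boundary -/
private theorem Exit.bound (D : Data) : ∃ B : ℝ, ∀ s ∈ frontier D.V0, s ≠ 1 →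
    s ≠ 0 ∧ (2 * ‖D.G s‖ ^ 2 + 1) * Real.log (1 / ‖s‖) ≤ B := by
  have hGW : ContinuousOn D.G D.W := D.hG.continuousOn.mono D.hWU
  have hreW : ContinuousOn (fun z => (D.G z).re) D.W :=
    Complex.continuous_re.comp_continuousOn hGW
  have hVo : IsOpen D.V0 := by
    have h := hreW.isOpen_inter_preimage D.hWo (isOpen_Ioi (a := (1 / 4 : ℝ)))
    have e : D.V0 = D.W ∩ (fun z => (D.G z).re) ⁻¹' Ioi (1 / 4 : ℝ) := rfl
    rw [e]
    exact h
  have h0V : (0 : ℂ) ∈ D.V0 := by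
    refine ⟨D.h0W, ?_⟩
    rw [D.hG0, Complex.one_re]
    norm_num
  obtain ⟨e0, he0, hball⟩ := Metric.isOpen_iff.1 hVo 0 h0V
  have hlow : ∀ s ∈ frontier D.V0, e0 ≤ ‖s‖ := by
    intro s hs
    by_contra hc
    rw [not_le] at hc
    have h1 : s ∈ D.V0 := hball (by rw [mem_ball, dist_zero_right]; exact hc)
    have h2 := hs.2
    rw [hVo.interior_eq] at h2
    exact h2 h1
  -- the compact set away from 1
  have hK : IsCompact (closure D.V0 ∩ {s | D.r ≤ ‖1 - s‖}) := by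
    have hb : Bornology.IsBounded (closure D.V0) := by
      apply Bornology.IsBounded.closure
      exact (Metric.isBounded_ball (x := (0 : ℂ)) (r := 1)).subset
        (fun s hs => D.hWb hs.1)
    have hc : IsCompact (closure D.V0) := Metric.isCompact_of_isClosed_isBounded isClosed_closure hb
    apply hc.inter_right
    exact isClosed_le continuous_const (continuous_const.sub continuous_id).norm
  have hKW : closure D.V0 ∩ {s | D.r ≤ ‖1 - s‖} ⊆ D.W := by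
    rintro s ⟨h1, h2⟩
    rcases D.hV h1 with h | h
    · exact h
    · exfalso
      rw [mem_singleton_iff] at h
      rw [h] at h2
      change D.r ≤ ‖(1 : ℂ) - 1‖ at h2
      rw [sub_self, norm_zero] at h2
      linarith [D.hr]
  obtain ⟨M, hM⟩ := hK.exists_bound_of_continuousOn (hGW.mono hKW)
  refine ⟨max ((2 * (D.S + |D.C|) ^ 2 + 1) * (4 * (1 / 4 + |D.C|) / D.S))
    ((2 * M ^ 2 + 1) * |Real.log (1 / e0)|), ?_⟩
  intro s hs hs1
  have hsn := hlow s hs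
  have hs0 : 0 < ‖s‖ := lt_of_lt_of_le he0 hsn
  refine ⟨norm_pos_iff.1 hs0, ?_⟩
  obtain ⟨hW, hre⟩ := Exit.front D hs hs1
  by_cases hr : ‖1 - s‖ < D.r
  · exact (Exit.near D hW hre hs1 hr).trans (le_max_left _ _)
  · rw [not_lt] at hr
    have hGM := hM s ⟨frontier_subset_closure hs, hr⟩
    refine le_trans ?_ (le_max_right _ _)
    have h1 : Real.log (1 / ‖s‖) ≤ |Real.log (1 / e0)| := by
      refine le_trans ?_ (le_abs_self _)
      apply Real.log_le_log (by positivity)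
      exact one_div_le_one_div_of_le he0 hsn
    have h2 : ‖D.G s‖ ^ 2 ≤ M ^ 2 := pow_le_pow_left₀ (norm_nonneg _) hGM 2
    calc (2 * ‖D.G s‖ ^ 2 + 1) * Real.log (1 / ‖s‖)
        ≤ (2 * ‖D.G s‖ ^ 2 + 1) * |Real.log (1 / e0)| :=
          mul_le_mul_of_nonneg_left h1 (by positivity)
      _ ≤ (2 * M ^ 2 + 1) * |Real.log (1 / e0)| :=
          mul_le_mul_of_nonneg_right (by linarith) (abs_nonneg _)

theorem Data.exit (D : Data) : ∃ n₀ : ℕ, ∀ n : ℕ, n₀ ≤ n → ∀ s ∈ frontier D.V0, s ≠ 1 →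
    s ∈ D.W ∧ (D.G s).re = 1 / 4 ∧ 1 < ‖s * (1 - 1 / D.G s) ^ n‖ := by
  obtain ⟨B, hB⟩ := Exit.bound D
  obtain ⟨n₀, hn₀⟩ := exists_nat_gt (2 * B)
  refine ⟨n₀, ?_⟩
  intro n hn s hs hs1
  obtain ⟨hW, hre⟩ := Exit.front D hs hs1
  obtain ⟨hs0, hb⟩ := hB s hs hs1
  refine ⟨hW, hre, ?_⟩
  have hsn : 0 < ‖s‖ := norm_pos_iff.2 hs0
  have hg0 : D.G s ≠ 0 := by
    intro h
    rw [h, Complex.zero_re] at hre
    norm_num at hre
  have hgn : 0 < ‖D.G s‖ := norm_pos_iff.2 hg0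
  have hg2 : 0 < ‖D.G s‖ ^ 2 := pow_pos hgn 2
  have hsq : ‖1 - 1 / D.G s‖ ^ 2 = 1 + 1 / (2 * ‖D.G s‖ ^ 2) := by
    have e1 : 1 - 1 / D.G s = (D.G s - 1) / D.G s := by
      rw [sub_div, div_self hg0]
    have e2 : ‖D.G s - 1‖ ^ 2 = ‖D.G s‖ ^ 2 + 1 / 2 := by
      rw [← Complex.normSq_eq_norm_sq, ← Complex.normSq_eq_norm_sq, Complex.normSq_apply,
        Complex.normSq_apply, Complex.sub_re, Complex.sub_im, Complex.one_re, Complex.one_im, hre]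
      ring
    rw [e1, norm_div, div_pow, e2, add_div, div_self hg2.ne', div_div]
  have hx : 0 < 1 / (2 * ‖D.G s‖ ^ 2) := by positivity
  have hw : 0 < ‖1 - 1 / D.G s‖ := by
    by_contra hc
    have h0 : ‖1 - 1 / D.G s‖ = 0 := le_antisymm (not_lt.1 hc) (norm_nonneg _)
    rw [h0] at hsq
    have : (0 : ℝ) ^ 2 = 0 := by norm_num
    rw [this] at hsq
    linarith
  have hlog1 : 1 / (2 * ‖D.G s‖ ^ 2 + 1) ≤ 2 * Real.log ‖1 - 1 / D.G s‖ := by
    have h1 : 2 * Real.log ‖1 - 1 / D.G s‖ = Real.log (1 + 1 / (2 * ‖D.G s‖ ^ 2)) := by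
      rw [← hsq, Real.log_pow]
      push_cast
      ring
    have h2 := Real.one_sub_inv_le_log_of_pos (x := 1 + 1 / (2 * ‖D.G s‖ ^ 2)) (by positivity)
    have h3 : 1 - (1 + 1 / (2 * ‖D.G s‖ ^ 2))⁻¹ = 1 / (2 * ‖D.G s‖ ^ 2 + 1) := by
      field_simp
      ring
    rw [h1, ← h3]
    exact h2
  have hpos : 0 < Real.log ‖s * (1 - 1 / D.G s) ^ n‖ := by
    rw [norm_mul, norm_pow, Real.log_mul hsn.ne' (pow_pos hw n).ne', Real.log_pow]
    have hq : 0 < 2 * ‖D.G s‖ ^ 2 + 1 := by positivity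
    have hls : Real.log (1 / ‖s‖) = - Real.log ‖s‖ := by
      rw [one_div, Real.log_inv]
    rw [hls] at hb
    have hnB : 2 * B < n := lt_of_lt_of_le hn₀ (by exact_mod_cast hn)
    have h5 : (n : ℝ) * (1 / (2 * ‖D.G s‖ ^ 2 + 1)) ≤ n * (2 * Real.log ‖1 - 1 / D.G s‖) :=
      mul_le_mul_of_nonneg_left hlog1 (Nat.cast_nonneg n)
    have h6 : 2 * B / (2 * ‖D.G s‖ ^ 2 + 1) < (n : ℝ) * (1 / (2 * ‖D.G s‖ ^ 2 + 1)) := by
      rw [mul_one_div]
      exact div_lt_div_of_pos_right hnB hq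
    have h7 : - Real.log ‖s‖ ≤ B / (2 * ‖D.G s‖ ^ 2 + 1) := by
      rw [le_div_iff₀ hq]
      linarith
    have h8 : 2 * B / (2 * ‖D.G s‖ ^ 2 + 1) = 2 * (B / (2 * ‖D.G s‖ ^ 2 + 1)) := by ring
    rw [h8] at h6
    linarith
  have hn0 : ‖s * (1 - 1 / D.G s) ^ n‖ = Real.exp (Real.log ‖s * (1 - 1 / D.G s) ^ n‖) := by
    rw [Real.exp_log]
    rw [norm_mul, norm_pow]
    exact mul_pos hsn (pow_pos hw n)
  rw [hn0]
  exact Real.one_lt_exp_iff.2 hpos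

end Pool.Agent.TRB
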