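import Pool.Agent.TRB.Defs

/-!
# Topology of the cut domain

PROOF. Write V = cut V0 E η a B. V open: let s in V. If norm (1-s) > B all nearby points are in V. Otherwise a < norm(1-s) <= B, η s not in
closure E, and η is continuous at s within the set A of hη, so for s' in V0 near s either norm(1-s') > B, or s' in A and η s' not in closure E.
Closure: s in V implies s in V0 and a' < norm (1-s) (otherwise h1 gives η s in E and norm (1-s) <= a' < B, so s is not in V); pass to closures.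
Frontier: b in closure V, b not in V; b in closure V0, a' <= norm (1-b). If b not in V0: b in frontier V0 (V0 open). If b in V0: as
b not in V, norm(1-b) <= B and η b in closure E, and norm (1-b) < B by h2. If η b were in E: E is open, η is continuous at b within A, and b is an
interior point of A (b in V0 open, a < a' <= norm(1-b) < B), so all points near b are not in V, contradiction with b in closure V.
So η b in closure E minus E = frontier E.
-/

set_option autoImplicit false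

namespace Pool.Agent.TRB

open Metric Set Filter Topology

/-- the domain after cutting off the pole -/
def cut (V₀ E : Set ℂ) (η : ℂ → ℂ) (a B : ℝ) : Set ℂ :=
  {s | s ∈ V₀ ∧ a < ‖1 - s‖ ∧ ¬ (‖1 - s‖ ≤ B ∧ η s ∈ closure E)}

theorem cut_frontier (V₀ E : Set ℂ) (η : ℂ → ℂ) (a a' B : ℝ) (haa : a < a') (haB : a' < B)
    (hV₀ : IsOpen V₀) (hb : Bornology.IsBounded V₀) (hE : IsOpen E)
    (hη : ContinuousOn η {s | s ∈ closure V₀ ∧ a ≤ ‖1 - s‖ ∧ ‖1 - s‖ ≤ B})
    (h1 : ∀ s ∈ V₀, a < ‖1 - s‖ → ‖1 - s‖ ≤ a' → η s ∈ E)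
    (h2 : ∀ s ∈ closure V₀, ‖1 - s‖ = B → η s ∉ closure E) :
    IsOpen (cut V₀ E η a B) ∧
    closure (cut V₀ E η a B) ⊆ {s | s ∈ closure V₀ ∧ a' ≤ ‖1 - s‖} ∧
    ∀ b ∈ frontier (cut V₀ E η a B), b ∈ frontier V₀ ∨ (‖1 - b‖ < B ∧ η b ∈ frontier E) := by
  have hcont : Continuous fun s : ℂ => ‖1 - s‖ := by fun_prop
  have hgt : ∀ {c : ℝ} {s : ℂ}, c < ‖1 - s‖ → ∀ᶠ s' in 𝓝 s, c < ‖1 - s'‖ := by
    intro c s hs
    exact (isOpen_lt continuous_const hcont).mem_nhds hs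
  have hlt : ∀ {c : ℝ} {s : ℂ}, ‖1 - s‖ < c → ∀ᶠ s' in 𝓝 s, ‖1 - s'‖ < c := by
    intro c s hs
    exact (isOpen_lt hcont continuous_const).mem_nhds hs
  have hopen : IsOpen (cut V₀ E η a B) := by
    rw [isOpen_iff_mem_nhds]
    rintro s ⟨hs1, hs2, hs3⟩
    by_cases hB : ‖1 - s‖ ≤ B
    · have hnot : η s ∉ closure E := fun h => hs3 ⟨hB, h⟩
      have hc := hη s ⟨subset_closure hs1, hs2.le, hB⟩
      have hev : ∀ᶠ s' in 𝓝 s, s' ∈ {s | s ∈ closure V₀ ∧ a ≤ ‖1 - s‖ ∧ ‖1 - s‖ ≤ B} →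
          η s' ∈ (closure E)ᶜ :=
        eventually_nhdsWithin_iff.1 (hc (isClosed_closure.isOpen_compl.mem_nhds hnot))
      filter_upwards [hV₀.mem_nhds hs1, hgt hs2, hev] with s' h1' h2' h3'
      refine ⟨h1', h2', ?_⟩
      rintro ⟨h4, h5⟩
      exact h3' ⟨subset_closure h1', h2'.le, h4⟩ h5
    · rw [not_le] at hB
      filter_upwards [hV₀.mem_nhds hs1, hgt hs2, hgt hB] with s' h1' h2' h3'
      refine ⟨h1', h2', ?_⟩
      rintro ⟨h4, _⟩
      exact absurd h4 (not_le.2 h3')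
  have hcl : closure (cut V₀ E η a B) ⊆ {s | s ∈ closure V₀ ∧ a' ≤ ‖1 - s‖} := by
    refine closure_minimal ?_ (isClosed_closure.inter (isClosed_le continuous_const hcont))
    rintro s ⟨hs1, hs2, hs3⟩
    refine ⟨subset_closure hs1, ?_⟩
    by_contra hc
    rw [not_le] at hc
    exact hs3 ⟨hc.le.trans haB.le, subset_closure (h1 s hs1 hs2 hc.le)⟩
  refine ⟨hopen, hcl, ?_⟩
  intro b hb'
  rw [hopen.frontier_eq] at hb'
  obtain ⟨hb1, hb2⟩ := hb'
  obtain ⟨hb3, hb4⟩ := hcl hb1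
  by_cases hbV : b ∈ V₀
  · right
    have hab : a < ‖1 - b‖ := haa.trans_le hb4
    have hb5 : ‖1 - b‖ ≤ B ∧ η b ∈ closure E := by
      by_contra hc
      exact hb2 ⟨hbV, hab, hc⟩
    have hltB : ‖1 - b‖ < B := lt_of_le_of_ne hb5.1 fun h => h2 b hb3 h hb5.2
    refine ⟨hltB, ?_⟩
    rw [hE.frontier_eq]
    refine ⟨hb5.2, fun hbE => ?_⟩
    have hc := hη b ⟨hb3, hab.le, hb5.1⟩
    have hev : ∀ᶠ s' in 𝓝 b, s' ∈ {s | s ∈ closure V₀ ∧ a ≤ ‖1 - s‖ ∧ ‖1 - s‖ ≤ B} →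
        η s' ∈ E := eventually_nhdsWithin_iff.1 (hc (hE.mem_nhds hbE))
    have hfr : ∃ᶠ s' in 𝓝 b, s' ∈ cut V₀ E η a B := mem_closure_iff_frequently.1 hb1
    refine hfr ?_
    filter_upwards [hev, hlt hltB] with s' h3 h4
    rintro ⟨h5, h6, h7⟩
    exact h7 ⟨h4.le, subset_closure (h3 ⟨subset_closure h5, h6.le, h4.le⟩)⟩
  · left
    rw [hV₀.frontier_eq]
    exact ⟨hb3, hbV⟩

end Pool.Agent.TRB
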