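import Pool.Agent.TRB.Defs

/-!
# (1 - w/(n + g w))^n = exp(-w) + O(1/n), uniformly for norm w <= 2, norm g <= C

PROOF. WLOG C >= 0 (replace C by max C 0). For n >= 8 C + 8: norm (g w) <= 2C <= n/4, so n + g w /= 0 and
x := w/(n + g w) has norm <= 2/(n - 2C) <= 4/n <= 1/2, and n x - w = -g w^2/(n + g w), of norm <= 4C * 2/n = 8C/n.
Third claim: n * x - w as computed. Second claim: (1-x)^n = exp(n log(1-x)) (1 - x /= 0, Complex.exp_log,
Complex.exp_nat_mul), norm (log(1-x) + x) <= norm x ^ 2 (for norm x <= 1/2; Complex.norm_log_one_add_sub_self_le or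
similar), so y := n log(1-x) + w satisfies norm y <= n * 16/n^2 + 8C/n = (16 + 8C)/n <= 1 for n large, and
norm (exp(-w + y) - exp(-w)) <= norm (exp(-w)) * norm (exp y - 1) <= exp 2 * 2 * norm y.
-/

set_option autoImplicit false

namespace Pool.Agent.TRB

open Complex

theorem pow_exp (C : ℝ) : ∃ K : ℝ, ∃ n₀ : ℕ, 0 < K ∧ ∀ n : ℕ, n₀ ≤ n → ∀ ω g : ℂ,
    ‖ω‖ ≤ 2 → ‖g‖ ≤ C → (n : ℂ) + g * ω ≠ 0 ∧
    ‖(1 - ω / (n + g * ω)) ^ n - exp (-ω)‖ ≤ K / n ∧
    ‖n * (ω / (n + g * ω)) - ω‖ ≤ K / n := by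
  obtain ⟨C', hC'⟩ : ∃ C', C' = max C 0 := ⟨_, rfl⟩
  have hC0 : 0 ≤ C' := hC' ▸ le_max_right _ _
  have hCC : C ≤ C' := hC' ▸ le_max_left _ _
  have he : 0 < Real.exp 2 := Real.exp_pos 2
  refine ⟨Real.exp 2 * (2 * (16 + 8 * C')) + 8 * C', ⌈16 + 16 * C'⌉₊, by positivity, ?_⟩
  intro n hn ω g hω hg
  have hN : 16 + 16 * C' ≤ (n : ℝ) := (Nat.le_ceil _).trans (by exact_mod_cast hn)
  have hN0 : (0 : ℝ) < n := by linarith
  have hg' : ‖g‖ ≤ C' := hg.trans hCC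
  have hgw : ‖g * ω‖ ≤ C' * 2 := by
    rw [norm_mul]
    exact mul_le_mul hg' hω (norm_nonneg _) hC0
  have hD : (n : ℝ) / 2 ≤ ‖(n : ℂ) + g * ω‖ := by
    have h1 : ‖(n : ℂ)‖ ≤ ‖(n : ℂ) + g * ω‖ + ‖g * ω‖ := by
      have h2 := norm_sub_le ((n : ℂ) + g * ω) (g * ω)
      rwa [add_sub_cancel_right] at h2
    rw [Complex.norm_natCast] at h1
    linarith
  have hDpos : 0 < ‖(n : ℂ) + g * ω‖ := lt_of_lt_of_le (by linarith) hD
  have hD0 : (n : ℂ) + g * ω ≠ 0 := norm_pos_iff.1 hDpos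
  obtain ⟨x, hx⟩ : ∃ x, x = ω / ((n : ℂ) + g * ω) := ⟨_, rfl⟩
  have hxn : ‖x‖ ≤ 4 / n := by
    rw [hx, norm_div, div_le_div_iff₀ hDpos hN0]
    calc ‖ω‖ * n ≤ 2 * n := mul_le_mul_of_nonneg_right hω hN0.le
      _ = 4 * (n / 2) := by ring
      _ ≤ 4 * ‖(n : ℂ) + g * ω‖ := by linarith
  have hx4 : ‖x‖ ≤ 1 / 4 := by
    refine hxn.trans ?_
    rw [div_le_div_iff₀ hN0 (by norm_num)]
    linarith
  have h3 : ‖(n : ℂ) * x - ω‖ ≤ 8 * C' / n := by
    have e1 : (n : ℂ) * x - ω = -(g * ω * ω) / ((n : ℂ) + g * ω) := by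
      have e0 : ω / ((n : ℂ) + g * ω) * ((n : ℂ) + g * ω) = ω := div_mul_cancel₀ _ hD0
      rw [hx, eq_div_iff hD0]
      linear_combination (n : ℂ) * e0
    rw [e1, norm_div, norm_neg, norm_mul, div_le_div_iff₀ hDpos hN0]
    calc ‖g * ω‖ * ‖ω‖ * n ≤ (C' * 2) * 2 * n :=
          mul_le_mul_of_nonneg_right (mul_le_mul hgw hω (norm_nonneg _) (by positivity)) hN0.le
      _ = 8 * C' * (n / 2) := by ring
      _ ≤ 8 * C' * ‖(n : ℂ) + g * ω‖ := mul_le_mul_of_nonneg_left hD (by positivity)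
  refine ⟨hD0, ?_, ?_⟩
  · rw [← hx]
    have h1x : (1 : ℂ) - x ≠ 0 := by
      intro h
      have : x = 1 := (sub_eq_zero.1 h).symm
      rw [this, norm_one] at hx4
      norm_num at hx4
    have hlog : ‖log (1 - x) + x‖ ≤ ‖x‖ ^ 2 := by
      have h := Complex.norm_log_one_add_sub_self_le (z := -x) (by rw [norm_neg]; linarith)
      rw [norm_neg, sub_neg_eq_add, ← sub_eq_add_neg] at h
      refine h.trans ?_
      have h2 : (1 - ‖x‖)⁻¹ ≤ 2 := by
        rw [inv_le_comm₀ (by linarith) (by norm_num)]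
        linarith
      calc ‖x‖ ^ 2 * (1 - ‖x‖)⁻¹ / 2 ≤ ‖x‖ ^ 2 * 2 / 2 := by
            have := mul_le_mul_of_nonneg_left h2 (sq_nonneg ‖x‖)
            linarith
        _ = ‖x‖ ^ 2 := by ring
    obtain ⟨y, hy⟩ : ∃ y, y = (n : ℂ) * log (1 - x) + ω := ⟨_, rfl⟩
    have hyn : ‖y‖ ≤ (16 + 8 * C') / n := by
      have e1 : y = (n : ℂ) * (log (1 - x) + x) - ((n : ℂ) * x - ω) := by
        rw [hy]
        ring
      rw [e1]
      refine (norm_sub_le _ _).trans ?_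
      rw [norm_mul, Complex.norm_natCast, add_div]
      refine add_le_add ?_ h3
      calc (n : ℝ) * ‖log (1 - x) + x‖ ≤ n * (4 / n) ^ 2 :=
            mul_le_mul_of_nonneg_left
              (hlog.trans (pow_le_pow_left₀ (norm_nonneg _) hxn 2)) hN0.le
        _ = 16 / n := by
            field_simp
            norm_num
    have hy1 : ‖y‖ ≤ 1 := by
      refine hyn.trans ?_
      rw [div_le_one hN0]
      linarith
    have e2 : (1 - x) ^ n = exp (-ω) * exp y := by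
      rw [← Complex.exp_add, hy]
      have : -ω + ((n : ℂ) * log (1 - x) + ω) = (n : ℂ) * log (1 - x) := by ring
      rw [this, Complex.exp_nat_mul, Complex.exp_log h1x]
    have e3 : (1 - x) ^ n - exp (-ω) = exp (-ω) * (exp y - 1) := by
      rw [e2]
      ring
    rw [e3, norm_mul]
    have h4 : ‖exp (-ω)‖ ≤ Real.exp 2 := by
      rw [Complex.norm_exp]
      refine Real.exp_le_exp.2 ?_
      exact (Complex.re_le_norm _).trans (by rw [norm_neg]; exact hω)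
    have h5 : ‖exp y - 1‖ ≤ 2 * ‖y‖ := Complex.norm_exp_sub_one_le hy1
    have h6 : ‖exp y - 1‖ ≤ 2 * ((16 + 8 * C') / n) := h5.trans (by linarith)
    calc ‖exp (-ω)‖ * ‖exp y - 1‖ ≤ Real.exp 2 * (2 * ((16 + 8 * C') / n)) :=
          mul_le_mul h4 h6 (norm_nonneg _) he.le
      _ = Real.exp 2 * (2 * (16 + 8 * C')) / n := by ring
      _ ≤ (Real.exp 2 * (2 * (16 + 8 * C')) + 8 * C') / n := by
          apply div_le_div_of_nonneg_right _ hN0.le
          linarith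
  · rw [← hx]
    refine h3.trans ?_
    apply div_le_div_of_nonneg_right _ hN0.le
    have : 0 ≤ Real.exp 2 * (2 * (16 + 8 * C')) := by positivity
    linarith

end Pool.Agent.TRB
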