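import Pool.Agent.TRB.Defs
import Pool.Agent.TRB.PowExp

/-!
# The gap

NUMBERS. sg = (3-4i)/5 has norm 1. Let t = Real.arcsin (4/5) (0.9272952), exp(-i t) = sg.
PROOF of gap. norm (exp(-w) - sg) <= 1/300 + 1/2000 < 0.0039. Claim norm (w - i t) <= 0.004: with d = i t - w one has
exp(d) = exp(-w)/sg = 1 + x, norm x < 0.0039, Im d in [t-2, t+2] inside (-pi, pi), so d = log(1+x) (Complex.log_exp), of
norm <= norm x/(1 - norm x). Now y := -u (q0 + R q1).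
Case norm R <= 1/50: norm (y + w) <= norm (u - w) norm q0 + norm w norm (q0-1) + norm (u R q1) <= 0.0198 (norm w <= 0.9313).
For n large (n0 absolute) norm ((1 + y/n)^n - exp y) <= 1/1000 for all norm y <= 1. So with T = η (1+y/n)^n:
norm (T - sg^2) <= norm η /1000 + norm η * norm (exp(-w)) * (exp 0.0198 - 1) + norm η * norm (exp(-w) - sg) + norm (η - sg) < 0.03.
Case norm (R - i |R|) <= |R|/100 and |R| > 1/50: -u R q1 = |R| t + error, norm error <= |R| (norm (u - i t) * 1.011 * 1.001 +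
t * 0.01 * 1.001 + t * 0.0005) <= 0.0155 |R|, so Re (-u R q1) >= 0.91 |R| >= 0.0182; Re (-u q0) >= -0.004 - 0.0005*1.001 - 0.94*0.0005
>= -0.0051. So Re y >= 0.013, norm (1+y/n)^n >= (1 + Re y/n)^n >= 1 + Re y (one_add_mul_le_pow), norm η >= 1 - 1/300, product >= 1.
-/

set_option autoImplicit false

namespace Pool.Agent.TRB

open Complex Metric Set

private theorem gap_t : ∃ t : ℝ, 4 / 5 ≤ t ∧ t < 1 ∧ exp (-((t : ℂ) * I)) = sg := by
  have hs : Real.sin (Real.arcsin (4 / 5)) = 4 / 5 :=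
    Real.sin_arcsin (by norm_num) (by norm_num)
  have hc : Real.cos (Real.arcsin (4 / 5)) = 3 / 5 := by
    rw [Real.cos_arcsin, show (1 : ℝ) - (4 / 5) ^ 2 = (3 / 5) ^ 2 by norm_num]
    exact Real.sqrt_sq (by norm_num)
  have h0 : 0 ≤ Real.arcsin (4 / 5) := Real.arcsin_nonneg.2 (by norm_num)
  have hpi : Real.arcsin (4 / 5) ≤ Real.pi / 2 := Real.arcsin_le_pi_div_two _
  have hpos := Real.pi_pos
  refine ⟨Real.arcsin (4 / 5), ?_, ?_, ?_⟩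
  · have := Real.sin_le h0
    linarith
  · by_contra h
    rw [not_lt] at h
    have h2 := Real.cos_le_cos_of_nonneg_of_le_pi (by norm_num : (0 : ℝ) ≤ 1)
      (by linarith : Real.arcsin (4 / 5) ≤ Real.pi) h
    have h3 := Real.cos_one_le
    linarith
  · rw [show -((Real.arcsin (4 / 5) : ℝ) * I : ℂ) = (-(Real.arcsin (4 / 5) : ℝ) : ℂ) * I by ring,
      Complex.exp_mul_I, Complex.cos_neg, Complex.sin_neg, ← Complex.ofReal_cos,
      ← Complex.ofReal_sin, hs, hc]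
    unfold sg
    push_cast
    ring

private theorem gap_sg : ‖sg‖ = 1 := by
  obtain ⟨t, _, _, h⟩ := gap_t
  rw [← h, Complex.norm_exp]
  simp

private theorem gap_w (t : ℝ) (ht0 : 4 / 5 ≤ t) (ht1 : t < 1)
    (ht : exp (-((t : ℂ) * I)) = sg) (ω : ℂ) (hω : ‖ω‖ ≤ 2)
    (h : ‖exp (-ω) - sg‖ ≤ 39 / 10000) : ‖ω - t * I‖ ≤ 6 / 1000 := by
  have hpi := Real.pi_gt_three
  have him : |ω.im| ≤ 2 := (Complex.abs_im_le_norm ω).trans hω
  rw [abs_le] at him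
  have hd : ((t : ℂ) * I - ω).im = t - ω.im := by simp
  have hlog : log (exp ((t : ℂ) * I - ω)) = (t : ℂ) * I - ω := by
    apply Complex.log_exp
    · rw [hd]
      linarith
    · rw [hd]
      linarith
  have hx : exp ((t : ℂ) * I - ω) - 1 = exp ((t : ℂ) * I) * (exp (-ω) - sg) := by
    rw [← ht, mul_sub, ← Complex.exp_add, ← Complex.exp_add]
    simp [sub_eq_add_neg]
  have hn : ‖exp ((t : ℂ) * I)‖ = 1 := Complex.norm_exp_ofReal_mul_I t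
  have hxn : ‖exp ((t : ℂ) * I - ω) - 1‖ ≤ 39 / 10000 := by
    rw [hx, norm_mul, hn, one_mul]
    exact h
  have h2 := Complex.norm_log_one_add_half_le_self (z := exp ((t : ℂ) * I - ω) - 1)
    (hxn.trans (by norm_num))
  rw [show (1 : ℂ) + (exp ((t : ℂ) * I - ω) - 1) = exp ((t : ℂ) * I - ω) by ring, hlog] at h2
  rw [norm_sub_rev]
  refine h2.trans ?_
  linarith

private theorem gap_norm_le {a b : ℂ} {c d : ℝ} (h : ‖a - b‖ ≤ c) (hb : ‖b‖ ≤ d) :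
    ‖a‖ ≤ c + d := by
  calc ‖a‖ = ‖(a - b) + b‖ := by rw [sub_add_cancel]
    _ ≤ ‖a - b‖ + ‖b‖ := norm_add_le _ _
    _ ≤ c + d := add_le_add h hb

private theorem gap_one (t : ℝ) (ht0 : 4 / 5 ≤ t) (ht1 : t < 1)
    (ω η u q₀ q₁ R P : ℂ) (hωt : ‖ω - t * I‖ ≤ 6 / 1000)
    (h1 : ‖η - sg‖ ≤ 1 / 300) (he : ‖exp (-ω) - sg‖ ≤ 39 / 10000)
    (h3 : ‖u - ω‖ ≤ 1 / 2000) (h4 : ‖q₀ - 1‖ ≤ 1 / 2000) (h5 : ‖q₁ - 1‖ ≤ 1 / 2000)
    (hR : ‖R‖ ≤ 1 / 50) : ‖u * (q₀ + R * q₁)‖ ≤ 2 ∧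
      (‖P - exp (-(u * (q₀ + R * q₁)))‖ ≤ 1 / 1000 → ‖η * P - sg ^ 2‖ < 1 / 20) := by
  have htI : ‖(t : ℂ) * I‖ ≤ 1 := by
    rw [norm_mul, Complex.norm_I, mul_one, Complex.norm_real, Real.norm_eq_abs,
      abs_of_nonneg (by linarith)]
    exact ht1.le
  have hω : ‖ω‖ ≤ 6 / 1000 + 1 := gap_norm_le hωt htI
  have hu : ‖u‖ ≤ 1 / 2000 + (6 / 1000 + 1) := gap_norm_le h3 hω
  have hq0 : ‖q₀‖ ≤ 1 / 2000 + 1 := gap_norm_le h4 (by simp)
  have hq1 : ‖q₁‖ ≤ 1 / 2000 + 1 := gap_norm_le h5 (by simp)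
  have hη : ‖η‖ ≤ 1 / 300 + 1 := gap_norm_le h1 gap_sg.le
  have hew : ‖exp (-ω)‖ ≤ 39 / 10000 + 1 := gap_norm_le he gap_sg.le
  have hv : ‖u * (q₀ + R * q₁) - ω‖ ≤ 22 / 1000 := by
    have e : u * (q₀ + R * q₁) - ω = (u - ω) * q₀ + ω * (q₀ - 1) + u * R * q₁ := by ring
    rw [e]
    refine (norm_add_le _ _).trans ?_
    have a1 : ‖(u - ω) * q₀ + ω * (q₀ - 1)‖ ≤ 1 / 2000 * (1 / 2000 + 1) +
        (6 / 1000 + 1) * (1 / 2000) := by
      refine (norm_add_le _ _).trans ?_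
      rw [norm_mul, norm_mul]
      exact add_le_add (mul_le_mul h3 hq0 (norm_nonneg _) (by norm_num))
        (mul_le_mul hω h4 (norm_nonneg _) (by norm_num))
    have a2 : ‖u * R * q₁‖ ≤ (1 / 2000 + (6 / 1000 + 1)) * (1 / 50) * (1 / 2000 + 1) := by
      rw [norm_mul, norm_mul]
      exact mul_le_mul (mul_le_mul hu hR (norm_nonneg _) (by norm_num)) hq1
        (norm_nonneg _) (by norm_num)
    refine (add_le_add a1 a2).trans ?_
    norm_num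
  have hvn : ‖u * (q₀ + R * q₁)‖ ≤ 22 / 1000 + (6 / 1000 + 1) := gap_norm_le hv hω
  refine ⟨hvn.trans (by norm_num), fun hP => ?_⟩
  have hz : ‖exp (ω - u * (q₀ + R * q₁)) - 1‖ ≤ 22 / 1000 + (22 / 1000) ^ 2 := by
    have hz0 : ‖ω - u * (q₀ + R * q₁)‖ ≤ 22 / 1000 := by
      rw [norm_sub_rev]
      exact hv
    have hz1 := Complex.norm_exp_sub_one_sub_id_le (x := ω - u * (q₀ + R * q₁))
      (hz0.trans (by norm_num))
    have hz2 : ‖ω - u * (q₀ + R * q₁)‖ ^ 2 ≤ (22 / 1000 : ℝ) ^ 2 :=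
      pow_le_pow_left₀ (norm_nonneg _) hz0 2
    have := gap_norm_le (a := exp (ω - u * (q₀ + R * q₁)) - 1)
      (b := ω - u * (q₀ + R * q₁)) (hz1.trans hz2) hz0
    linarith
  have e1 : exp (-(u * (q₀ + R * q₁))) - exp (-ω) =
      exp (-ω) * (exp (ω - u * (q₀ + R * q₁)) - 1) := by
    rw [mul_sub, ← Complex.exp_add, mul_one]
    congr 2
    ring
  have hE : ‖exp (-(u * (q₀ + R * q₁))) - exp (-ω)‖ ≤
      (39 / 10000 + 1) * (22 / 1000 + (22 / 1000) ^ 2) := by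
    rw [e1, norm_mul]
    exact mul_le_mul hew hz (norm_nonneg _) (by norm_num)
  have e2 : η * P - sg ^ 2 = η * ((P - exp (-(u * (q₀ + R * q₁)))) +
      (exp (-(u * (q₀ + R * q₁))) - exp (-ω)) + (exp (-ω) - sg)) + (η - sg) * sg := by ring
  have hS : ‖(P - exp (-(u * (q₀ + R * q₁)))) +
      (exp (-(u * (q₀ + R * q₁))) - exp (-ω)) + (exp (-ω) - sg)‖ ≤
      1 / 1000 + (39 / 10000 + 1) * (22 / 1000 + (22 / 1000) ^ 2) + 39 / 10000 :=
    (norm_add₃_le).trans (add_le_add (add_le_add hP hE) he)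
  rw [e2]
  refine lt_of_le_of_lt (norm_add_le _ _) ?_
  rw [norm_mul, norm_mul, gap_sg, mul_one]
  have := mul_le_mul hη hS (norm_nonneg _) (by norm_num)
  refine lt_of_le_of_lt (add_le_add this h1) ?_
  norm_num

private theorem gap_two (t : ℝ) (ht0 : 4 / 5 ≤ t) (ht1 : t < 1)
    (ω u q₀ q₁ R : ℂ) (hωt : ‖ω - t * I‖ ≤ 6 / 1000)
    (h3 : ‖u - ω‖ ≤ 1 / 2000) (h4 : ‖q₀ - 1‖ ≤ 1 / 2000) (h5 : ‖q₁ - 1‖ ≤ 1 / 2000)
    (hR : 1 / 50 < ‖R‖) (hR2 : ‖R - I * ‖R‖‖ ≤ ‖R‖ / 100) :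
    (u * (q₀ + R * q₁)).re ≤ -(4 / 1000) := by
  have htI : ‖(t : ℂ) * I‖ ≤ 1 := by
    rw [norm_mul, Complex.norm_I, mul_one, Complex.norm_real, Real.norm_eq_abs,
      abs_of_nonneg (by linarith)]
    exact ht1.le
  have hut : ‖u - t * I‖ ≤ 65 / 10000 := by
    calc ‖u - t * I‖ = ‖(u - ω) + (ω - t * I)‖ := by rw [sub_add_sub_cancel]
      _ ≤ ‖u - ω‖ + ‖ω - t * I‖ := norm_add_le _ _
      _ ≤ 1 / 2000 + 6 / 1000 := add_le_add h3 hωt
      _ = 65 / 10000 := by norm_num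
  have hu : ‖u‖ ≤ 65 / 10000 + 1 := gap_norm_le hut htI
  have hq1 : ‖q₁‖ ≤ 1 / 2000 + 1 := gap_norm_le h5 (by simp)
  have hr0 : 0 ≤ ‖R‖ := norm_nonneg R
  -- first part
  have hA : |(u * q₀).re| ≤ 71 / 10000 := by
    have e : (u * q₀).re = ((u - t * I) + u * (q₀ - 1)).re := by
      have : (u - t * I) + u * (q₀ - 1) = u * q₀ - t * I := by ring
      rw [this]
      simp
    rw [e]
    refine (Complex.abs_re_le_norm _).trans ((norm_add_le _ _).trans ?_)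
    rw [norm_mul]
    have := mul_le_mul hu h4 (norm_nonneg _) (by norm_num : (0 : ℝ) ≤ 65 / 10000 + 1)
    refine (add_le_add hut this).trans ?_
    norm_num
  -- second part
  have hB : ‖u * R * q₁ + (t * ‖R‖ : ℝ)‖ ≤ ‖R‖ * (18 / 1000) := by
    have e : u * R * q₁ + ((t * ‖R‖ : ℝ) : ℂ) = (u - t * I) * R * q₁ +
        t * I * (R - I * ‖R‖) * q₁ + (-(t * ‖R‖ : ℝ)) * (q₁ - 1) := by
      push_cast
      have hI := Complex.I_mul_I
      linear_combination ((t : ℂ) * ‖R‖ * q₁) * hI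
    rw [e]
    have a1 : ‖(u - t * I) * R * q₁‖ ≤ 65 / 10000 * ‖R‖ * (1 / 2000 + 1) := by
      rw [norm_mul, norm_mul]
      exact mul_le_mul (mul_le_mul_of_nonneg_right hut hr0) hq1 (norm_nonneg _)
        (by positivity)
    have a2 : ‖t * I * (R - I * ‖R‖) * q₁‖ ≤ 1 * (‖R‖ / 100) * (1 / 2000 + 1) := by
      rw [norm_mul, norm_mul]
      exact mul_le_mul (mul_le_mul htI hR2 (norm_nonneg _) (by norm_num)) hq1
        (norm_nonneg _) (by positivity)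
    have a3 : ‖(-((t * ‖R‖ : ℝ) : ℂ)) * (q₁ - 1)‖ ≤ (1 * ‖R‖) * (1 / 2000) := by
      rw [norm_mul, norm_neg, Complex.norm_real, Real.norm_eq_abs,
        abs_of_nonneg (mul_nonneg (by linarith) hr0)]
      exact mul_le_mul (mul_le_mul_of_nonneg_right ht1.le hr0) h5 (norm_nonneg _)
        (by positivity)
    refine (norm_add₃_le).trans ((add_le_add (add_le_add a1 a2) a3).trans ?_)
    nlinarith
  have hBre : (u * R * q₁).re + t * ‖R‖ ≤ ‖R‖ * (18 / 1000) := by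
    have := (Complex.re_le_norm (u * R * q₁ + ((t * ‖R‖ : ℝ) : ℂ))).trans hB
    rw [Complex.add_re, Complex.ofReal_re] at this
    exact this
  have e : u * (q₀ + R * q₁) = u * q₀ + u * R * q₁ := by ring
  rw [e, Complex.add_re]
  have hA' := (abs_le.mp hA).2
  have h6 : 4 / 5 * ‖R‖ ≤ t * ‖R‖ := mul_le_mul_of_nonneg_right ht0 hr0
  nlinarith

theorem gap : ∃ n₀ : ℕ, ∀ n : ℕ, n₀ ≤ n → ∀ ω η u q₀ q₁ R : ℂ, ‖ω‖ ≤ 2 →
    ‖η - sg‖ ≤ 1 / 300 → ‖η - exp (-ω)‖ ≤ 1 / 2000 → ‖u - ω‖ ≤ 1 / 2000 →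
    ‖q₀ - 1‖ ≤ 1 / 2000 → ‖q₁ - 1‖ ≤ 1 / 2000 →
    (‖R‖ ≤ 1 / 50 ∨ ‖R - I * ‖R‖‖ ≤ ‖R‖ / 100) →
    1 ≤ ‖η * (1 - u * (q₀ + R * q₁) / n) ^ n‖ ∨
    ‖η * (1 - u * (q₀ + R * q₁) / n) ^ n - sg ^ 2‖ < 1 / 20 := by
  obtain ⟨t, ht0, ht1, ht⟩ := gap_t
  obtain ⟨K, n₁, hK, hpe⟩ := pow_exp 0
  obtain ⟨n₂, hn₂⟩ := exists_nat_ge (1000 * K)
  refine ⟨max n₁ (max n₂ 1), ?_⟩
  intro n hn ω η u q₀ q₁ R hω h1 h2 h3 h4 h5 hR
  have hn1 : n₁ ≤ n := le_trans (le_max_left _ _) hn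
  have hn2 : n₂ ≤ n := le_trans (le_trans (le_max_left _ _) (le_max_right _ _)) hn
  have hn3 : 1 ≤ n := le_trans (le_trans (le_max_right _ _) (le_max_right _ _)) hn
  have hnpos : (0 : ℝ) < n := by exact_mod_cast hn3
  have he : ‖exp (-ω) - sg‖ ≤ 39 / 10000 := by
    calc ‖exp (-ω) - sg‖ = ‖(η - sg) - (η - exp (-ω))‖ := by
          congr 1
          ring
      _ ≤ ‖η - sg‖ + ‖η - exp (-ω)‖ := norm_sub_le _ _
      _ ≤ 1 / 300 + 1 / 2000 := add_le_add h1 h2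
      _ ≤ 39 / 10000 := by norm_num
  have hωt := gap_w t ht0 ht1 ht ω hω he
  by_cases hR1 : ‖R‖ ≤ 1 / 50
  · right
    obtain ⟨hv, hfin⟩ := gap_one t ht0 ht1 ω η u q₀ q₁ R
      ((1 - u * (q₀ + R * q₁) / n) ^ n) hωt h1 he h3 h4 h5 hR1
    apply hfin
    obtain ⟨_, hb, _⟩ := hpe n hn1 (u * (q₀ + R * q₁)) 0 hv (by simp)
    rw [zero_mul, add_zero] at hb
    refine hb.trans ?_
    rw [div_le_div_iff₀ hnpos (by norm_num)]
    have : (n₂ : ℝ) ≤ n := by exact_mod_cast hn2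
    linarith
  · left
    rw [not_le] at hR1
    have hR2 : ‖R - I * ‖R‖‖ ≤ ‖R‖ / 100 := by
      rcases hR with h | h
      · exact absurd h (not_le.mpr hR1)
      · exact h
    have hre := gap_two t ht0 ht1 ω u q₀ q₁ R hωt h3 h4 h5 hR1 hR2
    have hηn : 1 - 1 / 300 ≤ ‖η‖ := by
      have h6 : ‖sg‖ ≤ ‖sg - η‖ + ‖η‖ := by
        calc ‖sg‖ = ‖(sg - η) + η‖ := by rw [sub_add_cancel]
          _ ≤ ‖sg - η‖ + ‖η‖ := norm_add_le _ _
      rw [gap_sg, norm_sub_rev] at h6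
      linarith
    have hbase : 1 + (4 / 1000 : ℝ) / n ≤ ‖1 - u * (q₀ + R * q₁) / n‖ := by
      refine le_trans ?_ (Complex.re_le_norm _)
      rw [Complex.sub_re, Complex.one_re, Complex.div_natCast_re]
      have : (u * (q₀ + R * q₁)).re / n ≤ -(4 / 1000) / n :=
        div_le_div_of_nonneg_right hre hnpos.le
      rw [neg_div] at this
      linarith
    have hpow : 1 + 4 / 1000 ≤ ‖(1 - u * (q₀ + R * q₁) / n) ^ n‖ := by
      rw [norm_pow]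
      have h7 : 0 ≤ (4 / 1000 : ℝ) / n := by positivity
      have h8 := one_add_mul_le_pow (a := (4 / 1000 : ℝ) / n) (by linarith) n
      have h9 : (n : ℝ) * ((4 / 1000 : ℝ) / n) = 4 / 1000 := by
        field_simp
      rw [h9] at h8
      exact h8.trans (pow_le_pow_left₀ (by linarith) hbase n)
    rw [norm_mul]
    have := mul_le_mul hηn hpow (by norm_num) (norm_nonneg _)
    refine le_trans ?_ this
    norm_num

end Pool.Agent.TRB
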