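import Pool.Agent.TRB.PowExp

/-!
# Behaviour near the pole s = 1

PROOF. Let C1 = abs C + 1 and take K1, n1 from pow_exp C1. Let s /= 1, w = n (1-s)/S, so norm w <= 2, w /= 0 (n >= 1).
For n >= n0 (with 2 S/n < r): s in ball 1 r, so hpole: norm (G s - S/(1-s)) <= C. Put e = g - S/(1-s), norm e <= C + 1 <= C1.
S/(1-s) = n/w, so g = n/w + e = (n + e w)/w, 1/g = w/(n + e w); g /= 0 because n + e w /= 0. pow_exp gives
norm ((1-1/g)^n - exp(-w)) <= K1/n and norm (n/g - w) <= K1/n. Finally s = 1 - (1-s), norm (1-s) <= 2S/n and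
norm (s z - exp(-w)) <= norm (z - exp(-w)) + norm (1-s) * norm z with z = (1-1/g)^n bounded by exp 2 + K1.
-/

set_option autoImplicit false

namespace Pool.Agent.TRB

open Complex Metric

/-- behaviour near the pole `s = 1`, in the scale `1 - s = S ω / n` -/
theorem Data.near_one (D : Data) : ∃ K : ℝ, ∃ n₀ : ℕ, 0 < K ∧ 1 ≤ n₀ ∧ ∀ n : ℕ, n₀ ≤ n → ∀ s : ℂ,
    s ≠ 1 → ‖1 - s‖ ≤ 2 * D.S / n → ∀ g : ℂ, ‖g - D.G s‖ ≤ 1 →
    g ≠ 0 ∧ ‖s * (1 - 1 / g) ^ n - exp (-(n * (1 - s) / D.S))‖ ≤ K / n ∧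
    ‖n / g - n * (1 - s) / D.S‖ ≤ K / n := by
  obtain ⟨K1, n1, hK1, h1⟩ := pow_exp (|D.C| + 1)
  have hS := D.hS
  have hr := D.hr
  have hKpos : 0 < K1 + 2 * D.S * (Real.exp 2 + K1) := by
    have := Real.exp_pos 2
    positivity
  refine ⟨K1 + 2 * D.S * (Real.exp 2 + K1), max (max n1 1) (⌈2 * D.S / D.r⌉₊ + 1), hKpos,
    le_trans (le_max_right _ _) (le_max_left _ _), fun n hn s hs1 hs g hg => ?_⟩
  have hn1 : n1 ≤ n := le_trans (le_trans (le_max_left _ _) (le_max_left _ _)) hn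
  have hn2 : 1 ≤ n := le_trans (le_trans (le_max_right _ _) (le_max_left _ _)) hn
  have hn3 : ⌈2 * D.S / D.r⌉₊ + 1 ≤ n := le_trans (le_max_right _ _) hn
  have hnR : (1 : ℝ) ≤ n := by exact_mod_cast hn2
  have hnpos : (0 : ℝ) < n := by linarith
  have hnC : (n : ℂ) ≠ 0 := by exact_mod_cast (by omega : n ≠ 0)
  have hSC : (D.S : ℂ) ≠ 0 := by exact_mod_cast hS.ne'
  have hsub : (1 : ℂ) - s ≠ 0 := fun h => hs1 (sub_eq_zero.1 h).symm
  have hrn : 2 * D.S / n < D.r := by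
    have h2 : 2 * D.S / D.r < n := by
      have h3 := Nat.le_ceil (2 * D.S / D.r)
      have h4 : ((⌈2 * D.S / D.r⌉₊ : ℕ) : ℝ) + 1 ≤ n := by exact_mod_cast hn3
      linarith
    rw [div_lt_iff₀ hr] at h2
    rw [div_lt_iff₀ hnpos]
    linarith
  have hball : s ∈ ball (1 : ℂ) D.r := by
    rw [mem_ball, dist_eq_norm, norm_sub_rev]
    exact lt_of_le_of_lt hs hrn
  have hp := D.hpole s hball hs1
  have hω : ‖(n : ℂ) * (1 - s) / D.S‖ ≤ 2 := by
    rw [norm_div, norm_mul, Complex.norm_natCast, Complex.norm_real, Real.norm_of_nonneg hS.le,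
      div_le_iff₀ hS]
    have h2 := mul_le_mul_of_nonneg_left hs hnpos.le
    have h3 : (n : ℝ) * (2 * D.S / n) = 2 * D.S := by field_simp
    linarith
  have he : ‖g - D.S / (1 - s)‖ ≤ |D.C| + 1 := by
    have h2 : g - D.S / (1 - s) = (g - D.G s) + (D.G s - D.S / (1 - s)) := by ring
    rw [h2]
    have h3 := norm_add_le (g - D.G s) (D.G s - D.S / (1 - s))
    have h4 := le_abs_self D.C
    linarith
  have hω0 : (n : ℂ) * (1 - s) / D.S ≠ 0 := div_ne_zero (mul_ne_zero hnC hsub) hSC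
  obtain ⟨h2, h3, h4⟩ := h1 n hn1 _ _ hω he
  have hgω : g * ((n : ℂ) * (1 - s) / D.S) = n + (g - D.S / (1 - s)) * ((n : ℂ) * (1 - s) / D.S) := by
    field_simp
    ring
  generalize hωd : (n : ℂ) * (1 - s) / D.S = ω at *
  generalize hed : g - D.S / (1 - s) = e at *
  rw [← hgω] at h2 h3 h4
  have hg0 : g ≠ 0 := left_ne_zero_of_mul h2
  have h5 : ω / (g * ω) = 1 / g := by field_simp
  rw [h5] at h3 h4
  have hle : K1 / n ≤ (K1 + 2 * D.S * (Real.exp 2 + K1)) / n := by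
    have := Real.exp_pos 2
    gcongr
    have : 0 ≤ 2 * D.S * (Real.exp 2 + K1) := by positivity
    linarith
  refine ⟨hg0, ?_, ?_⟩
  · have h6 : s * (1 - 1 / g) ^ n - exp (-ω) =
        ((1 - 1 / g) ^ n - exp (-ω)) - (1 - s) * (1 - 1 / g) ^ n := by ring
    rw [h6]
    have h7 : ‖exp (-ω)‖ ≤ Real.exp 2 := by
      refine (Complex.norm_exp_le_exp_norm _).trans (Real.exp_le_exp.2 ?_)
      rw [norm_neg]
      exact hω
    have h8 : K1 / n ≤ K1 := div_le_self hK1.le hnR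
    have h9 : ‖(1 - 1 / g) ^ n‖ ≤ Real.exp 2 + K1 := by
      have h10 : (1 - 1 / g) ^ n = ((1 - 1 / g) ^ n - exp (-ω)) + exp (-ω) := by ring
      have h11 := norm_add_le ((1 - 1 / g) ^ n - exp (-ω)) (exp (-ω))
      rw [← h10] at h11
      linarith
    refine (norm_sub_le _ _).trans ?_
    rw [norm_mul, add_div]
    refine add_le_add h3 ?_
    have h12 := mul_le_mul hs h9 (norm_nonneg _) (by positivity)
    calc ‖1 - s‖ * ‖(1 - 1 / g) ^ n‖ ≤ 2 * D.S / n * (Real.exp 2 + K1) := h12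
      _ = 2 * D.S * (Real.exp 2 + K1) / n := by ring
  · have h6 : (n : ℂ) / g = n * (1 / g) := by ring
    rw [h6]
    exact h4.trans hle

end Pool.Agent.TRB
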