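import Pool.Agent.TRB.Defs

/-!
# The phase of the exit

PROOF of phase. w = b i + ρ e^{iψ} (w - b i = ρ (c + i s'), c^2 + s'^2 = 1). R := I exp(I m b) exp(-m w) = I exp(-mρ c) exp(-i mρ s').
norm R = exp(-mρ c). If 1/50 < norm R < H then abs c <= L/(mρ), L = log (max 50 (abs H + 1)); so abs (abs s' - 1) <= c^2 <= L^2/(mρ)^2 and
with the sign e of s': mρ s' = e mρ + x, abs x <= L^2/(mρ); exp(-i mρ s') = exp(-i e 2 pi j) exp(-i x) = exp(-i x), norm (exp(-i x) - 1)
<= abs x <= 1/100 once mρ >= 100 L^2 (and m0 > 0).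
-/

set_option autoImplicit false

namespace Pool.Agent.TRB

open Complex Metric Set

theorem phase (b ρ H : ℝ) (hρ : 0 < ρ) : ∃ m₀ : ℝ, ∀ m : ℝ, m₀ ≤ m →
    (∃ j : ℕ, m * ρ = 2 * Real.pi * j) → ∀ w : ℂ, ‖w - b * I‖ = ρ →
    ‖I * exp (I * m * b) * exp (-m * w)‖ ≤ 1 / 50 ∨
    H ≤ ‖I * exp (I * m * b) * exp (-m * w)‖ ∨
    ‖I * exp (I * m * b) * exp (-m * w) - I * ‖I * exp (I * m * b) * exp (-m * w)‖‖ ≤
      ‖I * exp (I * m * b) * exp (-m * w)‖ / 100 := by
  set L : ℝ := Real.log (max 50 (|H| + 1)) with hL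
  have hmax : (50 : ℝ) ≤ max 50 (|H| + 1) := le_max_left _ _
  have hmax0 : (0 : ℝ) < max 50 (|H| + 1) := by linarith
  refine ⟨(100 * L ^ 2 + 1) / ρ, fun m hm hj w hw => ?_⟩
  obtain ⟨j, hj⟩ := hj
  have hN1 : 100 * L ^ 2 + 1 ≤ m * ρ := by
    rwa [div_le_iff₀ hρ] at hm
  have hN0 : 0 < m * ρ := by nlinarith [sq_nonneg L]
  set u : ℝ := m * (w - b * I).re with hu
  set v : ℝ := m * (w - b * I).im with hv
  have hR : I * exp (I * m * b) * exp (-m * w) = I * (Real.exp (-u) : ℂ) * exp (I * ((-v : ℝ) : ℂ)) := by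
    have h1 : w = ((w - b * I).re : ℂ) + ((w - b * I).im : ℂ) * I + b * I := by
      rw [Complex.re_add_im]
      ring
    have e1 : I * exp (I * m * b) * exp (-m * w) = I * (exp (I * m * b) * exp (-m * w)) := by ring
    have e2 : I * (Real.exp (-u) : ℂ) * exp (I * ((-v : ℝ) : ℂ)) =
        I * ((Real.exp (-u) : ℂ) * exp (I * ((-v : ℝ) : ℂ))) := by ring
    rw [e1, e2, ← Complex.exp_add, Complex.ofReal_exp, ← Complex.exp_add]
    congr 2
    rw [hu, hv]
    conv_lhs => rw [h1]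
    push_cast
    ring
  have hnR : ‖I * exp (I * m * b) * exp (-m * w)‖ = Real.exp (-u) := by
    rw [hR, norm_mul, norm_mul, Complex.norm_I, one_mul, mul_comm I, Complex.norm_exp_ofReal_mul_I,
      mul_one, Complex.norm_real, Real.norm_eq_abs, abs_of_pos (Real.exp_pos _)]
  rw [hnR, hR]
  by_cases h1 : Real.exp (-u) ≤ 1 / 50
  · exact Or.inl h1
  by_cases h2 : H ≤ Real.exp (-u)
  · exact Or.inr (Or.inl h2)
  right
  right
  push Not at h1 h2
  have huv : u ^ 2 + v ^ 2 = (m * ρ) ^ 2 := by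
    have h3 : ‖w - b * I‖ ^ 2 = (w - b * I).re ^ 2 + (w - b * I).im ^ 2 := by
      rw [← Complex.normSq_eq_norm_sq, Complex.normSq_apply]
      ring
    rw [hw] at h3
    rw [hu, hv, mul_pow, mul_pow, mul_pow, h3]
    ring
  have huL : |u| ≤ L := by
    rw [abs_le]
    constructor
    · have h3 : -u ≤ L := by
        rw [hL, Real.le_log_iff_exp_le hmax0]
        have := le_abs_self H
        have h4 := le_max_right (50 : ℝ) (|H| + 1)
        linarith
      linarith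
    · have h3 : -L ≤ -u := by
        rw [← Real.exp_le_exp, hL, Real.exp_neg, Real.exp_log hmax0]
        have h4 : (max 50 (|H| + 1))⁻¹ ≤ 1 / 50 := by
          rw [inv_le_comm₀ hmax0 (by norm_num)]
          simp
        linarith
      linarith
  have hu2 : u ^ 2 ≤ L ^ 2 := by
    rw [← sq_abs u]
    exact pow_le_pow_left₀ (abs_nonneg u) huL 2
  have hx : |(|v| - m * ρ)| ≤ 1 / 100 := by
    have h3 : (|v| - m * ρ) * (|v| + m * ρ) = -u ^ 2 := by
      have h4 : |v| ^ 2 = v ^ 2 := sq_abs v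
      nlinarith
    have h5 : 0 < |v| + m * ρ := by have := abs_nonneg v; linarith
    have h6 : |(|v| - m * ρ)| * (|v| + m * ρ) = u ^ 2 := by
      calc |(|v| - m * ρ)| * (|v| + m * ρ) = |(|v| - m * ρ)| * |(|v| + m * ρ)| := by
            rw [abs_of_pos h5]
        _ = u ^ 2 := by rw [← abs_mul, h3, abs_neg, abs_of_nonneg (sq_nonneg u)]
    have h7 : m * ρ ≤ |v| + m * ρ := by have := abs_nonneg v; linarith
    have h8 : |(|v| - m * ρ)| * (m * ρ) ≤ u ^ 2 := by
      rw [← h6]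
      exact mul_le_mul_of_nonneg_left h7 (abs_nonneg _)
    have h9 : |(|v| - m * ρ)| * (m * ρ) ≤ 1 / 100 * (m * ρ) := by nlinarith
    exact le_of_mul_le_mul_right h9 hN0
  have hexp : ‖exp (I * ((-v : ℝ) : ℂ)) - 1‖ ≤ 1 / 100 := by
    rcases le_total 0 v with hv0 | hv0
    · have e1 : exp (I * ((-v : ℝ) : ℂ)) = exp (I * ((-(|v| - m * ρ) : ℝ) : ℂ)) := by
        rw [abs_of_nonneg hv0]
        have e2 : I * ((-v : ℝ) : ℂ) = I * ((-(v - m * ρ) : ℝ) : ℂ) +
            (((-(j : ℤ) : ℤ)) : ℂ) * (2 * Real.pi * I) := by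
          rw [hj]
          push_cast
          ring
        rw [e2, Complex.exp_add, Complex.exp_int_mul_two_pi_mul_I, mul_one]
      rw [e1]
      refine (Real.norm_exp_I_mul_ofReal_sub_one_le).trans ?_
      rw [Real.norm_eq_abs, abs_neg]
      exact hx
    · have e1 : exp (I * ((-v : ℝ) : ℂ)) = exp (I * (((|v| - m * ρ) : ℝ) : ℂ)) := by
        rw [abs_of_nonpos hv0]
        have e2 : I * ((-v : ℝ) : ℂ) = I * (((-v - m * ρ) : ℝ) : ℂ) +
            ((j : ℤ) : ℂ) * (2 * Real.pi * I) := by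
          rw [hj]
          push_cast
          ring
        rw [e2, Complex.exp_add, Complex.exp_int_mul_two_pi_mul_I, mul_one]
      rw [e1]
      refine (Real.norm_exp_I_mul_ofReal_sub_one_le).trans ?_
      rw [Real.norm_eq_abs]
      exact hx
  have hfin : I * (Real.exp (-u) : ℂ) * exp (I * ((-v : ℝ) : ℂ)) - I * ((Real.exp (-u) : ℝ) : ℂ) =
      I * (Real.exp (-u) : ℂ) * (exp (I * ((-v : ℝ) : ℂ)) - 1) := by ring
  rw [hfin, norm_mul, norm_mul, Complex.norm_I, one_mul, Complex.norm_real, Real.norm_eq_abs,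
    abs_of_pos (Real.exp_pos _)]
  have := mul_le_mul_of_nonneg_left hexp (Real.exp_pos (-u)).le
  linarith

end Pool.Agent.TRB
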