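import Pool.Agent.TRB.Defs

/-!
# A primitive of (G-1)/s

PROOF. dslope G 0 is differentiable on W (DifferentiableOn.dslope or differentiableOn_dslope, W open, 0 in W, G
differentiable on W inside U) and s * dslope G 0 s = G s - 1 (G 0 = 1). hPW gives the primitive Phi on W
(IsExactOn). On the convex open set A = ball 1 r inter ball 0 1 (inside W by hrW) put h s = Phi s + S * log (1 - s); for s in A
Re (1-s) > 0, so 1 - s in slitPlane, norm s >= 1/2 (r <= 1/2), and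
h' s = (G s - 1)/s - S/(1-s) = (G s - S/(1-s) + S - 1)/s has norm <= 2 (abs C + S + 1) =: C2. With the base point
s1 = 1 - r/2 in A (Convex.norm_image_sub_le_of_norm_hasDerivWithin_le): norm (h s) <= norm (h s1) + 2 C2 =: C3 on A.
So norm (Phi s) <= C3 + S * norm (log (1-s)) <= C3 + S (abs (Real.log (norm (1-s))) + pi), and for
c/n <= norm (1-s) <= 1/4 the logarithm is between log (c/n) and 0, so norm (Phi s) <= C3 + S (log (n/c) + pi) <= eps * n for n large
(log n / n -> 0).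
-/

set_option linter.all false

set_option autoImplicit false

namespace Pool.Agent.TRB

open Complex Metric Filter

private theorem prim_norm_log (z : ℂ) : ‖Complex.log z‖ ≤ |Real.log ‖z‖| + Real.pi := by
  refine (Complex.norm_le_abs_re_add_abs_im _).trans ?_
  rw [Complex.log_re, Complex.log_im]
  exact add_le_add le_rfl (Complex.abs_arg_le_pi z)

private theorem prim_large (C3 S c ε : ℝ) (hS : 0 < S) (hε : 0 < ε) :
    ∃ n₀ : ℕ, ∀ n : ℕ, n₀ ≤ n → C3 + S * (Real.log n - Real.log c + Real.pi) ≤ ε * n := by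
  have h1 : ∀ᶠ x : ℝ in atTop, ‖Real.log x‖ ≤ ε / (2 * S) * ‖id x‖ :=
    Real.isLittleO_log_id_atTop.bound (by positivity)
  have h2 : ∀ᶠ n : ℕ in atTop, ‖Real.log (n : ℝ)‖ ≤ ε / (2 * S) * ‖id (n : ℝ)‖ :=
    tendsto_natCast_atTop_atTop.eventually h1
  have h3 : ∀ᶠ n : ℕ in atTop, (C3 + S * (Real.pi - Real.log c)) / (ε / 2) ≤ (n : ℝ) :=
    tendsto_natCast_atTop_atTop.eventually (eventually_ge_atTop _)
  obtain ⟨n₀, hn₀⟩ := eventually_atTop.1 (h2.and h3)
  refine ⟨n₀, fun n hn => ?_⟩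
  obtain ⟨ha, hb⟩ := hn₀ n hn
  rw [id, Real.norm_eq_abs, Real.norm_eq_abs, abs_of_nonneg (Nat.cast_nonneg n : (0 : ℝ) ≤ n)] at ha
  have ha' : Real.log n ≤ ε / (2 * S) * n := (le_abs_self _).trans ha
  rw [div_le_iff₀ (by positivity)] at hb
  have h4 : S * Real.log n ≤ ε / 2 * n := by
    calc S * Real.log n ≤ S * (ε / (2 * S) * n) := mul_le_mul_of_nonneg_left ha' hS.le
      _ = ε / 2 * n := by field_simp
  nlinarith

/-- a primitive of `(G - 1) / s`, with a logarithmic bound at `s = 1` -/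
theorem Data.prim (D : Data) : ∃ Φ : ℂ → ℂ, (∀ s ∈ D.W, HasDerivAt Φ (dslope D.G 0 s) s) ∧
    ∀ c ε : ℝ, 0 < c → 0 < ε → ∃ n₀ : ℕ, ∀ n : ℕ, n₀ ≤ n → ∀ s : ℂ, ‖s‖ < 1 →
      ‖1 - s‖ ≤ D.r / 2 → c / n ≤ ‖1 - s‖ → ‖Φ s‖ ≤ ε * n := by
  have hd : DifferentiableOn ℂ (dslope D.G 0) D.W :=
    (Complex.differentiableOn_dslope (D.hWo.mem_nhds D.h0W)).2 (D.hG.mono D.hWU)
  obtain ⟨Φ, hΦ⟩ := D.hPW (dslope D.G 0) hd
  refine ⟨Φ, hΦ, ?_⟩
  have hr := D.hr
  have hr2 := D.hr2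
  have hS := D.hS
  obtain ⟨A, hA⟩ : ∃ A : Set ℂ, A = ball (1 : ℂ) D.r ∩ ball (0 : ℂ) 1 := ⟨_, rfl⟩
  have hAc : Convex ℝ A := by
    rw [hA]; exact (convex_ball _ _).inter (convex_ball _ _)
  have hAW : A ⊆ D.W := by rw [hA]; exact D.hrW
  have hAn : ∀ s ∈ A, ‖s - 1‖ < D.r ∧ ‖s‖ < 1 := by
    intro s hs
    rw [hA] at hs
    exact ⟨by simpa [dist_eq_norm] using hs.1, by simpa using hs.2⟩
  obtain ⟨C2, hC2⟩ : ∃ C2 : ℝ, C2 = 2 * (|D.C| + D.S + 1) := ⟨_, rfl⟩
  have hC20 : 0 ≤ C2 := by rw [hC2]; positivity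
  have hder : ∀ s ∈ A, HasDerivAt (fun s => Φ s + D.S * Complex.log (1 - s))
      (dslope D.G 0 s + D.S * (-1 / (1 - s))) s := by
    intro s hs
    obtain ⟨-, h2⟩ := hAn s hs
    have hslit : (1 - s) ∈ slitPlane := by
      refine Or.inl ?_
      have : s.re < 1 := (Complex.re_le_norm s).trans_lt h2
      simpa using this
    have hlog : HasDerivAt (fun s : ℂ => Complex.log (1 - s)) (-1 / (1 - s)) s := by
      have h' : HasDerivAt (fun s : ℂ => 1 - s) (-1) s := (hasDerivAt_id' s).const_sub 1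
      exact h'.clog hslit
    exact (hΦ s (hAW hs)).add (hlog.const_mul _)
  have hbd : ∀ s ∈ A, ‖dslope D.G 0 s + D.S * (-1 / (1 - s))‖ ≤ C2 := by
    intro s hs
    obtain ⟨h1, h2⟩ := hAn s hs
    have hsn : 1 / 2 ≤ ‖s‖ := by
      have h3 : ‖(1 : ℂ)‖ ≤ ‖s‖ + ‖s - 1‖ := by
        calc ‖(1 : ℂ)‖ = ‖s - (s - 1)‖ := by congr 1; ring
          _ ≤ ‖s‖ + ‖s - 1‖ := norm_sub_le _ _
      rw [norm_one] at h3
      linarith
    have hs0 : s ≠ 0 := by
      intro h
      rw [h, norm_zero] at hsn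
      linarith
    have hs1 : s ≠ 1 := by
      intro h
      rw [h, norm_one] at h2
      exact lt_irrefl _ h2
    have hs1' : 1 - s ≠ 0 := sub_ne_zero.2 hs1.symm
    have hpole := D.hpole s (by rw [mem_ball, dist_eq_norm]; exact h1) hs1
    have e : dslope D.G 0 s + D.S * (-1 / (1 - s)) = (D.G s - D.S / (1 - s) + (D.S - 1)) / s := by
      rw [dslope_of_ne _ hs0, slope_def_field, D.hG0, sub_zero]
      field_simp
      ring
    rw [e, norm_div, div_le_iff₀ (by linarith)]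
    have h4 : ‖((D.S : ℂ) - 1)‖ ≤ D.S + 1 := by
      refine (norm_sub_le _ _).trans ?_
      rw [norm_one, Complex.norm_real, Real.norm_of_nonneg hS.le]
    calc ‖D.G s - D.S / (1 - s) + (D.S - 1)‖ ≤ ‖D.G s - D.S / (1 - s)‖ + ‖((D.S : ℂ) - 1)‖ :=
          norm_add_le _ _
      _ ≤ |D.C| + (D.S + 1) := add_le_add (hpole.trans (le_abs_self _)) h4
      _ = C2 * (1 / 2) := by rw [hC2]; ring
      _ ≤ C2 * ‖s‖ := mul_le_mul_of_nonneg_left hsn hC20
  obtain ⟨s1, hs1⟩ : ∃ s1 : ℂ, s1 = ((1 - D.r / 2 : ℝ) : ℂ) := ⟨_, rfl⟩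
  have hs1A : s1 ∈ A := by
    rw [hA]
    constructor
    · rw [mem_ball, dist_eq_norm, hs1, ← Complex.ofReal_one, ← Complex.ofReal_sub,
        Complex.norm_real, Real.norm_eq_abs, abs_lt]
      constructor <;> linarith
    · rw [mem_ball, dist_zero_right, hs1, Complex.norm_real, Real.norm_eq_abs, abs_lt]
      constructor <;> linarith
  obtain ⟨h1v, hh1v⟩ : ∃ v : ℝ, v = ‖Φ s1 + D.S * Complex.log (1 - s1)‖ := ⟨_, rfl⟩
  have hlip : ∀ s ∈ A, ‖Φ s + D.S * Complex.log (1 - s)‖ ≤ h1v + C2 * 2 := by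
    intro s hs
    have h := hAc.norm_image_sub_le_of_norm_hasDerivWithin_le
      (f := fun s => Φ s + D.S * Complex.log (1 - s))
      (f' := fun s => dslope D.G 0 s + D.S * (-1 / (1 - s)))
      (fun x hx => (hder x hx).hasDerivWithinAt) hbd hs1A hs
    have h5 : ‖s - s1‖ ≤ 2 := by
      refine (norm_sub_le _ _).trans ?_
      have a := (hAn s hs).2
      have b := (hAn s1 hs1A).2
      linarith
    have h6 : C2 * ‖s - s1‖ ≤ C2 * 2 := mul_le_mul_of_nonneg_left h5 hC20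
    have h7 := norm_le_insert' (Φ s + D.S * Complex.log (1 - s))
      (Φ s1 + D.S * Complex.log (1 - s1))
    rw [hh1v]
    have h8 : ‖(Φ s + D.S * Complex.log (1 - s)) - (Φ s1 + D.S * Complex.log (1 - s1))‖ ≤
      C2 * ‖s - s1‖ := h
    linarith
  intro c ε hc hε
  obtain ⟨n₀, hn₀⟩ := prim_large (h1v + C2 * 2) D.S c ε hS hε
  refine ⟨max n₀ 1, fun n hn s hs1n hsr hcn => ?_⟩
  have hn1 : 1 ≤ n := (le_max_right _ _).trans hn
  have hnR : (0 : ℝ) < n := by exact_mod_cast hn1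
  have hsA : s ∈ A := by
    rw [hA]
    constructor
    · rw [mem_ball, dist_eq_norm, norm_sub_rev]
      linarith
    · rw [mem_ball, dist_zero_right]; exact hs1n
  have hpos : 0 < ‖1 - s‖ := lt_of_lt_of_le (by positivity) hcn
  have hlogle : |Real.log ‖1 - s‖| ≤ Real.log n - Real.log c := by
    have h1 : Real.log ‖1 - s‖ ≤ 0 := Real.log_nonpos hpos.le (by linarith)
    rw [abs_of_nonpos h1]
    have h2 : Real.log (c / n) ≤ Real.log ‖1 - s‖ := Real.log_le_log (by positivity) hcn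
    rw [Real.log_div hc.ne' hnR.ne'] at h2
    linarith
  have hL := prim_norm_log (1 - s)
  have hkey : ‖Φ s‖ ≤ ‖Φ s + D.S * Complex.log (1 - s)‖ + D.S * ‖Complex.log (1 - s)‖ := by
    have e : Φ s = (Φ s + D.S * Complex.log (1 - s)) - D.S * Complex.log (1 - s) := by ring
    have h3 : ‖(D.S : ℂ) * Complex.log (1 - s)‖ = D.S * ‖Complex.log (1 - s)‖ := by
      rw [norm_mul, Complex.norm_real, Real.norm_of_nonneg hS.le]
    calc ‖Φ s‖ = ‖(Φ s + D.S * Complex.log (1 - s)) - D.S * Complex.log (1 - s)‖ := by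
          rw [← e]
      _ ≤ _ := by
          refine (norm_sub_le _ _).trans ?_
          rw [h3]
  have hfin := hn₀ n ((le_max_left _ _).trans hn)
  have h4 : D.S * ‖Complex.log (1 - s)‖ ≤ D.S * (Real.log n - Real.log c + Real.pi) :=
    mul_le_mul_of_nonneg_left (by linarith) hS.le
  have h5 := hlip s hsA
  linarith

end Pool.Agent.TRB
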