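import Pool.Agent.TRB.Poly
import Pool.Agent.TRB.Near
import Pool.Agent.TRB.Prim
import Pool.Agent.TRB.Exit
import Pool.Agent.TRB.Gap
import Pool.Agent.TRB.Phase
import Pool.Agent.TRB.Front

/-!
# Assembly: from the geometric data to the polynomial
-/

set_option autoImplicit false

namespace Pool.Agent.TRB

open Polynomial Complex Metric Set Filter Topology

theorem Data.contG (D : Data) : ContinuousOn D.G D.W := D.hG.continuousOn.mono D.hWU

theorem Data.V0_open (D : Data) : IsOpen D.V0 := by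
  have h := D.contG.isOpen_inter_preimage D.hWo
    (isOpen_lt (continuous_const (y := (1 / 4 : ℝ))) continuous_re)
  exact h

theorem Data.V0_sub (D : Data) : D.V0 ⊆ D.W := fun _ h => h.1

theorem Data.closure_V0 (D : Data) {s : ℂ} (hs : s ∈ closure D.V0) (h1 : s ≠ 1) :
    s ∈ D.W ∧ 1 / 4 ≤ (D.G s).re := by
  have hW : s ∈ D.W := by
    rcases D.hV hs with h | h
    · exact h
    · exact absurd h h1
  refine ⟨hW, ?_⟩
  have hc : ContinuousAt (fun z => (D.G z).re) s :=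
    (continuous_re.continuousAt).comp (D.contG.continuousAt (D.hWo.mem_nhds hW))
  by_contra hlt
  push Not at hlt
  have h2 : ∀ᶠ z in 𝓝 s, (D.G z).re < 1 / 4 := hc.eventually (gt_mem_nhds hlt)
  obtain ⟨z, hz1, hz2⟩ := mem_closure_iff_nhds.1 hs _ h2
  exact absurd hz1 (not_lt.2 hz2.2.le)

theorem exit_robust (D : Data) (n : ℕ) (F : Set ℂ) (hF : IsCompact F) (hFW : F ⊆ D.W)
    (h : ∀ s ∈ F, 1 / 4 ≤ (D.G s).re ∧ 1 < ‖s * (1 - 1 / D.G s) ^ n‖) :
    ∃ δ x₀ : ℝ, 0 < δ ∧ δ ≤ 1 / 8 ∧ 1 < x₀ ∧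
      ∀ s ∈ F, ∀ g : ℂ, ‖g - D.G s‖ ≤ δ → x₀ ≤ ‖s * (1 - 1 / g) ^ n‖ := by
  rcases F.eq_empty_or_nonempty with rfl | hne
  · exact ⟨1 / 8, 2, by norm_num, le_refl _, by norm_num, fun s hs => absurd hs (notMem_empty s)⟩
  have hcomp : IsCompact (F ×ˢ closedBall (0 : ℂ) (1 / 8)) := hF.prod (isCompact_closedBall _ _)
  have hne0 : ∀ p ∈ F ×ˢ closedBall (0 : ℂ) (1 / 8), D.G p.1 + p.2 ≠ 0 := by
    rintro ⟨s, e⟩ ⟨hs, he⟩ h0
    have h1 := (h s hs).1
    have h2 : |e.re| ≤ 1 / 8 := (abs_re_le_norm e).trans (by simpa using he)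
    have h3 : (D.G s + e).re = 0 := by
      have := congrArg Complex.re h0
      simpa using this
    rw [add_re] at h3
    have := (abs_le.1 h2).1
    linarith
  have hGc : ContinuousOn (fun p : ℂ × ℂ => D.G p.1) (F ×ˢ closedBall (0 : ℂ) (1 / 8)) :=
    (D.contG.mono hFW).comp continuousOn_fst (fun p hp => hp.1)
  have hcont : ContinuousOn (fun p : ℂ × ℂ => ‖p.1 * (1 - 1 / (D.G p.1 + p.2)) ^ n‖)
      (F ×ˢ closedBall (0 : ℂ) (1 / 8)) := by
    apply ContinuousOn.norm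
    apply continuousOn_fst.mul
    apply ContinuousOn.pow
    apply continuousOn_const.sub
    exact continuousOn_const.div (hGc.add continuousOn_snd) hne0
  have huc := hcomp.uniformContinuousOn_of_continuous hcont
  obtain ⟨s0, hs0, hmin⟩ := hF.exists_isMinOn hne
    (f := fun s => ‖s * (1 - 1 / D.G s) ^ n‖) (by
      have h2 : ContinuousOn (fun s : ℂ => ‖s * (1 - 1 / (D.G s + 0)) ^ n‖) F :=
        hcont.comp (f := fun s : ℂ => (s, (0 : ℂ))) (by fun_prop)
          (fun s hs => ⟨hs, by simp⟩)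
      simpa using h2)
  set μ := ‖s0 * (1 - 1 / D.G s0) ^ n‖ with hμ
  have hμ1 : 1 < μ := (h s0 hs0).2
  rw [Metric.uniformContinuousOn_iff] at huc
  obtain ⟨d, hd, hd'⟩ := huc ((μ - 1) / 2) (by linarith)
  refine ⟨min (d / 2) (1 / 8), (μ + 1) / 2, by positivity, min_le_right _ _, by linarith, ?_⟩
  intro s hs g hg
  have hg1 : ‖g - D.G s‖ ≤ d / 2 := hg.trans (min_le_left _ _)
  have hg2 : ‖g - D.G s‖ ≤ 1 / 8 := hg.trans (min_le_right _ _)
  have h3 := hd' (s, g - D.G s) ⟨hs, by simpa using hg2⟩ (s, 0) ⟨hs, by simp⟩ (by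
    rw [Prod.dist_eq, dist_self]
    simp only [dist_zero_right]
    rw [max_lt_iff]
    exact ⟨hd, by linarith⟩)
  have h4 : μ ≤ ‖s * (1 - 1 / D.G s) ^ n‖ := hmin hs
  rw [Real.dist_eq] at h3
  have h5 := (abs_lt.1 h3).1
  simp only [add_zero, add_sub_cancel] at h5
  linarith

theorem exp_sep (D : Data) : ∃ d : ℝ, 0 < d ∧ ∀ ω : ℂ, ‖ω‖ = 2 → 0 ≤ ω.re → ∀ y : ℂ,
    ‖y - exp (-ω)‖ < d → y ∉ closure D.E := by
  set T : Set ℂ := (fun ω : ℂ => exp (-ω)) '' (sphere (0 : ℂ) 2 ∩ {ω | 0 ≤ ω.re}) with hT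
  have hTc : IsCompact T := by
    apply IsCompact.image _ (by fun_prop)
    exact (isCompact_sphere _ _).inter_right (isClosed_le continuous_const continuous_re)
  have hdis : Disjoint T (closure D.E) := by
    rw [Set.disjoint_left]
    rintro y ⟨ω, ⟨h1, h2⟩, rfl⟩ hy
    exact D.hE2 ω (by simpa using h1) h2 hy
  obtain ⟨d, hd, hdd⟩ := hdis.exists_thickenings hTc isClosed_closure
  refine ⟨d, hd, fun ω h1 h2 y hy hyE => ?_⟩
  have h3 : y ∈ thickening d T := by
    rw [mem_thickening_iff]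
    exact ⟨exp (-ω), ⟨ω, ⟨by simpa using h1, h2⟩, rfl⟩, by rwa [dist_eq_norm]⟩
  exact Set.disjoint_left.1 hdd h3 (self_subset_thickening hd _ hyE)

theorem small_w (D : Data) : ∃ c e : ℝ, 0 < c ∧ c < 2 ∧ 0 < e ∧ ∀ ω : ℂ, ‖ω‖ ≤ c → ∀ y : ℂ,
    ‖y - exp (-ω)‖ < e → y ∈ D.E := by
  obtain ⟨r, hr, hrE⟩ := Metric.isOpen_iff.1 D.hEo 1 D.h1E
  have hc : ContinuousAt (fun ω : ℂ => exp (-ω)) 0 := by fun_prop
  obtain ⟨c, hc0, hc'⟩ := Metric.continuousAt_iff.1 hc (r / 2) (by linarith)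
  refine ⟨min (c / 2) 1, r / 2, by positivity, lt_of_le_of_lt (min_le_right _ _) (by norm_num),
    by linarith, fun ω hω y hy => hrE ?_⟩
  have h1 : ‖ω‖ < c := lt_of_le_of_lt (hω.trans (min_le_left _ _)) (by linarith)
  have h2 := hc' (x := ω) (by simpa using h1)
  simp only [neg_zero, exp_zero] at h2
  rw [mem_ball]
  calc dist y 1 ≤ dist y (exp (-ω)) + dist (exp (-ω)) 1 := dist_triangle _ _ _
    _ < r / 2 + r / 2 := add_lt_add (by rwa [dist_eq_norm]) h2
    _ = r := by ring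

theorem TS_eq (P : ℂ[X]) (n : ℕ) (s : ℂ) :
    TS P n s = eta P n s * (1 - P.eval (eta P n s) / (P.eval s * GP P n s)) ^ n := by
  unfold TS
  rw [mul_pow, ← mul_assoc]
  rfl

theorem norm_one_sub_ge {x : ℂ} (h : 3 ≤ ‖x‖) : 2 ≤ ‖1 - x‖ := by
  have h1 := norm_sub_norm_le x 1
  rw [norm_one, norm_sub_rev] at h1
  linarith

/-- the last step: closeness to the gap numbers -/
theorem gap_numbers {A A' p p' R : ℂ} {δ : ℝ} (hδ : δ ≤ 1 / 100000)
    (hA : ‖A - 1‖ ≤ 2 / 10000) (hA' : ‖A' - 1‖ ≤ 2 / 10000) (hp : ‖p - A - R‖ ≤ δ)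
    (hp' : ‖p' - A'‖ ≤ δ) :
    p' ≠ 0 ∧ ‖(p - R) / p' - 1‖ ≤ 1 / 2000 ∧ ‖1 / p' - 1‖ ≤ 1 / 2000 := by
  have h1 : ‖p' - 1‖ ≤ 22 / 100000 := by
    have : p' - 1 = (p' - A') + (A' - 1) := by ring
    rw [this]
    refine (norm_add_le _ _).trans ?_
    linarith
  have h2 : ‖p - R - 1‖ ≤ 22 / 100000 := by
    have : p - R - 1 = (p - A - R) + (A - 1) := by ring
    rw [this]
    refine (norm_add_le _ _).trans ?_
    linarith
  have h3 : 99 / 100 ≤ ‖p'‖ := by
    have h4 := norm_sub_norm_le (1 : ℂ) p'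
    rw [norm_one, norm_sub_rev] at h4
    linarith
  have h0 : p' ≠ 0 := by
    intro h
    rw [h, norm_zero] at h3
    norm_num at h3
  have hpos : 0 < ‖p'‖ := norm_pos_iff.2 h0
  refine ⟨h0, ?_, ?_⟩
  · have : (p - R) / p' - 1 = ((p - R - 1) - (p' - 1)) / p' := by
      field_simp
      ring
    rw [this, norm_div, div_le_iff₀ hpos]
    refine (norm_sub_le _ _).trans ?_
    linarith
  · have : 1 / p' - 1 = -(p' - 1) / p' := by
      field_simp
      ring
    rw [this, norm_div, norm_neg, div_le_iff₀ hpos]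
    linarith

theorem norm_exp_div_sub_one {z : ℂ} {n : ℕ} (hn : 1 ≤ n) (h : ‖z‖ ≤ 1 / 10000 * n) :
    ‖exp (z / n) - 1‖ ≤ 2 / 10000 := by
  have hn' : (0 : ℝ) < n := by exact_mod_cast hn
  have h1 : ‖z / n‖ ≤ 1 / 10000 := by
    rw [norm_div, Complex.norm_natCast, div_le_iff₀ hn']
    exact h
  have h2 := Complex.norm_exp_sub_one_le (x := z / n) (by linarith)
  linarith

theorem Data.main (D : Data) : ∃ N : ℕ, ∀ n : ℕ, N ≤ n → ∃ (P : ℂ[X]) (V : Set ℂ), 1 ≤ n ∧
    1 ≤ P.natDegree ∧ IsOpen V ∧ V ⊆ ball (0 : ℂ) 1 ∧ (0 : ℂ) ∈ V ∧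
    (∀ s ∈ closure V, P.eval s ≠ 0) ∧ ∀ s ∈ frontier V, GP P n s ≠ 0 ∧ TS P n s ∉ V := by
  obtain ⟨Φ, hΦ, hΦb⟩ := D.prim
  obtain ⟨nG, hgap⟩ := gap
  obtain ⟨nE, hexit⟩ := D.exit
  obtain ⟨K, nN, hK, hnN, hnear⟩ := D.near_one
  obtain ⟨dE, hdE, hsep⟩ := exp_sep D
  obtain ⟨c₀, rE, hc₀, hc₀2, hrE, hsm⟩ := small_w D
  have hS := D.hS
  have hΦc : ContinuousOn Φ D.W := fun s hs => (hΦ s hs).continuousAt.continuousWithinAt
  obtain ⟨Bb, hBb⟩ := D.hKb.exists_bound_of_continuousOn (hΦc.mono fun η hη => hη.1)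
  obtain ⟨nP, hnP⟩ := hΦb (c₀ * D.S / 2) (1 / 10000) (by positivity) (by norm_num)
  obtain ⟨n0, hn0⟩ := exists_nat_ge (K / rE + K / dE + 2000 * K + 4 * D.S / D.r
    + 10000 * |Bb| + 2 * D.S)
  refine ⟨n0 + nG + nE + nN + nP + 4, fun n hn => ?_⟩
  have hn1 : 1 ≤ n := by omega
  have hnpos : (0 : ℝ) < n := by exact_mod_cast hn1
  have hn0' : (n0 : ℝ) + 4 ≤ n := by
    have : n0 + 4 ≤ n := by omega
    exact_mod_cast this
  have hr := D.hr
  have t1 : 0 ≤ K / rE := by positivity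
  have t2 : 0 ≤ K / dE := by positivity
  have t3 : 0 ≤ 4 * D.S / D.r := by positivity
  have t4 : 0 ≤ 10000 * |Bb| := by positivity
  have e1 : K / n < rE := by
    rw [div_lt_iff₀ hnpos, ← div_lt_iff₀' hrE]
    linarith
  have e2 : K / n < dE := by
    rw [div_lt_iff₀ hnpos, ← div_lt_iff₀' hdE]
    linarith
  have e3 : K / n ≤ 1 / 2000 := by
    rw [div_le_iff₀ hnpos]
    linarith
  have e4 : 2 * D.S / n ≤ D.r / 2 := by
    rw [div_le_iff₀ hnpos]
    have : 4 * D.S / D.r ≤ n := by linarith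
    rw [div_le_iff₀ hr] at this
    linarith
  have e5 : Bb ≤ 1 / 10000 * n := by
    have := le_abs_self Bb
    linarith
  have e6 : 2 * D.S / n < 1 := by
    rw [div_lt_iff₀ hnpos]
    linarith
  -- the radii
  set a : ℝ := c₀ * D.S / 2 / n with ha
  set a' : ℝ := c₀ * D.S / n with ha'
  set B : ℝ := 2 * D.S / n with hB
  have hapos : 0 < a := by positivity
  have haa : a < a' := by
    rw [ha, ha']
    gcongr
    linarith [mul_pos hc₀ hS]
  have haB : a' < B := by
    rw [ha', hB]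
    gcongr
  -- the compact set
  set KV : Set ℂ := closure D.V0 ∩ {s | a ≤ ‖1 - s‖} with hKVdef
  have hVb : Bornology.IsBounded D.V0 :=
    (isBounded_ball (x := (0 : ℂ)) (r := 1)).subset (D.V0_sub.trans D.hWb)
  have hKVc : IsCompact KV := hVb.isCompact_closure.inter_right
    (isClosed_le continuous_const (by fun_prop))
  have hne1 : ∀ s : ℂ, a ≤ ‖1 - s‖ → s ≠ 1 := by
    rintro s hs rfl
    simp only [sub_self, norm_zero] at hs
    linarith
  have hKVW : KV ⊆ D.W := fun s hs => (D.closure_V0 hs.1 (hne1 s hs.2)).1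
  have hKVG : ∀ s ∈ KV, 1 / 4 ≤ (D.G s).re := fun s hs => (D.closure_V0 hs.1 (hne1 s hs.2)).2
  -- exits
  set F : Set ℂ := frontier D.V0 ∩ {s | a ≤ ‖1 - s‖} with hF
  have hFKV : F ⊆ KV := fun s hs => ⟨frontier_subset_closure hs.1, hs.2⟩
  have hFc : IsCompact F := hKVc.of_isClosed_subset
    (isClosed_frontier.inter (isClosed_le continuous_const (by fun_prop))) hFKV
  obtain ⟨δ₁, x₀, hδ₁, hδ₁8, hx₀, hrob⟩ := exit_robust D n F hFc (hFKV.trans hKVW)
    (fun s hs => ⟨hKVG s (hFKV hs), (hexit n (by omega) s hs.1 (hne1 s hs.2)).2.2⟩)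
  -- bounds
  obtain ⟨BG, hBG⟩ := hKVc.exists_bound_of_continuousOn (D.contG.mono hKVW)
  obtain ⟨BP, hBP⟩ := hKVc.exists_bound_of_continuousOn
    (f := fun s => exp (Φ s / n)) (by
      apply Continuous.comp_continuousOn continuous_exp
      exact (hΦc.mono hKVW).div_const _)
  have hKV0 : KV.Nonempty := by
    refine ⟨0, subset_closure ⟨D.h0W, ?_⟩, ?_⟩
    · rw [D.hG0]
      norm_num
    · simp only [mem_setOf_eq, sub_zero, norm_one]
      linarith
  have hBG0 : 0 ≤ BG := by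
    obtain ⟨s, hs⟩ := hKV0
    exact (norm_nonneg _).trans (hBG s hs)
  have hBP0 : 0 ≤ BP := by
    obtain ⟨s, hs⟩ := hKV0
    exact (norm_nonneg _).trans (hBP s hs)
  set H : ℝ := 3 * ((BP + 1) * (BG + 1)) with hH
  obtain ⟨m₀, hm₀⟩ := phase D.b D.ρ (H + 3) D.hρ
  set δ : ℝ := min δ₁ (1 / 100000) with hδdef
  have hδ : 0 < δ := by positivity
  have hδ1 : δ ≤ δ₁ := min_le_left _ _
  have hδ2 : δ ≤ 1 / 100000 := min_le_right _ _
  obtain ⟨m, hm, hmj, P, hPd, hP1, hP2, hP3, hP4⟩ :=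
    D.poly Φ hΦ n hn1 KV hKVc hKVW hKVG δ hδ H x₀ (9 ^ n) m₀ hx₀
  -- facts on KV
  have gre : ∀ s ∈ KV, 1 / 8 ≤ (GP P n s).re := by
    intro s hs
    have h1 := (hP1 s hs).2.1
    have h2 : |(GP P n s - D.G s).re| ≤ 1 / 100000 := (abs_re_le_norm _).trans (h1.trans hδ2)
    rw [sub_re] at h2
    have h3 := (abs_le.1 h2).1
    have h4 := hKVG s hs
    linarith
  have gne : ∀ s ∈ KV, GP P n s ≠ 0 := by
    intro s hs h0
    have h1 := gre s hs
    rw [h0] at h1
    norm_num at h1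
  have gbd : ∀ s ∈ KV, ‖P.eval s * GP P n s‖ ≤ (BP + 1) * (BG + 1) := by
    intro s hs
    rw [norm_mul]
    have h1 := (hP1 s hs).2.1
    have h2 := (hP1 s hs).2.2
    have h3 : ‖GP P n s‖ ≤ BG + 1 := by
      have : GP P n s = (GP P n s - D.G s) + D.G s := by ring
      rw [this]
      refine (norm_add_le _ _).trans ?_
      linarith [hBG s hs]
    have h4 : ‖P.eval s‖ ≤ BP + 1 := by
      have : P.eval s = (P.eval s - exp (Φ s / n)) + exp (Φ s / n) := by ring
      rw [this]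
      refine (norm_add_le _ _).trans ?_
      linarith [hBP s hs]
    exact mul_le_mul h4 h3 (norm_nonneg _) (by linarith)
  have etab : ∀ s ∈ KV, ‖eta P n s‖ ≤ 9 ^ n := by
    intro s hs
    unfold eta
    rw [norm_mul, norm_pow]
    have h1 : ‖s‖ ≤ 1 := by
      have := D.hWb (hKVW hs)
      rw [mem_ball_zero_iff] at this
      exact this.le
    have h2 : 1 / 8 ≤ ‖GP P n s‖ := (gre s hs).trans (re_le_norm _)
    have h3 : ‖1 - 1 / GP P n s‖ ≤ 9 := by
      refine (norm_sub_le _ _).trans ?_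
      rw [norm_one, norm_div, norm_one]
      have : 1 / ‖GP P n s‖ ≤ 8 := by
        rw [div_le_iff₀ (by linarith)]
        linarith
      linarith
    calc ‖s‖ * ‖1 - 1 / GP P n s‖ ^ n ≤ 1 * 9 ^ n := by
          apply mul_le_mul h1 _ (by positivity) zero_le_one
          exact pow_le_pow_left₀ (norm_nonneg _) h3 n
      _ = 9 ^ n := one_mul _
  -- near one
  have near : ∀ s ∈ KV, ‖1 - s‖ ≤ B →
      ‖eta P n s - exp (-(n * (1 - s) / D.S))‖ ≤ K / n ∧
      ‖n / GP P n s - n * (1 - s) / D.S‖ ≤ K / n := by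
    intro s hs hsB
    have h1 := hnear n (by omega) s (hne1 s hs.2) hsB (GP P n s) ((hP1 s hs).2.1.trans (by linarith))
    exact h1.2
  have normw : ∀ s : ℂ, ‖(n : ℂ) * (1 - s) / D.S‖ = n * ‖1 - s‖ / D.S := by
    intro s
    rw [norm_div, norm_mul, Complex.norm_natCast, Complex.norm_real, Real.norm_of_nonneg hS.le]
  have rew : ∀ s : ℂ, ‖s‖ ≤ 1 → 0 ≤ ((n : ℂ) * (1 - s) / D.S).re := by
    intro s hs
    have h1 : ((n : ℂ) * (1 - s) / D.S) = (((n : ℝ) / D.S : ℝ) : ℂ) * (1 - s) := by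
      push_cast
      ring
    rw [h1, re_ofReal_mul]
    apply mul_nonneg (by positivity)
    rw [sub_re, one_re]
    linarith [(re_le_norm s).trans hs]
  have hKVn : ∀ s ∈ KV, ‖s‖ < 1 := by
    intro s hs
    have := D.hWb (hKVW hs)
    rwa [mem_ball_zero_iff] at this
  -- the cut domain
  have hcut := cut_frontier D.V0 D.E (eta P n) a a' B haa haB D.V0_open hVb D.hEo (by
      have hsub : {s | s ∈ closure D.V0 ∧ a ≤ ‖1 - s‖ ∧ ‖1 - s‖ ≤ B} ⊆ KV :=
        fun s hs => ⟨hs.1, hs.2.1⟩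
      unfold eta
      apply continuousOn_id.mul
      apply ContinuousOn.pow
      apply continuousOn_const.sub
      apply continuousOn_const.div _ (fun s hs => gne s (hsub hs))
      unfold GP
      apply continuousOn_const.add
      apply ContinuousOn.div (by fun_prop) (by fun_prop) (fun s hs => (hP1 s (hsub hs)).1))
    (by
      intro s hs h1 h2
      have hsKV : s ∈ KV := ⟨subset_closure hs, h1.le⟩
      have h3 := (near s hsKV (h2.trans haB.le)).1
      refine hsm _ ?_ _ (lt_of_le_of_lt h3 e1)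
      rw [normw, div_le_iff₀ hS]
      rw [ha', le_div_iff₀ hnpos] at h2
      linarith)
    (by
      intro s hs h1
      have hsKV : s ∈ KV := ⟨hs, by rw [mem_setOf_eq, h1]; linarith⟩
      have h3 := (near s hsKV h1.le).1
      refine hsep _ ?_ (rew s (hKVn s hsKV).le) _ (lt_of_le_of_lt h3 e2)
      rw [normw, h1, hB]
      field_simp)
  obtain ⟨hVo, hVcl, hVfr⟩ := hcut
  have hclKV : closure (cut D.V0 D.E (eta P n) a B) ⊆ KV :=
    fun s hs => ⟨(hVcl hs).1, haa.le.trans (hVcl hs).2⟩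
  have hVball : cut D.V0 D.E (eta P n) a B ⊆ ball (0 : ℂ) 1 :=
    fun s hs => D.hWb (D.V0_sub hs.1)
  refine ⟨P, cut D.V0 D.E (eta P n) a B, hn1, hPd, hVo, hVball, ?_,
    fun s hs => (hP1 s (hclKV hs)).1, ?_⟩
  · refine ⟨⟨D.h0W, ?_⟩, ?_, ?_⟩
    · rw [D.hG0]
      norm_num
    · rw [sub_zero, norm_one]
      linarith
    · rw [sub_zero, norm_one]
      intro h
      linarith [h.1]
  · intro s hs
    have hsKV : s ∈ KV := hclKV (frontier_subset_closure hs)
    refine ⟨gne s hsKV, ?_⟩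
    -- big norms are outside
    have hout : 1 ≤ ‖TS P n s‖ → TS P n s ∉ cut D.V0 D.E (eta P n) a B := by
      intro h1 h2
      have := hVball h2
      rw [mem_ball_zero_iff] at this
      linarith
    have hbig : H ≤ ‖P.eval (eta P n s)‖ →
        2 ≤ ‖1 - P.eval (eta P n s) / (P.eval s * GP P n s)‖ := by
      intro h1
      apply norm_one_sub_ge
      have hne : P.eval s * GP P n s ≠ 0 := mul_ne_zero (hP1 s hsKV).1 (gne s hsKV)
      rw [norm_div, le_div_iff₀ (norm_pos_iff.2 hne)]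
      have := gbd s hsKV
      calc 3 * ‖P.eval s * GP P n s‖ ≤ 3 * ((BP + 1) * (BG + 1)) := by linarith
        _ ≤ _ := h1
    rcases hVfr s hs with h1 | ⟨h1, h2⟩
    · -- exits
      have hsF : s ∈ F := ⟨h1, hsKV.2⟩
      have h3 : x₀ ≤ ‖eta P n s‖ := hrob s hsF (GP P n s) ((hP1 s hsKV).2.1.trans hδ1)
      have h4 := hbig (hP4 _ h3 (etab s hsKV))
      apply hout
      rw [TS_eq, norm_mul, norm_pow]
      have h5 : (1 : ℝ) ≤ ‖1 - P.eval (eta P n s) / (P.eval s * GP P n s)‖ ^ n :=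
        one_le_pow₀ (by linarith)
      nlinarith
    · -- the cut
      have hn4 := near s hsKV h1.le
      have hw2 : ‖(n : ℂ) * (1 - s) / D.S‖ ≤ 2 := by
        rw [normw, div_le_iff₀ hS]
        rw [hB, lt_div_iff₀ hnpos] at h1
        linarith
      have hwre := rew s (hKVn s hsKV).le
      have hetal : 1 / 16 ≤ ‖eta P n s‖ := by
        have h3 : ‖exp (-(n * (1 - s) / D.S))‖ - ‖eta P n s‖ ≤ K / n := by
          have := norm_sub_norm_le (exp (-(n * (1 - s) / D.S))) (eta P n s)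
          rw [norm_sub_rev] at this
          linarith [hn4.1]
        have h4 : 1 / 8 ≤ ‖exp (-(n * (1 - s) / D.S))‖ := by
          rw [norm_exp, neg_re]
          have h5 : ((n : ℂ) * (1 - s) / D.S).re ≤ 2 := (re_le_norm _).trans hw2
          have h6 : Real.exp (-2) ≤ Real.exp (-((n : ℂ) * (1 - s) / D.S).re) :=
            Real.exp_le_exp.2 (by linarith)
          refine le_trans ?_ h6
          rw [Real.exp_neg, ← one_div]
          apply one_div_le_one_div_of_le (Real.exp_pos _)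
          have h7 : Real.exp 2 = Real.exp 1 ^ 2 := by
            rw [← Real.exp_nat_mul]
            norm_num
          rw [h7]
          have h8 := Real.exp_one_lt_d9
          have h9 := Real.exp_pos 1
          nlinarith
        linarith
      have hlarge : H ≤ ‖P.eval (eta P n s)‖ → TS P n s ∉ cut D.V0 D.E (eta P n) a B := by
        intro h3
        apply hout
        rw [TS_eq, norm_mul, norm_pow]
        have h4 := hbig h3
        have h5 : (2 : ℝ) ^ 4 ≤ ‖1 - P.eval (eta P n s) / (P.eval s * GP P n s)‖ ^ n := by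
          calc (2 : ℝ) ^ 4 ≤ 2 ^ n := pow_le_pow_right₀ (by norm_num) (by omega)
            _ ≤ _ := pow_le_pow_left₀ (by norm_num) h4 n
        nlinarith
      rcases D.hfr _ h2 with hA | hBt | hC
      · exact hlarge (hP3 _ h2 (Or.inl hA))
      · -- the gap
        obtain ⟨hb1, hb2, hb3, hb4⟩ := hBt
        set R : ℂ := I * exp (I * m * D.b) * exp (-m * D.G (eta P n s)) with hR
        have hPη := hP2 _ hb1 hb2 hb3
        rw [← hR] at hPη
        have hAη := norm_exp_div_sub_one hn1 ((hBb _ ⟨hb1, hb2, hb3⟩).trans e5)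
        have hAs := norm_exp_div_sub_one hn1 (hnP n (by omega) s (hKVn s hsKV)
          (h1.le.trans e4) hsKV.2)
        obtain ⟨hp0, hq0, hq1⟩ := gap_numbers hδ2 hAη hAs hPη (hP1 s hsKV).2.2
        have hfin : (‖R‖ ≤ 1 / 50 ∨ ‖R - I * ‖R‖‖ ≤ ‖R‖ / 100) →
            TS P n s ∉ cut D.V0 D.E (eta P n) a B := by
          intro hph
          have h3 := hgap n (by omega) (n * (1 - s) / D.S) (eta P n s) (n / GP P n s)
            ((P.eval (eta P n s) - R) / P.eval s) (1 / P.eval s) R hw2 hb4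
            (hn4.1.trans e3) (hn4.2.trans e3) hq0 hq1 hph
          have hnC : (n : ℂ) ≠ 0 := by exact_mod_cast hnpos.ne'
          have h4 : (n : ℂ) / GP P n s * ((P.eval (eta P n s) - R) / P.eval s
              + R * (1 / P.eval s)) / n = P.eval (eta P n s) / (P.eval s * GP P n s) := by
            have := gne s hsKV
            field_simp
            ring
          rw [h4, ← TS_eq] at h3
          rcases h3 with h3 | h3
          · exact hout h3
          · intro h5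
            have := D.hT _ h5.1.1 h5.1.2
            linarith
        rcases hm₀ m hm hmj (D.G (eta P n s)) hb3 with h3 | h3 | h3
        · exact hfin (Or.inl h3)
        · apply hlarge
          rw [← hR] at h3
          have h5 : ‖exp (Φ (eta P n s) / n)‖ ≤ 2 := by
            have : exp (Φ (eta P n s) / n) = (exp (Φ (eta P n s) / n) - 1) + 1 := by ring
            rw [this]
            refine (norm_add_le _ _).trans ?_
            rw [norm_one]
            linarith
          have h6 : ‖R‖ ≤ ‖P.eval (eta P n s)‖ + ‖exp (Φ (eta P n s) / n)‖ + δ := by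
            have : R = P.eval (eta P n s) - exp (Φ (eta P n s) / n)
                - (P.eval (eta P n s) - exp (Φ (eta P n s) / n) - R) := by ring
            calc ‖R‖ = ‖P.eval (eta P n s) - exp (Φ (eta P n s) / n)
                - (P.eval (eta P n s) - exp (Φ (eta P n s) / n) - R)‖ := by rw [← this]
              _ ≤ ‖P.eval (eta P n s) - exp (Φ (eta P n s) / n)‖
                + ‖P.eval (eta P n s) - exp (Φ (eta P n s) / n) - R‖ := norm_sub_le _ _
              _ ≤ _ := add_le_add (norm_sub_le _ _) hPη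
          linarith
        · exact hfin (Or.inr h3)
      · exact hlarge (hP3 _ h2 (Or.inr hC))

end Pool.Agent.TRB
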