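import Pool.Agent.TRB.Defs
import Pool.Agent.Hhelper2.Traub.Ray

/-!
# The certificate: a bounded open set whose boundary is mapped outside confines the immediate basin

PROOF. Write f = sphereMap (traub p 1), B = basin f a, T z = tv p z.
(F1) if p'(z) is not 0 then f z = T z (finite): Hhelper2/Traub/Ray.lean has traub_reg (with delta = 1) and
RegAt.sphere. T is continuous at every z with p'(z) not 0.
(F2) if w is a point with p'(w) = 0 and p(w) not 0 then the norm of T z tends to infinity as z -> w, z /= w
(p'(z) /= 0 near w, z /= w): N = z - p(z)/p'(z) tends to infinity, p'(z) tends to 0, p(N)/p'(z) is much bigger than N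
because natDegree p >= 2 (the norm of p(N)/N tends to infinity as N -> infinity).
(F3) T a = a, and since a is a simple root T'(a) = 0; so there is r0 > 0 with U0 = ball a r0 inside V, p' without zeros
on U0, and dist (T z) a <= dist z a / 2 on U0. In particular T maps U0 into U0 and U0 (coerced) lies in B.
Define Y 0 = U0, Y (k+1) = connectedComponentIn {z | z in V, p'(z) /= 0, T z in Y k} a. By induction every Y k is open
(connectedComponentIn of an open set of the plane), preconnected, contains a, Y k is contained in Y (k+1), Y k is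
contained in V, p' has no zero on Y k, and T maps Y (k+1) into Y k. Let Yi = union of the Y k: T maps Yi into Yi, Yi is
open and preconnected.
CLAIM: if x in B lies in the closure of the coerced Yi then x lies in the coerced Yi. Since Yi is inside the bounded V,
x = w is finite and w in closure Yi. (1) If w in closure Yi then p'(w) /= 0: otherwise by hsep p(w) /= 0, w is not in Yi
and (F2) contradicts T(Yi) inside V bounded. Hence f w = T w and T w in closure Yi by continuity. So all iterates of w
under T are in closure Yi, and f^[k] w is the coerced k-th iterate w_k. (2) If w_k in frontier V then w_(k+1) = T w_k is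
not in V but is in closure Yi, inside closure V, so it is in frontier V (V open); then all later w_j are in frontier V,
which contradicts f^[j] w -> a (a in the open V, neighbourhoods in OnePoint). So all w_k are in V (closure V minus
frontier V). (3) For some m the point w_m lies in U0. Show by induction on m: every w in closure Yi all of whose
iterates are in V and with w_m in U0 lies in Yi. m = 0 is clear. Step: T w in Yi by the induction hypothesis, say
T w in Y k. Choose a ball W0 around w inside V, p' /= 0 on W0, T(W0) inside Y k. It meets Yi, hence it meets Y j for all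
large j; take j > k. Then W0 is a preconnected subset of {z in V, p' /= 0, T z in Y (j-1)} which meets
Y j = component of a, so W0 is inside Y j.
So the coerced Yi is open and relatively closed in B; immediateBasin f a = connectedComponentIn B a is preconnected,
contains a (a in B), is inside B, hence it is inside the coerced Yi, which is inside the coerced V.
-/

set_option autoImplicit false

namespace Pool.Agent.TRB

open Polynomial Complex Metric Set Filter Topology Pool.Agent.Hhelper2.Traub

private theorem cert_map (p : ℂ[X]) (z : ℂ) (h : p.derivative.eval z ≠ 0) :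
    sphereMap (traub p 1) (z : OnePoint ℂ) = ((tv p z : ℂ) : OnePoint ℂ) := by
  have h1 := (traub_reg p 1 z h).sphere
  rw [h1, one_mul]
  rfl

private theorem cert_cont (p : ℂ[X]) (z : ℂ) (h : p.derivative.eval z ≠ 0) :
    ContinuousAt (tv p) z := by
  have h1 : ContinuousAt (fun z => p.eval z) z := p.continuous.continuousAt
  have h2 : ContinuousAt (fun z => p.derivative.eval z) z := p.derivative.continuous.continuousAt
  have h3 : ContinuousAt (fun z => z - p.eval z / p.derivative.eval z) z :=
    continuousAt_id.sub (h1.div h2 h)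
  have h4 : ContinuousAt (fun z => p.eval (z - p.eval z / p.derivative.eval z)) z :=
    ContinuousAt.comp (f := fun z => z - p.eval z / p.derivative.eval z) (g := fun w => p.eval w)
      p.continuous.continuousAt h3
  exact h3.sub (h4.div h2 h)

private theorem cert_fix (p : ℂ[X]) (a : ℂ) (ha : p.eval a = 0) : tv p a = a := by
  unfold tv
  rw [ha, zero_div, sub_zero, ha, zero_div, sub_zero]

private theorem cert_deriv (p : ℂ[X]) (a : ℂ) (ha : p.eval a = 0)
    (ha' : p.derivative.eval a ≠ 0) : HasDerivAt (tv p) 0 a := by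
  have hN : HasDerivAt (fun z => z - p.eval z / p.derivative.eval z) 0 a := by
    have h := (hasDerivAt_id a).sub ((p.hasDerivAt a).div (p.derivative.hasDerivAt a) ha')
    have h2 : (1 : ℂ) - (p.derivative.eval a * p.derivative.eval a -
        p.eval a * p.derivative.derivative.eval a) / p.derivative.eval a ^ 2 = 0 := by
      rw [ha, zero_mul, sub_zero]
      field_simp
      ring
    rw [h2] at h
    exact h
  have hNa : a - p.eval a / p.derivative.eval a = a := by rw [ha, zero_div, sub_zero]
  have hpN : HasDerivAt (fun z => p.eval (z - p.eval z / p.derivative.eval z)) 0 a := by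
    have h := HasDerivAt.comp (h₂ := fun w => p.eval w) a
      (p.hasDerivAt (a - p.eval a / p.derivative.eval a)) hN
    rw [mul_zero] at h
    exact h
  have h := hN.sub (hpN.div (p.derivative.hasDerivAt a) ha')
  have h2 : (0 : ℂ) - (0 * p.derivative.eval a -
      p.eval (a - p.eval a / p.derivative.eval a) * p.derivative.derivative.eval a) /
      p.derivative.eval a ^ 2 = 0 := by
    rw [hNa, ha]
    simp
  rw [h2] at h
  exact h

private theorem cert_contract (p : ℂ[X]) (a : ℂ) (ha : p.eval a = 0)
    (ha' : p.derivative.eval a ≠ 0) : ∀ᶠ z in 𝓝 a, ‖tv p z - a‖ ≤ 1 / 2 * ‖z - a‖ := by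
  have h := (hasDerivAt_iff_isLittleO.1 (cert_deriv p a ha ha')).def (c := 1 / 2) (by norm_num)
  filter_upwards [h] with z hz
  rw [smul_zero, sub_zero, cert_fix p a ha] at hz
  exact hz

private theorem cert_grow (p : ℂ[X]) (hd : 2 ≤ p.natDegree) {α : Type*} (l : Filter α)
    (N : α → ℂ) (hN : Tendsto (fun x => ‖N x‖) l atTop) : ∀ᶠ x in l, ‖N x‖ ≤ ‖p.eval (N x)‖ := by
  have h1 : 0 < p.divX.degree := by
    rw [← Polynomial.natDegree_pos_iff_degree_pos, Polynomial.natDegree_divX_eq_natDegree_tsub_one]
    omega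
  have h2 := Polynomial.tendsto_norm_atTop p.divX h1 hN
  filter_upwards [h2.eventually_ge_atTop 2, hN.eventually_ge_atTop ‖p.coeff 0‖] with x h3 h4
  have h5 : p.eval (N x) = p.divX.eval (N x) * N x + p.coeff 0 := by
    conv_lhs => rw [← Polynomial.divX_mul_X_add p]
    simp
  rw [h5]
  have h6 : ‖p.divX.eval (N x) * N x‖ - ‖p.coeff 0‖ ≤ ‖p.divX.eval (N x) * N x + p.coeff 0‖ := by
    have := norm_sub_norm_le (p.divX.eval (N x) * N x) (-p.coeff 0)
    rw [norm_neg, sub_neg_eq_add] at this
    exact this
  rw [norm_mul] at h6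
  have h7 : 2 * ‖N x‖ ≤ ‖p.divX.eval (N x)‖ * ‖N x‖ :=
    mul_le_mul_of_nonneg_right h3 (norm_nonneg _)
  linarith

private theorem cert_pole (p : ℂ[X]) (hd : 2 ≤ p.natDegree) (w : ℂ)
    (h0 : p.derivative.eval w = 0) (h1 : p.eval w ≠ 0) :
    Tendsto (fun z => ‖tv p z‖) (𝓝[≠] w) atTop := by
  have hp' : p.derivative ≠ 0 := by
    intro h
    have := Polynomial.derivative_eq_zero.1 h
    omega
  have hne : ∀ᶠ z in 𝓝[≠] w, p.derivative.eval z ≠ 0 := by
    have hfin : {z | p.derivative.eval z = 0}.Finite := by
      refine (Polynomial.rootSet_finite p.derivative ℂ).subset fun z hz => ?_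
      rw [Polynomial.mem_rootSet]
      refine ⟨hp', ?_⟩
      simpa using hz
    have h2 : ({z | p.derivative.eval z = 0} \ {w})ᶜ ∈ 𝓝 w := by
      apply (hfin.subset Set.sdiff_subset).isClosed.isOpen_compl.mem_nhds
      simp
    filter_upwards [mem_nhdsWithin_of_mem_nhds h2, self_mem_nhdsWithin] with z h3 h4 h5
    exact h3 ⟨h5, h4⟩
  have hc1 : Tendsto (fun z => ‖p.eval z‖) (𝓝[≠] w) (𝓝 ‖p.eval w‖) :=
    (p.continuous.norm.tendsto w).mono_left nhdsWithin_le_nhds
  have hc2 : Tendsto (fun z => ‖p.derivative.eval z‖) (𝓝[≠] w) (𝓝 0) := by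
    have := (p.derivative.continuous.norm.tendsto w).mono_left (nhdsWithin_le_nhds (s := {w}ᶜ))
    rw [h0, norm_zero] at this
    exact this
  have hc3 : Tendsto (fun z => ‖p.derivative.eval z‖) (𝓝[≠] w) (𝓝[>] 0) :=
    tendsto_nhdsWithin_iff.2 ⟨hc2, hne.mono fun z hz => norm_pos_iff.2 hz⟩
  have hc4 : Tendsto (fun z => ‖p.eval z / p.derivative.eval z‖) (𝓝[≠] w) atTop := by
    have h2 := hc3.inv_tendsto_nhdsGT_zero
    have h3 := hc1.pos_mul_atTop (norm_pos_iff.2 h1) h2
    refine h3.congr fun z => ?_
    rw [norm_div, div_eq_mul_inv]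
    rfl
  have hc5 : Tendsto (fun z => ‖z - p.eval z / p.derivative.eval z‖) (𝓝[≠] w) atTop := by
    have h2 : Tendsto (fun z : ℂ => -‖z‖) (𝓝[≠] w) (𝓝 (-‖w‖)) :=
      (continuous_norm.neg.tendsto w).mono_left nhdsWithin_le_nhds
    have h3 := h2.add_atTop hc4
    refine tendsto_atTop_mono (fun z => ?_) h3
    have := norm_sub_norm_le (p.eval z / p.derivative.eval z) z
    rw [norm_sub_rev] at this
    linarith
  have hg := cert_grow p hd _ _ hc5
  refine tendsto_atTop_mono' _ ?_ hc5
  have hsmall : ∀ᶠ z in 𝓝[≠] w, ‖p.derivative.eval z‖ < 1 / 2 :=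
    hc2.eventually_lt_const (by norm_num)
  filter_upwards [hg, hne, hsmall] with z h2 h3 h4
  set N := z - p.eval z / p.derivative.eval z with hNdef
  have h5 : tv p z = N - p.eval N / p.derivative.eval z := rfl
  have h6 := norm_sub_norm_le (p.eval N / p.derivative.eval z) N
  rw [norm_sub_rev (p.eval N / p.derivative.eval z) N, ← h5] at h6
  have h7 : 2 * ‖N‖ ≤ ‖p.eval N / p.derivative.eval z‖ := by
    rw [norm_div, le_div_iff₀ (norm_pos_iff.2 h3)]
    have := norm_nonneg N
    nlinarith [norm_nonneg (p.derivative.eval z)]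
  linarith

theorem cert (p : ℂ[X]) (hd : 2 ≤ p.natDegree) (a : ℂ) (ha : p.eval a = 0)
    (ha' : p.derivative.eval a ≠ 0) (V : Set ℂ) (hV : IsOpen V) (hb : Bornology.IsBounded V)
    (haV : a ∈ V) (hsep : ∀ z ∈ closure V, p.derivative.eval z = 0 → p.eval z ≠ 0)
    (hfr : ∀ z ∈ frontier V, p.derivative.eval z ≠ 0 ∧ tv p z ∉ V) :
    immediateBasin (sphereMap (traub p 1)) (a : OnePoint ℂ) ⊆ (fun z : ℂ => (z : OnePoint ℂ)) '' V := by
  set f := sphereMap (traub p 1) with hf
  set T := tv p with hT
  -- the domain of definition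
  set D : Set ℂ := V ∩ {z | p.derivative.eval z ≠ 0} with hD
  have hDo : IsOpen D := hV.inter (isOpen_ne_fun p.derivative.continuous continuous_const)
  have hTD : ContinuousOn T D := fun z hz => (cert_cont p z hz.2).continuousWithinAt
  have haD : a ∈ D := ⟨haV, ha'⟩
  -- the small ball
  obtain ⟨r, hr, hrD⟩ : ∃ r > 0, ∀ z ∈ ball a r, z ∈ D ∧ ‖T z - a‖ ≤ 1 / 2 * ‖z - a‖ := by
    have h0 : ∀ᶠ z in 𝓝 a, z ∈ D := hDo.mem_nhds haD
    have h1 : ∀ᶠ z in 𝓝 a, z ∈ D ∧ ‖T z - a‖ ≤ 1 / 2 * ‖z - a‖ :=
      h0.and (cert_contract p a ha ha')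
    obtain ⟨r, hr, h2⟩ := Metric.eventually_nhds_iff_ball.1 h1
    exact ⟨r, hr, h2⟩
  have hTball : ∀ z ∈ ball a r, T z ∈ ball a r := by
    intro z hz
    have h1 := (hrD z hz).2
    rw [mem_ball, dist_eq_norm] at *
    have := norm_nonneg (z - a)
    linarith
  -- the open set of good points
  let g : ℕ → Set ℂ := fun m => Nat.rec (ball a r) (fun _ s => D ∩ T ⁻¹' s) m
  have g0 : g 0 = ball a r := rfl
  have gs : ∀ m, g (m + 1) = D ∩ T ⁻¹' g m := fun m => rfl
  have gopen : ∀ m, IsOpen (g m) := by
    intro m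
    induction m with
    | zero => rw [g0]; exact isOpen_ball
    | succ m ih => rw [gs]; exact hTD.isOpen_inter_preimage hDo ih
  have gmono : ∀ m, g m ⊆ g (m + 1) := by
    intro m
    induction m with
    | zero =>
      rw [gs, g0]
      exact fun z hz => ⟨(hrD z hz).1, hTball z hz⟩
    | succ m ih =>
      rw [gs (m + 1)]
      intro z hz
      rw [gs] at hz
      exact ⟨hz.1, ih hz.2⟩
  have gD : ∀ m, g m ⊆ D := by
    intro m z hz
    have := gmono m hz
    rw [gs] at this
    exact this.1
  set G : Set ℂ := ⋃ m, g m with hG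
  have hGo : IsOpen G := isOpen_iUnion gopen
  have hGD : G ⊆ D := iUnion_subset gD
  have hGT : ∀ z ∈ G, T z ∈ G := by
    intro z hz
    obtain ⟨m, hm⟩ := mem_iUnion.1 hz
    have := gmono m hm
    rw [gs] at this
    exact mem_iUnion.2 ⟨m, this.2⟩
  have haG : a ∈ G := mem_iUnion.2 ⟨0, by rw [g0]; exact mem_ball_self hr⟩
  have hmemG : ∀ m (w : ℂ), (∀ j, T^[j] w ∈ D) → T^[m] w ∈ ball a r → w ∈ g m := by
    intro m
    induction m with
    | zero => intro w _ h; exact h
    | succ m ih =>
      intro w h1 h2
      rw [gs]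
      refine ⟨h1 0, ih (T w) (fun j => ?_) ?_⟩
      · have := h1 (j + 1)
        rw [Function.iterate_succ_apply] at this
        exact this
      · rw [Function.iterate_succ_apply] at h2
        exact h2
  -- its component
  set Y : Set ℂ := connectedComponentIn G a with hY
  have hYo : IsOpen Y := hGo.connectedComponentIn
  have hYG : Y ⊆ G := connectedComponentIn_subset G a
  have haY : a ∈ Y := mem_connectedComponentIn haG
  have hYc : IsPreconnected Y := isPreconnected_connectedComponentIn
  have hYV : Y ⊆ V := fun z hz => (hGD (hYG hz)).1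
  have hYT : MapsTo T Y Y := by
    have h1 : IsPreconnected (T '' Y) :=
      hYc.image T (hTD.mono (hYG.trans hGD))
    have h2 : T '' Y ⊆ Y := by
      apply h1.subset_connectedComponentIn
      · exact ⟨a, haY, cert_fix p a ha⟩
      · rintro _ ⟨z, hz, rfl⟩
        exact hGT z (hYG hz)
    exact fun z hz => h2 ⟨z, hz, rfl⟩
  -- points of the closure
  have hcl1 : ∀ w ∈ closure Y, p.derivative.eval w ≠ 0 := by
    intro w hw h0
    have hw2 : w ∈ closure V := closure_mono hYV hw
    have h1 := cert_pole p hd w h0 (hsep w hw2 h0)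
    have hwY : w ∉ Y := fun h => (hGD (hYG h)).2 h0
    have h2 : (𝓝[Y] w).NeBot := mem_closure_iff_nhdsWithin_neBot.1 hw
    have h3 : 𝓝[Y] w ≤ 𝓝[≠] w := by
      apply nhdsWithin_mono
      intro z hz hzw
      rw [mem_singleton_iff] at hzw
      rw [hzw] at hz
      exact hwY hz
    obtain ⟨R, hR⟩ := hb.exists_norm_le
    have h4 : ∀ᶠ z in 𝓝[Y] w, R < ‖T z‖ := (h1.mono_left h3).eventually_gt_atTop R
    have h5 : ∀ᶠ z in 𝓝[Y] w, z ∈ Y := self_mem_nhdsWithin
    obtain ⟨z, hz1, hz2⟩ := (h4.and h5).exists
    exact absurd (hR _ (hYV (hYT hz2))) (not_le.2 hz1)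
  have hcl2 : ∀ w ∈ closure Y, T w ∈ closure Y := fun w hw =>
    (cert_cont p w (hcl1 w hw)).continuousWithinAt.mem_closure hw hYT
  have hcl3 : ∀ w ∈ closure Y, ∀ k, T^[k] w ∈ closure Y := by
    intro w hw k
    induction k with
    | zero => exact hw
    | succ k ih =>
      rw [Function.iterate_succ_apply']
      exact hcl2 _ ih
  have hcl4 : ∀ w ∈ closure Y, ∀ k, f^[k] (w : OnePoint ℂ) = ((T^[k] w : ℂ) : OnePoint ℂ) := by
    intro w hw k
    induction k with
    | zero => rfl
    | succ k ih =>
      rw [Function.iterate_succ_apply', Function.iterate_succ_apply', ih, hf,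
        cert_map p _ (hcl1 _ (hcl3 w hw k))]
  -- the main claim
  have hmain : ∀ w ∈ closure Y, (w : OnePoint ℂ) ∈ basin f (a : OnePoint ℂ) → w ∈ Y := by
    intro w hw hwB
    have hconv : Tendsto (fun n => T^[n] w) atTop (𝓝 a) := by
      have h1 : Tendsto (fun n => f^[n] (w : OnePoint ℂ)) atTop (𝓝 (a : OnePoint ℂ)) := hwB
      rw [OnePoint.isOpenEmbedding_coe.isInducing.tendsto_nhds_iff]
      refine h1.congr fun n => ?_
      rw [hcl4 w hw n]
      rfl
    have hV1 : ∀ k, T^[k] w ∈ V := by
      intro k
      by_contra hk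
      have h1 : ∀ j, T^[k + j] w ∉ V := by
        intro j
        induction j with
        | zero => exact hk
        | succ j ih =>
          have h2 : T^[k + j] w ∈ frontier V := by
            rw [hV.frontier_eq]
            exact ⟨closure_mono hYV (hcl3 w hw _), ih⟩
          rw [← add_assoc, Function.iterate_succ_apply']
          exact (hfr _ h2).2
      have h2 : ∀ᶠ n in atTop, T^[n] w ∈ V := hconv.eventually_mem (hV.mem_nhds haV)
      obtain ⟨n, hn⟩ := (h2.and (eventually_ge_atTop k)).exists
      obtain ⟨j, rfl⟩ := Nat.exists_eq_add_of_le hn.2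
      exact h1 j hn.1
    have hD1 : ∀ k, T^[k] w ∈ D := fun k => ⟨hV1 k, hcl1 _ (hcl3 w hw k)⟩
    obtain ⟨m, hm⟩ := (hconv.eventually_mem (ball_mem_nhds a hr)).exists
    have hwG : w ∈ G := mem_iUnion.2 ⟨m, hmemG m w hD1 hm⟩
    have h3 : IsPreconnected (insert w Y) :=
      hYc.subset_closure (subset_insert w Y) (insert_subset hw subset_closure)
    exact h3.subset_connectedComponentIn (mem_insert_of_mem w haY)
      (insert_subset hwG hYG) (mem_insert w Y)
  -- conclusion
  have haB : (a : OnePoint ℂ) ∈ basin f (a : OnePoint ℂ) := by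
    have h1 : ∀ n, f^[n] (a : OnePoint ℂ) = (a : OnePoint ℂ) := by
      intro n
      rw [hcl4 a (subset_closure haY) n]
      congr 1
      exact Function.iterate_fixed (cert_fix p a ha) n
    show Tendsto (fun n => f^[n] (a : OnePoint ℂ)) atTop (𝓝 (a : OnePoint ℂ))
    simp only [h1]
    exact tendsto_const_nhds
  have hopen : IsOpen ((fun z : ℂ => (z : OnePoint ℂ)) '' Y) :=
    OnePoint.isOpenEmbedding_coe.isOpenMap Y hYo
  have hcomp : IsCompact (closure Y) := (hb.subset hYV).isCompact_closure
  have hclosed : IsClosed ((fun z : ℂ => (z : OnePoint ℂ)) '' closure Y) :=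
    (hcomp.image OnePoint.continuous_coe).isClosed
  have hsub : immediateBasin f (a : OnePoint ℂ) ⊆ (fun z : ℂ => (z : OnePoint ℂ)) '' Y := by
    apply IsPreconnected.subset_of_closure_inter_subset (isPreconnected_connectedComponentIn) hopen
    · exact ⟨a, mem_connectedComponentIn haB, a, haY, rfl⟩
    · rintro x ⟨hx1, hx2⟩
      have h1 : x ∈ (fun z : ℂ => (z : OnePoint ℂ)) '' closure Y :=
        closure_minimal (image_mono subset_closure) hclosed hx1
      obtain ⟨w, hw, rfl⟩ := h1
      exact ⟨w, hmain w hw (connectedComponentIn_subset _ _ hx2), rfl⟩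
  exact hsub.trans (image_mono hYV)

end Pool.Agent.TRB
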