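import Mathlib
import Pool.Agent.Lib.HolomorphicPrimitives
import Pool.Agent.Hhelper2.Traub.Defs

/-!
# Traub's map: definitions for the construction of a bounded immediate basin
-/

set_option autoImplicit false

namespace Pool.Agent.TRB

open Polynomial Complex Metric Set Filter Topology

/-- Traub's map at a finite point (junk value at the zeros of the derivative) -/
noncomputable def tv (p : ℂ[X]) (z : ℂ) : ℂ :=
  (z - p.eval z / p.derivative.eval z)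
    - p.eval (z - p.eval z / p.derivative.eval z) / p.derivative.eval z

/-- for `p = z P(z^n)`, `s = z^n`: `z p'(z) / p(z) = GP P n s` -/
noncomputable def GP (P : ℂ[X]) (n : ℕ) (s : ℂ) : ℂ :=
  1 + n * s * P.derivative.eval s / P.eval s

/-- for `p = z P(z^n)`, `s = z^n`: the `n`-th power of Newton's map at `z` -/
noncomputable def eta (P : ℂ[X]) (n : ℕ) (s : ℂ) : ℂ := s * (1 - 1 / GP P n s) ^ n

/-- for `p = z P(z^n)`, `s = z^n`: the `n`-th power of Traub's map at `z` -/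
noncomputable def TS (P : ℂ[X]) (n : ℕ) (s : ℂ) : ℂ :=
  s * ((1 - 1 / GP P n s) * (1 - P.eval (eta P n s) / (P.eval s * GP P n s))) ^ n

/-- every point outside `U` lies in an unbounded connected subset of the complement of `U` -/
def RungeSet (U : Set ℂ) : Prop :=
  ∀ a, a ∉ U → ∃ C : Set ℂ, IsPreconnected C ∧ a ∈ C ∧ C ⊆ Uᶜ ∧ ¬ Bornology.IsBounded C

/-- the centre of the gap -/
noncomputable def sg : ℂ := (3 - 4 * I) / 5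

/-- The geometric data of the construction. -/
structure Data where
  W : Set ℂ
  U : Set ℂ
  E : Set ℂ
  G : ℂ → ℂ
  S : ℝ
  r : ℝ
  C : ℝ
  b : ℝ
  ρ : ℝ
  h : ℝ
  k : ℕ
  hWo : IsOpen W
  hUo : IsOpen U
  hWU : W ⊆ U
  hWb : W ⊆ ball (0 : ℂ) 1
  h0W : (0 : ℂ) ∈ W
  hRW : RungeSet W
  hRU : RungeSet U
  hPW : Pool.Lib.HasPrimitives W
  hG : DifferentiableOn ℂ G U
  hG0 : G 0 = 1
  hS : 0 < S
  hr : 0 < r
  hr2 : r ≤ 1 / 2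
  hrW : ball (1 : ℂ) r ∩ ball (0 : ℂ) 1 ⊆ W
  hpole : ∀ s ∈ ball (1 : ℂ) r, s ≠ 1 → ‖G s - S / (1 - s)‖ ≤ C
  hV : closure {s | s ∈ W ∧ 1 / 4 < (G s).re} ⊆ W ∪ {1}
  hT : ∀ s ∈ W, 1 / 4 < (G s).re → 1 / 20 ≤ ‖s - sg ^ 2‖
  hEo : IsOpen E
  hEb : Bornology.IsBounded E
  h1E : (1 : ℂ) ∈ E
  hE2 : ∀ ω : ℂ, ‖ω‖ = 2 → 0 ≤ ω.re → exp (-ω) ∉ closure E
  hh : 0 < h
  hk : 1 ≤ k
  hρ : 0 < ρ
  hfr : ∀ η ∈ frontier E, (η ∈ U ∧ (G η).re ≤ -1 / 2 ∧ ‖η‖ < Real.exp h) ∨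
    (η ∈ W ∧ -1 / 2 ≤ (G η).re ∧ ‖G η - b * I‖ = ρ ∧ ‖η - sg‖ ≤ 1 / 300) ∨ ‖η‖ = Real.exp h
  hKb : IsCompact {η | η ∈ W ∧ -1 / 2 ≤ (G η).re ∧ ‖G η - b * I‖ = ρ}
  hc : ∃ c : ℝ, 0 < c ∧ ∀ η ∈ frontier E, 1 - c < ‖η‖ → ‖η‖ < Real.exp h →
    η = ‖η‖ * exp ((Real.pi / k : ℝ) * I) ∨ η = ‖η‖ * exp (-((Real.pi / k : ℝ) * I))
  hp1 : exp ((Real.pi / k : ℝ) * I) ∈ U ∧ (G (exp ((Real.pi / k : ℝ) * I))).re ≤ -1 / 2
  hp2 : exp (-((Real.pi / k : ℝ) * I)) ∈ U ∧ (G (exp (-((Real.pi / k : ℝ) * I)))).re ≤ -1 / 2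

/-- the domain `Re G > 1/4` -/
def Data.V0 (D : Data) : Set ℂ := {s | s ∈ D.W ∧ 1 / 4 < (D.G s).re}

end Pool.Agent.TRB
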