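import Pool.Agent.TRB.Cert

/-!
# The certificate for n-fold symmetric polynomials

PROOF. Put p = X * P.comp (X ^ n), Vz = {z | z^n in V}. natDegree p = 1 + n * natDegree P >= 2, p(0) = 0, p'(0) = P(0)
/= 0 (0 in V inside closure V). For s = z^n: p(z) = z P(s), p'(z) = P(s) + n s P'(s) = P(s) * GP P n s if P(s) /= 0.
Vz is open, contains 0, is inside ball 0 1 (norm of z^n is less than 1, n >= 1), closure Vz is inside the preimage of
closure V, frontier Vz inside the preimage of frontier V (Continuous.frontier_preimage_subset). Apply cert with V := Vz,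
a = 0. hsep: z in closure Vz: p(z) = z P(z^n) is 0 only for z = 0, where p'(0) /= 0. hfr: z in frontier Vz, s = z^n in
frontier V, g = GP P n s /= 0, so p'(z) /= 0, N = z - p(z)/p'(z) = z (1 - 1/g), N^n = s (1 - 1/g)^n = eta P n s,
p(N) = N P(N^n), tv p z = z (1 - 1/g) (1 - P(eta)/(P(s) g)) and its n-th power is TS P n s, not in V.
-/

set_option autoImplicit false

namespace Pool.Agent.TRB

open Polynomial Complex Metric Set Filter Topology Pool.Agent.Hhelper2.Traub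

theorem fold_eval (P : ℂ[X]) (n : ℕ) (z : ℂ) :
    (X * P.comp (X ^ n)).eval z = z * P.eval (z ^ n) := by
  simp [eval_comp]

theorem fold_deriv (P : ℂ[X]) (n : ℕ) (hn : 1 ≤ n) (z : ℂ) :
    (derivative (X * P.comp (X ^ n))).eval z =
      P.eval (z ^ n) + n * z ^ n * P.derivative.eval (z ^ n) := by
  obtain ⟨m, rfl⟩ : ∃ m, n = m + 1 := ⟨n - 1, by omega⟩
  simp only [derivative_mul, derivative_X, derivative_comp, derivative_X_pow, eval_add, eval_mul,
    eval_comp, eval_pow, eval_X, one_mul, eval_natCast, Nat.add_sub_cancel, map_natCast]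
  push_cast
  ring

theorem fold_deriv' (P : ℂ[X]) (n : ℕ) (hn : 1 ≤ n) (z : ℂ) (hP : P.eval (z ^ n) ≠ 0) :
    (derivative (X * P.comp (X ^ n))).eval z = P.eval (z ^ n) * GP P n (z ^ n) := by
  rw [fold_deriv P n hn]
  unfold GP
  field_simp

theorem fold_tv (P : ℂ[X]) (n : ℕ) (hn : 1 ≤ n) (z : ℂ) (hP : P.eval (z ^ n) ≠ 0)
    (hg : GP P n (z ^ n) ≠ 0) :
    (tv (X * P.comp (X ^ n)) z) ^ n = TS P n (z ^ n) := by
  unfold tv
  rw [fold_eval, fold_deriv' P n hn z hP]
  have e1 : z - z * P.eval (z ^ n) / (P.eval (z ^ n) * GP P n (z ^ n)) =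
      z * (1 - 1 / GP P n (z ^ n)) := by
    field_simp
  rw [e1, fold_eval]
  have e2 : (z * (1 - 1 / GP P n (z ^ n))) ^ n = eta P n (z ^ n) := by
    unfold eta
    rw [mul_pow]
  rw [e2]
  have e3 : z * (1 - 1 / GP P n (z ^ n)) - z * (1 - 1 / GP P n (z ^ n)) *
      P.eval (eta P n (z ^ n)) / (P.eval (z ^ n) * GP P n (z ^ n)) =
      z * ((1 - 1 / GP P n (z ^ n)) *
        (1 - P.eval (eta P n (z ^ n)) / (P.eval (z ^ n) * GP P n (z ^ n)))) := by
    ring
  rw [e3, mul_pow]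
  rfl

theorem cert_fold (P : ℂ[X]) (n : ℕ) (hn : 1 ≤ n) (hdeg : 1 ≤ P.natDegree) (V : Set ℂ)
    (hV : IsOpen V) (hVb : V ⊆ ball (0 : ℂ) 1) (h0 : (0 : ℂ) ∈ V)
    (hP : ∀ s ∈ closure V, P.eval s ≠ 0)
    (hfr : ∀ s ∈ frontier V, GP P n s ≠ 0 ∧ TS P n s ∉ V) :
    (2 ≤ (X * P.comp (X ^ n)).natDegree) ∧ (X * P.comp (X ^ n)).eval 0 = 0 ∧
    (derivative (X * P.comp (X ^ n))).eval 0 ≠ 0 ∧
    ∀ z ∈ immediateBasin (sphereMap (traub (X * P.comp (X ^ n)) 1)) ((0 : ℂ) : OnePoint ℂ),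
      ∃ w : ℂ, z = (w : OnePoint ℂ) ∧ ‖w‖ < 1 := by
  have hn0 : n ≠ 0 := by omega
  have hcomp : (P.comp (X ^ n)).natDegree = P.natDegree * n := by
    rw [natDegree_comp, natDegree_X_pow]
  have hdc : 1 ≤ (P.comp (X ^ n)).natDegree := by
    rw [hcomp]
    exact Nat.mul_pos hdeg (by omega)
  have hne : P.comp (X ^ n) ≠ 0 := by
    intro h
    rw [h] at hdc
    simp at hdc
  have hd : 2 ≤ (X * P.comp (X ^ n)).natDegree := by
    rw [natDegree_X_mul hne]
    omega
  have he0 : (X * P.comp (X ^ n)).eval 0 = 0 := by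
    rw [fold_eval]
    simp
  have hP0 : P.eval 0 ≠ 0 := hP 0 (subset_closure h0)
  have hd0 : (derivative (X * P.comp (X ^ n))).eval 0 ≠ 0 := by
    rw [fold_deriv P n hn, zero_pow hn0]
    simpa using hP0
  refine ⟨hd, he0, hd0, ?_⟩
  have hcont : Continuous (fun z : ℂ => z ^ n) := continuous_pow n
  have hVz : IsOpen ((fun z : ℂ => z ^ n) ⁻¹' V) := hV.preimage hcont
  have hlt : ∀ w : ℂ, w ^ n ∈ V → ‖w‖ < 1 := by
    intro w hw
    have h1 := hVb hw
    rw [mem_ball_zero_iff, norm_pow] at h1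
    by_contra hcon
    push Not at hcon
    exact absurd (one_le_pow₀ hcon (n := n)) (not_le.2 h1)
  have hb : Bornology.IsBounded ((fun z : ℂ => z ^ n) ⁻¹' V) := by
    refine (Metric.isBounded_ball (x := (0 : ℂ)) (r := 1)).subset ?_
    intro w hw
    rw [mem_ball_zero_iff]
    exact hlt w hw
  have h0z : (0 : ℂ) ∈ (fun z : ℂ => z ^ n) ⁻¹' V := by
    simpa [hn0] using h0
  have key := cert (X * P.comp (X ^ n)) hd 0 he0 hd0 ((fun z : ℂ => z ^ n) ⁻¹' V) hVz hb h0z ?_ ?_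
  · intro z hz
    obtain ⟨w, hw, rfl⟩ := key hz
    exact ⟨w, rfl, hlt w hw⟩
  · intro z hz hz' hz0
    have hs : z ^ n ∈ closure V := hcont.closure_preimage_subset V hz
    rw [fold_eval] at hz0
    rcases mul_eq_zero.1 hz0 with h | h
    · rw [h] at hz'
      exact hd0 hz'
    · exact hP _ hs h
  · intro z hz
    have hs : z ^ n ∈ frontier V := hcont.frontier_preimage_subset V hz
    have hPs := hP _ (frontier_subset_closure hs)
    obtain ⟨hg, hT⟩ := hfr _ hs
    refine ⟨?_, ?_⟩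
    · rw [fold_deriv' P n hn z hPs]
      exact mul_ne_zero hPs hg
    · intro h
      rw [mem_preimage, fold_tv P n hn z hPs hg] at h
      exact hT h

end Pool.Agent.TRB
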