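import Pool.Agent.TRB.GeoDefs

/-!
# The Moebius map chi

PROOF. Everything is algebra. det: for all s, s': num s * den s' - num s' * den s = 8 I (s - s'), because
(2+I)^2 - (2-I)^2 = 8 I. So chi s - chi s' = -I * 8 I (s-s')/(den s den s') = 8 (s-s')/(den s den s').
num s * conj (den s) = (3+4I) - 10 Re s + (3-4I) norm s ^2 gives real and imaginary part of chi s = -I num s/den s.
den s = 0 iff s = (2-I)/(2+I) = sg (norm 1). The denominator (2-I) - I c (2+I) is 0 iff c = -(4+3I)/5, which has negative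
real part. norm ((2-I) - I c (2+I))^2 - norm ((2+I) - I c (2-I))^2 = 16 Re c.
sig c - sg: (2+I)(2+I) - (2-I)(2-I) = 8 I and the terms with c cancel; sg = (2-I)/(2+I).
chi (sg^2) = -(11/5) I, den (sg^2) = (8+6I)/5.
-/

set_option autoImplicit false

namespace Pool.Agent.TRB.Geo

open Complex Metric Set

private theorem gc_II : I * I = -1 := I_mul_I

private theorem gc_two_add_ne : (2 + I : ℂ) ≠ 0 := by
  intro h
  have := congrArg Complex.re h
  simp at this

private theorem gc_two_sub_ne : (2 - I : ℂ) ≠ 0 := by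
  intro h
  have := congrArg Complex.re h
  simp at this

private theorem gc_den (s : ℂ) : den s = (2 + I) * (sg - s) := by
  unfold den sg
  linear_combination (4 / 5 : ℂ) * gc_II

theorem den_eq_zero_iff (s : ℂ) : den s = 0 ↔ s = sg := by
  rw [gc_den, mul_eq_zero, or_iff_right gc_two_add_ne, sub_eq_zero, eq_comm]

theorem norm_sg : ‖sg‖ = 1 := by
  have h : ‖sg‖ ^ 2 = 1 := by
    rw [← Complex.normSq_eq_norm_sq, Complex.normSq_apply]
    unfold sg
    norm_num [Complex.div_re, Complex.div_im, Complex.normSq_apply]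
  nlinarith [norm_nonneg sg]

theorem den_ne_zero {s : ℂ} (h : ‖s‖ < 1) : den s ≠ 0 := by
  intro h1
  rw [den_eq_zero_iff] at h1
  rw [h1, norm_sg] at h
  exact lt_irrefl _ h

theorem den_one : den 1 = -2 * I := by
  unfold den
  ring

private theorem gc_normSq {s : ℂ} (h : den s ≠ 0) : 0 < ‖den s‖ ^ 2 := by
  have := norm_pos_iff.2 h
  positivity

theorem chi_re {s : ℂ} (h : den s ≠ 0) : (chi s).re = 4 * (1 - ‖s‖ ^ 2) / ‖den s‖ ^ 2 := by
  unfold chi
  rw [Complex.div_re, ← add_div, Complex.normSq_eq_norm_sq]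
  congr 1
  rw [← Complex.normSq_eq_norm_sq, Complex.normSq_apply]
  unfold num den
  simp
  ring

theorem chi_im {s : ℂ} (h : den s ≠ 0) :
    (chi s).im = (10 * s.re - 3 - 3 * ‖s‖ ^ 2) / ‖den s‖ ^ 2 := by
  unfold chi
  rw [Complex.div_im, ← sub_div, Complex.normSq_eq_norm_sq]
  congr 1
  rw [← Complex.normSq_eq_norm_sq, Complex.normSq_apply]
  unfold num den
  simp
  ring

theorem chi_sub {s s' : ℂ} (h : den s ≠ 0) (h' : den s' ≠ 0) :
    chi s - chi s' = 8 * (s - s') / (den s * den s') := by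
  unfold chi
  rw [div_sub_div _ _ h h']
  congr 1
  unfold num den
  linear_combination (8 * (s' - s) : ℂ) * gc_II

private theorem gc_Ichi (s : ℂ) : I * chi s = num s / den s := by
  unfold chi
  rw [← mul_div_assoc]
  congr 1
  linear_combination (-num s) * gc_II

theorem sig_chi {s : ℂ} (h : den s ≠ 0) : sig (chi s) = s := by
  unfold sig
  rw [gc_Ichi]
  have h1 : (2 + I) - num s / den s * (2 - I) = (-8 * I * s) / den s := by
    rw [eq_div_iff h, sub_mul, mul_right_comm, div_mul_cancel₀ _ h]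
    unfold num den
    ring
  have h2 : (2 - I) - num s / den s * (2 + I) = (-8 * I) / den s := by
    rw [eq_div_iff h, sub_mul, mul_right_comm, div_mul_cancel₀ _ h]
    unfold num den
    ring
  rw [h1, h2, div_div_div_cancel_right₀ h]
  have h3 : (-8 * I : ℂ) ≠ 0 := mul_ne_zero (by norm_num) I_ne_zero
  rw [mul_div_assoc, mul_comm, div_mul_cancel₀ _ h3]

theorem sden_ne_zero {c : ℂ} (h : 0 ≤ c.re) : (2 - I) - I * c * (2 + I) ≠ 0 := by
  intro h1
  have h2 := congrArg Complex.re h1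
  have h3 := congrArg Complex.im h1
  simp at h2 h3
  linarith

private theorem gc_den_sig {c : ℂ} (h : 0 ≤ c.re) :
    den (sig c) = (-8 * I) / ((2 - I) - I * c * (2 + I)) := by
  have hB := sden_ne_zero h
  unfold den sig
  rw [eq_div_iff hB, sub_mul, mul_assoc (2 + I), div_mul_cancel₀ _ hB]
  ring

theorem den_sig {c : ℂ} (h : 0 ≤ c.re) : den (sig c) ≠ 0 := by
  rw [gc_den_sig h]
  exact div_ne_zero (mul_ne_zero (by norm_num) I_ne_zero) (sden_ne_zero h)

theorem chi_sig {c : ℂ} (h : 0 ≤ c.re) : chi (sig c) = c := by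
  have hB := sden_ne_zero h
  have h1 : num (sig c) = (8 * c) / ((2 - I) - I * c * (2 + I)) := by
    unfold num sig
    rw [eq_div_iff hB, sub_mul, mul_assoc (2 - I), div_mul_cancel₀ _ hB]
    linear_combination (-8 * c : ℂ) * gc_II
  unfold chi
  rw [h1, gc_den_sig h, ← mul_div_assoc, div_div_div_cancel_right₀ hB]
  have h3 : (-8 * I : ℂ) ≠ 0 := mul_ne_zero (by norm_num) I_ne_zero
  rw [div_eq_iff h3]
  ring

private theorem gc_normSq_sub (c : ℂ) :
    ‖(2 - I) - I * c * (2 + I)‖ ^ 2 - ‖(2 + I) - I * c * (2 - I)‖ ^ 2 = 16 * c.re := by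
  rw [← Complex.normSq_eq_norm_sq, ← Complex.normSq_eq_norm_sq, Complex.normSq_apply,
    Complex.normSq_apply]
  simp
  ring

theorem norm_sig_lt {c : ℂ} (h : 0 < c.re) : ‖sig c‖ < 1 := by
  have hB := norm_pos_iff.2 (sden_ne_zero h.le)
  unfold sig
  rw [norm_div, div_lt_one hB]
  have h1 := gc_normSq_sub c
  have h2 := norm_nonneg ((2 + I) - I * c * (2 - I))
  nlinarith

theorem norm_sig_eq {c : ℂ} (h : c.re = 0) : ‖sig c‖ = 1 := by
  have hB := norm_pos_iff.2 (sden_ne_zero h.ge)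
  unfold sig
  rw [norm_div, div_eq_one_iff_eq hB.ne']
  have h1 := gc_normSq_sub c
  have h2 := norm_nonneg ((2 + I) - I * c * (2 - I))
  rw [h, mul_zero, sub_eq_zero] at h1
  exact ((sq_eq_sq₀ hB.le h2).1 h1).symm

theorem sig_I : sig I = 1 := by
  unfold sig
  rw [gc_II]
  have : (2 - I) - -1 * (2 + I) = (4 : ℂ) := by ring
  rw [this]
  ring

theorem sig_zero : sig 0 = (3 + 4 * I) / 5 := by
  unfold sig
  simp only [mul_zero, zero_mul, sub_zero]
  rw [div_eq_div_iff gc_two_sub_ne (by norm_num)]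
  linear_combination (4 : ℂ) * gc_II

theorem chi_one : chi 1 = I := by
  unfold chi
  rw [den_one, div_eq_iff (mul_ne_zero (by norm_num) I_ne_zero)]
  unfold num
  ring

theorem chi_zero : chi 0 = (4 - 3 * I) / 5 := by
  unfold chi num den
  simp only [mul_zero, sub_zero]
  rw [div_eq_div_iff gc_two_sub_ne (by norm_num)]
  linear_combination (-8 : ℂ) * gc_II

theorem den_sg_sq : den (sg ^ 2) = (8 + 6 * I) / 5 := by
  unfold den sg
  have h3 : I ^ 3 = -I := by
    rw [pow_succ, I_sq]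
    ring
  linear_combination (-(32 + 16 * I - 24) / 25 : ℂ) * I_sq

theorem chi_sg_sq : chi (sg ^ 2) = -(11 / 5) * I := by
  have h1 : num (sg ^ 2) = (11 / 5) * den (sg ^ 2) := by
    rw [den_sg_sq]
    unfold num sg
    linear_combination (-56 / 25 + 16 / 25 * I : ℂ) * I_sq
  have h2 : den (sg ^ 2) ≠ 0 := by
    rw [den_sg_sq]
    intro h
    have := congrArg Complex.re h
    norm_num [Complex.div_re, Complex.normSq_apply] at this
  unfold chi
  rw [h1, div_eq_iff h2]
  ring

theorem hasDerivAt_chi {s : ℂ} (h : den s ≠ 0) : HasDerivAt chi (8 / den s ^ 2) s := by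
  have h1 : HasDerivAt num (-(2 - I)) s := by
    have h5 := ((hasDerivAt_id s).const_mul (2 - I)).const_sub (2 + I)
    rw [mul_one] at h5
    exact h5
  have h2 : HasDerivAt den (-(2 + I)) s := by
    have h5 := ((hasDerivAt_id s).const_mul (2 + I)).const_sub (2 - I)
    rw [mul_one] at h5
    exact h5
  have h3 := (h1.const_mul (-I)).div h2 h
  refine h3.congr_deriv ?_
  congr 1
  unfold num den
  linear_combination (-8 : ℂ) * gc_II

theorem differentiableAt_sig {c : ℂ} (h : 0 ≤ c.re) : DifferentiableAt ℂ sig c := by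
  unfold sig
  exact DifferentiableAt.div (by fun_prop) (by fun_prop) (sden_ne_zero h)

theorem norm_sig_sub_sg {c : ℂ} (h : 0 ≤ c.re) (h1 : 1 < ‖c‖) :
    ‖sig c - sg‖ ≤ 8 / (5 * (‖c‖ - 1)) := by
  have hB := sden_ne_zero h
  have h2 : (2 + I) * (sig c - sg) = (8 * I) / ((2 - I) - I * c * (2 + I)) := by
    have h3 := gc_den_sig h
    rw [gc_den] at h3
    have h4 : (2 + I) * (sig c - sg) = -((2 + I) * (sg - sig c)) := by ring
    rw [h4, h3]
    ring
  have h5 : ‖(2 + I : ℂ)‖ = Real.sqrt 5 := by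
    rw [Complex.norm_def, Complex.normSq_apply]
    norm_num
  have h6 : ‖(2 - I : ℂ)‖ = Real.sqrt 5 := by
    rw [Complex.norm_def, Complex.normSq_apply]
    norm_num
  have h7 : Real.sqrt 5 * (‖c‖ - 1) ≤ ‖(2 - I) - I * c * (2 + I)‖ := by
    have := norm_sub_norm_le (I * c * (2 + I)) (2 - I)
    rw [norm_mul, norm_mul, Complex.norm_I, one_mul, h5, h6,
      norm_sub_rev (I * c * (2 + I)) (2 - I)] at this
    linarith
  have h8 : 0 < Real.sqrt 5 := Real.sqrt_pos.2 (by norm_num)
  have h9 : Real.sqrt 5 * Real.sqrt 5 = 5 := Real.mul_self_sqrt (by norm_num)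
  have h10 := congrArg norm h2
  rw [norm_mul, h5, norm_div, norm_mul, Complex.norm_I, mul_one] at h10
  have h11 : ‖(8 : ℂ)‖ = 8 := by norm_num
  rw [h11] at h10
  have hc : 0 < ‖c‖ - 1 := by linarith
  have h12 : 8 / ‖(2 - I) - I * c * (2 + I)‖ ≤ 8 / (Real.sqrt 5 * (‖c‖ - 1)) :=
    div_le_div_of_nonneg_left (by norm_num) (by positivity) h7
  rw [← h10] at h12
  have h13 : 8 / (5 * (‖c‖ - 1)) = 8 / (Real.sqrt 5 * (‖c‖ - 1)) / Real.sqrt 5 := by
    rw [div_div]
    congr 1
    rw [mul_right_comm, h9]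
  rw [h13, le_div_iff₀ h8, mul_comm]
  exact h12

end Pool.Agent.TRB.Geo
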