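import Pool.Agent.TRB.Defs

/-!
# The slit disc: definitions

`chi` maps the unit disc onto the right half plane (`1` to `I`, `0` to `(4 - 3 I) / 5`, `sg` to infinity,
`(3 + 4 I) / 5` to `0`), `sig` is the inverse; `Zx` maps the right half plane minus the slit `(0, Lr]` onto the
right half plane, `Cz` is the inverse. `Gf` maps the slit disc `Wg` conformally onto the half plane `Re > -1`.
-/

set_option autoImplicit false

namespace Pool.Agent.TRB.Geo

open Complex Metric Set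

noncomputable def num (s : ℂ) : ℂ := (2 + I) - (2 - I) * s

noncomputable def den (s : ℂ) : ℂ := (2 - I) - (2 + I) * s

noncomputable def chi (s : ℂ) : ℂ := -I * num s / den s

noncomputable def sig (c : ℂ) : ℂ := ((2 + I) - I * c * (2 - I)) / ((2 - I) - I * c * (2 + I))

noncomputable def Lr : ℝ := 1000

noncomputable def La : ℝ := Real.sqrt (1 + Lr ^ 2)

noncomputable def Zx (c : ℂ) : ℂ := (c - Lr) ^ (1 / 2 : ℂ) * (c + Lr) ^ (1 / 2 : ℂ)

noncomputable def Cz (Z : ℂ) : ℂ := (Z - I * Lr) ^ (1 / 2 : ℂ) * (Z + I * Lr) ^ (1 / 2 : ℂ)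

noncomputable def Zf (s : ℂ) : ℂ := Zx (chi s)

noncomputable def Sf (Z : ℂ) : ℂ := sig (Cz Z)

noncomputable def k0 : ℂ := 1 / (Zx (chi 0) - I * La)

noncomputable def S0 : ℝ := 2 / k0.re

noncomputable def a0 : ℂ := -1 - S0 * k0.im * I

noncomputable def Gf (s : ℂ) : ℂ := a0 + S0 / (Zf s - I * La)

/-- the unit disc minus the slit -/
def Wg : Set ℂ := {s | ‖s‖ < 1 ∧ ¬ ((chi s).im = 0 ∧ (chi s).re ≤ Lr)}

noncomputable def Ug (r : ℝ) : Set ℂ := (Wg ∪ ball 1 r) \ {s | s.im = 0 ∧ 1 ≤ s.re}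

noncomputable def bg : ℝ := -S0 * k0.im + S0 / (2 * Lr)

noncomputable def rg : ℝ := 5 / 6 * (S0 / Lr)

end Pool.Agent.TRB.Geo
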