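import Pool.Agent.TRB.GeoMap

/-!
# Numbers

PROOF. Let L = Lr = 1000, La^2 = L^2 + 1. For c with Im c < 0 < Re c, Z = Zx c: Im Z < 0 < Re Z, Re Z = Re c * Im c / Im Z =
Re c |Im c| / |Im Z|; norm Z ^2 = norm (c^2 - L^2) is in [L^2 - |c|^2, L^2 + |c|^2]; 2 (Im Z)^2 = norm Z^2 - Re (Z^2) = norm Z^2 + L^2 - Re (c^2),
so (Im Z)^2 is in [L^2 - |c|^2, L^2 + |c|^2]; norm (Z - i La)^2 = norm Z^2 + La^2 + 2 La |Im Z|.
k0: c = (4-3i)/5, norm 1, Re c |Im c| = 12/25: norm (Z - i La)^2 in [4 (L^2-1), 4 (L^2+1)], |Im Z| in [999.99, 1000.01], Re k0 =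
(12/25)/(|Im Z| norm (Z - i La)^2), so 1.1999e-10 <= Re k0 <= 1.2001e-10 and 1.66e10 <= S0 <= 1.67e10.
Gf_zero: Gf 0 = a0 + S0 k0 = -1 + S0 Re k0 = 1.
T: s in Wg, norm (s - sg^2) < 1/20. den (sg^2) has norm 2, norm (den s) >= 2 - sqrt 5/20 >= 1.88 (den is affine with slope 2+I), so by chi_sub and
chi_sg_sq norm (chi s + (11/5) I) <= 8 (1/20)/(2 * 1.88) <= 0.107. So with c = chi s: 0 < Re c <= 0.107, |Im c| <= 2.307, Im c < 0, |c|^2 <= 6,
Re Z <= 0.247/|Im Z|, |Im Z| >= sqrt (L^2 - 6) >= 999.99, norm (Z - i La)^2 >= 4 (L^2 - 6), so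
Re (Gf s) = -1 + S0 Re Z/norm (Z - i La)^2 <= -1 + 1.67e10 * 0.247/(999.99 * 4 * 999994) < -1 + 1.04 < 1/4.
-/

set_option autoImplicit false

namespace Pool.Agent.TRB.Geo

open Complex Metric Set

private theorem le_of_sq_le {a b : ℝ} (h : a ^ 2 ≤ b ^ 2) (hb : 0 ≤ b) : a ≤ b := by
  by_contra hc
  push Not at hc
  nlinarith

private theorem eq_of_sq_eq {a b : ℝ} (h : a ^ 2 = b ^ 2) (ha : 0 ≤ a) (hb : 0 ≤ b) : a = b :=
  le_antisymm (le_of_sq_le h.le hb) (le_of_sq_le h.ge ha)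

private theorem Lr_eq : Lr = 1000 := rfl

private theorem La_sq' : La ^ 2 = 1000001 := by
  rw [La_sq, Lr_eq]; norm_num

private theorem La_lo : 1000 < La := by
  have := La_bounds.1
  rwa [Lr_eq] at this

private theorem La_hi : La < 1000 + 1 / 1000 := by
  have := La_bounds.2
  rwa [Lr_eq] at this

/-- the basic estimates for `Zx` in the fourth quadrant -/
private theorem Zx_est {c : ℂ} (hre : 0 < c.re) (him : c.im < 0) (hB : c.re ^ 2 + c.im ^ 2 ≤ 6) :
    0 < (Zx c).re ∧ (Zx c).im < 0 ∧ (Zx c).re * (Zx c).im = c.re * c.im ∧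
    10 ^ 6 - c.re ^ 2 ≤ (Zx c).im ^ 2 ∧ (Zx c).im ^ 2 ≤ 10 ^ 6 + c.im ^ 2 ∧
    10 ^ 6 - (c.re ^ 2 + c.im ^ 2) ≤ (Zx c).re ^ 2 + (Zx c).im ^ 2 ∧
    (Zx c).re ^ 2 + (Zx c).im ^ 2 ≤ 10 ^ 6 + (c.re ^ 2 + c.im ^ 2) := by
  have h1 : 0 < (Zx c).re := Zx_re_pos hre (by rintro ⟨h, -⟩; exact him.ne h)
  have h2 := Zx_im_neg him
  have h3 := Zx_re_mul_im c
  have h4 := congrArg Complex.re (Zx_sq c)
  have h5 : (Zx c).re ^ 2 - (Zx c).im ^ 2 = c.re ^ 2 - c.im ^ 2 - 10 ^ 6 := by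
    rw [Lr_eq] at h4
    simp only [pow_two, Complex.mul_re, Complex.sub_re, Complex.ofReal_re, Complex.ofReal_im] at h4
    linarith
  generalize (Zx c).re = x at *
  generalize (Zx c).im = y at *
  generalize c.re = a at *
  generalize c.im = b at *
  have ha : 0 ≤ a ^ 2 := sq_nonneg a
  have hb : 0 ≤ b ^ 2 := sq_nonneg b
  have hx : 0 ≤ x ^ 2 := sq_nonneg x
  have hy : 0 ≤ y ^ 2 := sq_nonneg y
  have hN : (x ^ 2 + y ^ 2) ^ 2 = (a ^ 2 - b ^ 2 - 10 ^ 6) ^ 2 + 4 * (a * b) ^ 2 := by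
    rw [← h5, ← h3]; ring
  have h6 : 10 ^ 6 - (a ^ 2 + b ^ 2) ≤ x ^ 2 + y ^ 2 := by
    apply le_of_sq_le _ (by positivity)
    rw [hN]
    nlinarith
  have h7 : x ^ 2 + y ^ 2 ≤ 10 ^ 6 + (a ^ 2 + b ^ 2) := by
    apply le_of_sq_le _ (by positivity)
    rw [hN]
    nlinarith
  exact ⟨h1, h2, h3, by linarith, by linarith, h6, h7⟩

private theorem normSq_sub (Z : ℂ) : Complex.normSq (Z - I * La) =
    (Z.re ^ 2 + Z.im ^ 2) + 2 * La * (-Z.im) + La ^ 2 := by
  rw [Complex.normSq_apply]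
  simp only [Complex.sub_re, Complex.sub_im, Complex.mul_re, Complex.mul_im, Complex.I_re,
    Complex.I_im, Complex.ofReal_re, Complex.ofReal_im]
  ring

private theorem chi0_re : (chi 0).re = 4 / 5 := by
  rw [chi_zero]
  have : ((4 - 3 * I) / 5 : ℂ) = ((4 / 5 : ℝ) : ℂ) + ((-(3 / 5) : ℝ) : ℂ) * I := by
    push_cast; ring
  rw [this]
  simp only [Complex.add_re, Complex.mul_re, Complex.I_re, Complex.I_im, Complex.ofReal_re,
    Complex.ofReal_im]
  norm_num

private theorem chi0_im : (chi 0).im = -(3 / 5) := by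
  rw [chi_zero]
  have : ((4 - 3 * I) / 5 : ℂ) = ((4 / 5 : ℝ) : ℂ) + ((-(3 / 5) : ℝ) : ℂ) * I := by
    push_cast; ring
  rw [this]
  simp only [Complex.add_im, Complex.mul_im, Complex.I_re, Complex.I_im, Complex.ofReal_re,
    Complex.ofReal_im]
  norm_num

private theorem k0_re_eq : k0.re = (Zx (chi 0)).re / Complex.normSq (Zx (chi 0) - I * La) := by
  unfold k0
  rw [one_div, Complex.inv_re]
  congr 1
  simp only [Complex.sub_re, Complex.mul_re, Complex.I_re, Complex.I_im,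
    Complex.ofReal_re, Complex.ofReal_im]
  ring

/-- all the numbers at `chi 0` -/
private theorem Z0_est : 0 < (Zx (chi 0)).re ∧ 999.999 ≤ -(Zx (chi 0)).im ∧ -(Zx (chi 0)).im ≤ 1000.001 ∧
    (Zx (chi 0)).re * (-(Zx (chi 0)).im) = 12 / 25 ∧
    3999990 ≤ Complex.normSq (Zx (chi 0) - I * La) ∧
    Complex.normSq (Zx (chi 0) - I * La) ≤ 4000010 := by
  have h := Zx_est (c := chi 0) (by rw [chi0_re]; norm_num) (by rw [chi0_im]; norm_num)
    (by rw [chi0_re, chi0_im]; norm_num)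
  rw [normSq_sub, La_sq']
  rw [chi0_re, chi0_im] at h
  obtain ⟨h1, h2, h3, h4, h5, h6, h7⟩ := h
  have hl := La_lo
  have hh := La_hi
  generalize (Zx (chi 0)).re = x at *
  obtain ⟨y, hy⟩ : ∃ y, y = -(Zx (chi 0)).im := ⟨_, rfl⟩
  have hy2 : (Zx (chi 0)).im = -y := by rw [hy]; ring
  rw [hy2] at h2 h3 h4 h5 h6 h7
  rw [hy2, neg_neg]
  have hy0 : 0 < y := by linarith
  have hlo : 999.999 ≤ y := by
    apply le_of_sq_le _ hy0.le
    have : (-y) ^ 2 = y ^ 2 := by ring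
    rw [this] at h4
    norm_num at h4 ⊢
    linarith
  have hhi : y ≤ 1000.001 := by
    apply le_of_sq_le _ (by norm_num)
    have : (-y) ^ 2 = y ^ 2 := by ring
    rw [this] at h5
    norm_num at h5 ⊢
    linarith
  have hm1 : 1000 * 999.999 ≤ La * y := mul_le_mul hl.le hlo (by norm_num) (by linarith)
  have hm2 : La * y ≤ (1000 + 1 / 1000) * 1000.001 := mul_le_mul hh.le hhi hy0.le (by norm_num)
  refine ⟨h1, hlo, hhi, by linarith, ?_, ?_⟩
  · norm_num at *
    linarith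
  · norm_num at *
    linarith

theorem k0_re_pos : 0 < k0.re := by
  obtain ⟨h1, h2, h3, h4, h5, h6⟩ := Z0_est
  rw [k0_re_eq]
  exact div_pos h1 (by linarith)

theorem S0_bounds : 166 * 10 ^ 8 ≤ S0 ∧ S0 ≤ 167 * 10 ^ 8 := by
  obtain ⟨h1, h2, h3, h4, h5, h6⟩ := Z0_est
  have hS : S0 = 2 * Complex.normSq (Zx (chi 0) - I * La) / (Zx (chi 0)).re := by
    unfold S0
    rw [k0_re_eq]
    field_simp
  rw [hS]
  generalize Complex.normSq (Zx (chi 0) - I * La) = N at *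
  generalize (Zx (chi 0)).re = x at *
  generalize -(Zx (chi 0)).im = y at *
  have hx1 : x * 999.999 ≤ 12 / 25 := by
    rw [← h4]
    exact mul_le_mul_of_nonneg_left h2 h1.le
  have hx2 : 12 / 25 ≤ x * 1000.001 := by
    rw [← h4]
    exact mul_le_mul_of_nonneg_left h3 h1.le
  constructor
  · rw [le_div_iff₀ h1]
    norm_num at *
    linarith
  · rw [div_le_iff₀ h1]
    norm_num at *
    linarith

theorem Gf_zero : Gf 0 = 1 := by
  have h1 : Gf 0 = a0 + S0 * k0 := by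
    unfold Gf Zf k0
    rw [mul_one_div]
  have h2 : (k0 : ℂ) = k0.re + k0.im * I := (Complex.re_add_im k0).symm
  have h3 : S0 * k0.re = 2 := by
    unfold S0
    exact div_mul_cancel₀ 2 k0_re_pos.ne'
  have h3' : (S0 : ℂ) * (k0.re : ℂ) = 2 := by exact_mod_cast h3
  rw [h1]
  unfold a0
  calc (-1 - (S0 : ℂ) * k0.im * I) + S0 * k0 = -1 - (S0 : ℂ) * k0.im * I + S0 * (k0.re + k0.im * I) := by
        rw [← h2]
    _ = -1 + (S0 : ℂ) * (k0.re : ℂ) := by ring
    _ = 1 := by rw [h3']; norm_num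

theorem Gf_near_T (s : ℂ) (h : s ∈ Wg) (h' : 1 / 4 < (Gf s).re) : 1 / 20 ≤ ‖s - sg ^ 2‖ := by
  by_contra hcon
  push Not at hcon
  have hs1 : ‖s‖ < 1 := h.1
  have hds : den s ≠ 0 := den_ne_zero hs1
  -- the norm of `den` at `sg ^ 2`
  have hd2 : ‖den (sg ^ 2)‖ = 2 := by
    rw [den_sg_sq]
    have h1 : ‖((8 + 6 * I) / 5 : ℂ)‖ ^ 2 = 2 ^ 2 := by
      rw [← Complex.normSq_eq_norm_sq, Complex.normSq_div]
      have : Complex.normSq (8 + 6 * I) = 100 := by
        rw [Complex.normSq_apply]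
        simp only [Complex.add_re, Complex.add_im, Complex.mul_re, Complex.mul_im, Complex.I_re,
          Complex.I_im, Complex.re_ofNat, Complex.im_ofNat]
        norm_num
      rw [this]
      have : Complex.normSq (5 : ℂ) = 25 := by
        rw [Complex.normSq_apply]; simp only [Complex.re_ofNat, Complex.im_ofNat]; norm_num
      rw [this]; norm_num
    have h2 := eq_of_sq_eq h1 (norm_nonneg _) (by norm_num)
    exact h2
  have hd2' : den (sg ^ 2) ≠ 0 := by
    intro h0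
    rw [h0, norm_zero] at hd2
    norm_num at hd2
  have hsub : den s - den (sg ^ 2) = -(2 + I) * (s - sg ^ 2) := by
    unfold den; ring
  have hn1 : ‖(2 + I : ℂ)‖ ≤ 9 / 4 := by
    have h1 : ‖(2 + I : ℂ)‖ ^ 2 ≤ (9 / 4) ^ 2 := by
      rw [← Complex.normSq_eq_norm_sq, Complex.normSq_apply]
      simp only [Complex.add_re, Complex.add_im, Complex.I_re,
          Complex.I_im, Complex.re_ofNat, Complex.im_ofNat]
      norm_num
    exact le_of_sq_le h1 (by norm_num)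
  have hds1 : ‖den s - den (sg ^ 2)‖ ≤ 9 / 80 := by
    rw [hsub, norm_mul, norm_neg]
    calc ‖(2 + I : ℂ)‖ * ‖s - sg ^ 2‖ ≤ (9 / 4) * (1 / 20) :=
          mul_le_mul hn1 hcon.le (norm_nonneg _) (by norm_num)
      _ = 9 / 80 := by norm_num
  have hds2 : 1.88 ≤ ‖den s‖ := by
    have h1 : ‖den (sg ^ 2)‖ - ‖den s‖ ≤ ‖den (sg ^ 2) - den s‖ := norm_sub_norm_le _ _
    rw [norm_sub_rev, hd2] at h1
    norm_num at *
    linarith
  have hc := chi_sub hds hd2'
  have hcn : ‖chi s - chi (sg ^ 2)‖ ≤ 0.107 := by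
    rw [hc, norm_div, norm_mul, norm_mul, hd2]
    have h8 : ‖(8 : ℂ)‖ = 8 := by norm_num
    rw [h8, div_le_iff₀ (by positivity)]
    have : 1.88 * 2 ≤ ‖den s‖ * 2 := by linarith
    norm_num at *
    linarith
  rw [chi_sg_sq] at hcn
  have hre : |(chi s).re| ≤ 0.107 := by
    have h1 := Complex.abs_re_le_norm (chi s - -(11 / 5) * I)
    have h2 : (chi s - -(11 / 5) * I).re = (chi s).re := by
      have : ((11 / 5 : ℂ)) = ((11 / 5 : ℝ) : ℂ) := by push_cast; rfl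
      rw [this]
      simp only [Complex.sub_re, Complex.mul_re, Complex.I_re, Complex.I_im,
        Complex.neg_re, Complex.neg_im, Complex.ofReal_re, Complex.ofReal_im]
      ring
    rw [h2] at h1
    exact h1.trans hcn
  have him : |(chi s).im + 11 / 5| ≤ 0.107 := by
    have h1 := Complex.abs_im_le_norm (chi s - -(11 / 5) * I)
    have h2 : (chi s - -(11 / 5) * I).im = (chi s).im + 11 / 5 := by
      have : ((11 / 5 : ℂ)) = ((11 / 5 : ℝ) : ℂ) := by push_cast; rfl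
      rw [this]
      simp only [Complex.sub_im, Complex.mul_im, Complex.I_re, Complex.I_im,
        Complex.neg_re, Complex.neg_im, Complex.ofReal_re, Complex.ofReal_im]
      ring
    rw [h2] at h1
    exact h1.trans hcn
  have hpos : 0 < (chi s).re := by
    rw [chi_re hds]
    have h1 : 0 < ‖den s‖ := by linarith [hds2, (by norm_num : (0:ℝ) < 1.88)]
    have h2 : ‖s‖ ^ 2 < 1 := by nlinarith [norm_nonneg s]
    apply div_pos (by linarith) (by positivity)
  have hre2 := (abs_le.mp hre).2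
  have him1 := (abs_le.mp him).1
  have him2 := (abs_le.mp him).2
  have himneg : (chi s).im < 0 := by norm_num at him2; linarith
  have hsq : (chi s).re ^ 2 + (chi s).im ^ 2 ≤ 6 := by
    norm_num at *
    nlinarith
  obtain ⟨g1, g2, g3, g4, g5, g6, g7⟩ := Zx_est hpos himneg hsq
  have hG := Gf_re s
  rw [hG, ← Complex.normSq_eq_norm_sq, normSq_sub, La_sq'] at h'
  unfold Zf at h'
  have hl := La_lo
  obtain ⟨hS1, hS2⟩ := S0_bounds
  generalize S0 = S at *
  generalize (Zx (chi s)).re = x at *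
  generalize (Zx (chi s)).im = y at *
  generalize (chi s).re = a at *
  generalize (chi s).im = b at *
  have hy : 999.99 ≤ -y := by
    apply le_of_sq_le _ (by linarith)
    have : (-y) ^ 2 = y ^ 2 := by ring
    rw [this]
    norm_num at *
    nlinarith
  have hab : a * (-b) ≤ 0.107 * 2.307 := by
    apply mul_le_mul hre2 _ (by linarith) (by norm_num)
    norm_num at *
    linarith
  have hx : x * 999.99 ≤ 0.107 * 2.307 := by
    calc x * 999.99 ≤ x * (-y) := mul_le_mul_of_nonneg_left hy g1.le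
      _ = a * (-b) := by linarith
      _ ≤ _ := hab
  have hm1 : 1000 * 999.99 ≤ La * (-y) := mul_le_mul hl.le hy (by norm_num) (by linarith)
  have hN : 3999970 ≤ x ^ 2 + y ^ 2 + 2 * La * -y + 1000001 := by
    norm_num at *
    linarith
  generalize x ^ 2 + y ^ 2 + 2 * La * -y + 1000001 = N at *
  have hN0 : 0 < N := by linarith
  have h9 : 5 / 4 < S * x / N := by linarith
  rw [lt_div_iff₀ hN0] at h9
  have h10 : S * x ≤ 167 * 10 ^ 8 * x := mul_le_mul_of_nonneg_right hS2 g1.le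
  norm_num at *
  linarith

end Pool.Agent.TRB.Geo
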