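import Pool.Agent.TRB.GeoDefs

/-!
# The slit map

PROOF. (z ^ (1/2))^2 = z for every complex z. z ^ (1/2) has argument arg z / 2 in (-pi/2, pi/2], so nonnegative real part, and is
differentiable on slitPlane. Zx c = a b with a^2 = c - L, b^2 = c + L: Zx c ^ 2 = c^2 - L^2, so
Re Zx * Im Zx = Re c * Im c. If Im c > 0: arg a, arg b in (0, pi/2), Re a, Im a, Re b, Im b > 0, so
Im (Zx c) = Re a Im b + Im a Re b > 0. If Im c < 0: Im (Zx c) < 0. If moreover Re c > 0: Re Zx = Re c Im c / Im Zx > 0. If Im c = 0, Re c > L: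
a, b are positive reals. Zx is differentiable at c if not (Im c = 0 and Re c <= L): c - L and c + L are in slitPlane.
Cz Z = a b with a^2 = Z - iL, b^2 = Z + iL. If Re Z > 0: arguments of a, b in (-pi/4, pi/4), so Re (a b) > 0
(|Im a| < Re a, |Im b| < Re b). Cz Z ^2 = Z^2 + L^2. If Im (Cz Z) = 0 then Im (Z^2) = 0 so Im Z = 0 and (Cz Z)^2 = Z^2 + L^2 > L^2, Re Cz Z > L.
Zx (Cz Z) and Z have the same square and both have positive real part, so they are equal; same for Cz (Zx c) and c.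
Cz (i La)^2 = 1 - ... : (i La)^2 + L^2 = -1, so Cz (i La) = i or -i; Z - iL = i (La - L), Z + iL = i (La + L) both have argument pi/2, their
square roots have argument pi/4, so the product has argument pi/2: Cz (i La) = i. Zx i ^2 = -1 - L^2 = (i La)^2 and Im Zx i > 0.
-/

set_option autoImplicit false

namespace Pool.Agent.TRB.Geo

open Complex Metric Set

private theorem sq_pow (z : ℂ) : (z ^ (1 / 2 : ℂ)) ^ 2 = z := by
  have h := Complex.cpow_nat_inv_pow z (n := 2) (by norm_num)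
  rw [one_div]
  exact_mod_cast h

private theorem sq_re_pos {z : ℂ} (h : z ∈ slitPlane) : 0 < (z ^ (1 / 2 : ℂ)).re := by
  have h0 : z ≠ 0 := slitPlane_ne_zero h
  rw [cpow_def_of_ne_zero h0, exp_re]
  have h1 : (Complex.log z * (1 / 2 : ℂ)).im = arg z / 2 := by
    have : Complex.log z * (1 / 2 : ℂ) = Complex.log z / 2 := by ring
    rw [this]
    have h2 : (Complex.log z / 2).im = (Complex.log z).im / 2 := by
      simp
    rw [h2, Complex.log_im]
  rw [h1]
  have h3 := (Complex.mem_slitPlane_iff_arg.1 h).1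
  have h4 := Complex.neg_pi_lt_arg z
  have h5 := lt_of_le_of_ne (Complex.arg_le_pi z) h3
  apply mul_pos (Real.exp_pos _)
  apply Real.cos_pos_of_mem_Ioo
  constructor
  · linarith
  · linarith

private theorem re_sq' (a : ℂ) : (a ^ 2).re = a.re ^ 2 - a.im ^ 2 := by
  rw [pow_two, mul_re]
  ring

private theorem im_sq' (a : ℂ) : (a ^ 2).im = 2 * (a.re * a.im) := by
  rw [pow_two, mul_im]
  ring

private theorem sq_rel (z : ℂ) : (z ^ (1 / 2 : ℂ)).re ^ 2 - (z ^ (1 / 2 : ℂ)).im ^ 2 = z.re ∧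
    2 * ((z ^ (1 / 2 : ℂ)).re * (z ^ (1 / 2 : ℂ)).im) = z.im := by
  rw [← re_sq', ← im_sq', sq_pow]
  exact ⟨rfl, rfl⟩

theorem La_sq : La ^ 2 = 1 + Lr ^ 2 := by
  unfold La
  rw [Real.sq_sqrt (by positivity)]

theorem La_pos : 0 < La := by
  unfold La
  apply Real.sqrt_pos.2
  positivity

private theorem Lr_pos : 0 < Lr := by
  unfold Lr
  norm_num

theorem La_bounds : Lr < La ∧ La < Lr + 1 / 1000 := by
  have h := La_sq
  have h0 := La_pos
  have h1 := Lr_pos
  constructor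
  · by_contra h2
    have h2 := not_lt.1 h2
    have h3 : La ^ 2 ≤ Lr ^ 2 := pow_le_pow_left₀ h0.le h2 2
    linarith
  · by_contra h2
    have h2 := not_lt.1 h2
    have h3 : (Lr + 1 / 1000) ^ 2 ≤ La ^ 2 := pow_le_pow_left₀ (by linarith) h2 2
    rw [h] at h3
    unfold Lr at h3
    norm_num at h3

theorem Zx_sq (c : ℂ) : Zx c ^ 2 = c ^ 2 - Lr ^ 2 := by
  unfold Zx
  rw [mul_pow, sq_pow, sq_pow]
  ring

theorem Zx_re_mul_im (c : ℂ) : (Zx c).re * (Zx c).im = c.re * c.im := by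
  have h := congrArg Complex.im (Zx_sq c)
  rw [im_sq', sub_im, im_sq'] at h
  have h2 : (((Lr : ℝ) : ℂ) ^ 2).im = 0 := by
    rw [← ofReal_pow, ofReal_im]
  rw [h2] at h
  linarith

theorem Zx_im_pos {c : ℂ} (h : 0 < c.im) : 0 < (Zx c).im := by
  have e1 : (c - Lr).im = c.im := by simp
  have e2 : (c + Lr).im = c.im := by simp
  have h1 : (c - Lr) ∈ slitPlane := mem_slitPlane_iff.2 (Or.inr (by rw [e1]; exact h.ne'))
  have h2 : (c + Lr) ∈ slitPlane := mem_slitPlane_iff.2 (Or.inr (by rw [e2]; exact h.ne'))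
  have a1 := sq_re_pos h1
  have b1 := sq_re_pos h2
  have a2 := (sq_rel (c - Lr)).2
  have b2 := (sq_rel (c + Lr)).2
  rw [e1] at a2
  rw [e2] at b2
  unfold Zx
  rw [mul_im]
  generalize (c - Lr : ℂ) ^ (1 / 2 : ℂ) = a at *
  generalize (c + Lr : ℂ) ^ (1 / 2 : ℂ) = b at *
  have a3 : 0 < a.im := by
    by_contra h3
    have := mul_nonpos_of_nonneg_of_nonpos a1.le (not_lt.1 h3)
    linarith
  have b3 : 0 < b.im := by
    by_contra h3
    have := mul_nonpos_of_nonneg_of_nonpos b1.le (not_lt.1 h3)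
    linarith
  positivity

theorem Zx_im_neg {c : ℂ} (h : c.im < 0) : (Zx c).im < 0 := by
  have e1 : (c - Lr).im = c.im := by simp
  have e2 : (c + Lr).im = c.im := by simp
  have h1 : (c - Lr) ∈ slitPlane := mem_slitPlane_iff.2 (Or.inr (by rw [e1]; exact h.ne))
  have h2 : (c + Lr) ∈ slitPlane := mem_slitPlane_iff.2 (Or.inr (by rw [e2]; exact h.ne))
  have a1 := sq_re_pos h1
  have b1 := sq_re_pos h2
  have a2 := (sq_rel (c - Lr)).2
  have b2 := (sq_rel (c + Lr)).2
  rw [e1] at a2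
  rw [e2] at b2
  unfold Zx
  rw [mul_im]
  generalize (c - Lr : ℂ) ^ (1 / 2 : ℂ) = a at *
  generalize (c + Lr : ℂ) ^ (1 / 2 : ℂ) = b at *
  have a3 : a.im < 0 := by
    by_contra h3
    have := mul_nonneg a1.le (not_lt.1 h3)
    linarith
  have b3 : b.im < 0 := by
    by_contra h3
    have := mul_nonneg b1.le (not_lt.1 h3)
    linarith
  have := mul_neg_of_pos_of_neg a1 b3
  have := mul_neg_of_neg_of_pos a3 b1
  linarith

private theorem slit1 {c : ℂ} (h' : ¬ (c.im = 0 ∧ c.re ≤ Lr)) :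
    (c - Lr) ∈ slitPlane ∧ (c + Lr) ∈ slitPlane := by
  have hL := Lr_pos
  rw [mem_slitPlane_iff, mem_slitPlane_iff]
  by_cases h : c.im = 0
  · have h2 : Lr < c.re := not_le.1 fun h3 => h' ⟨h, h3⟩
    constructor
    · left
      simp only [sub_re, ofReal_re]
      linarith
    · left
      simp only [add_re, ofReal_re]
      linarith
  · constructor
    · right
      simpa using h
    · right
      simpa using h

theorem Zx_re_pos {c : ℂ} (h : 0 < c.re) (h' : ¬ (c.im = 0 ∧ c.re ≤ Lr)) : 0 < (Zx c).re := by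
  have h0 := Zx_re_mul_im c
  rcases lt_trichotomy c.im 0 with h1 | h1 | h1
  · have h2 := Zx_im_neg h1
    by_contra h3
    have h4 := mul_nonneg_of_nonpos_of_nonpos (not_lt.1 h3) h2.le
    have h5 := mul_neg_of_pos_of_neg h h1
    linarith
  · obtain ⟨s1, s2⟩ := slit1 h'
    have a1 := sq_re_pos s1
    have b1 := sq_re_pos s2
    have a2 := (sq_rel (c - Lr)).2
    have b2 := (sq_rel (c + Lr)).2
    have e1 : (c - Lr).im = 0 := by simpa using h1
    have e2 : (c + Lr).im = 0 := by simpa using h1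
    rw [e1] at a2
    rw [e2] at b2
    unfold Zx
    rw [mul_re]
    generalize (c - Lr : ℂ) ^ (1 / 2 : ℂ) = a at *
    generalize (c + Lr : ℂ) ^ (1 / 2 : ℂ) = b at *
    have a3 : a.im = 0 := by
      have : a.re * a.im = 0 := by linarith
      rcases mul_eq_zero.1 this with h3 | h3
      · exact absurd h3 a1.ne'
      · exact h3
    rw [a3, zero_mul, sub_zero]
    positivity
  · have h2 := Zx_im_pos h1
    by_contra h3
    have h4 := mul_nonpos_of_nonpos_of_nonneg (not_lt.1 h3) h2.le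
    have h5 := mul_pos h h1
    linarith

theorem Zx_differentiableAt {c : ℂ} (h' : ¬ (c.im = 0 ∧ c.re ≤ Lr)) :
    DifferentiableAt ℂ Zx c := by
  obtain ⟨s1, s2⟩ := slit1 h'
  have h1 : DifferentiableAt ℂ (fun c : ℂ => (c - Lr) ^ (1 / 2 : ℂ)) c :=
    (differentiableAt_id.sub_const _).cpow (differentiableAt_const _) s1
  have h2 : DifferentiableAt ℂ (fun c : ℂ => (c + Lr) ^ (1 / 2 : ℂ)) c :=
    (differentiableAt_id.add_const _).cpow (differentiableAt_const _) s2
  exact h1.mul h2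

theorem Cz_sq (Z : ℂ) : Cz Z ^ 2 = Z ^ 2 + Lr ^ 2 := by
  unfold Cz
  rw [mul_pow, sq_pow, sq_pow]
  have : (Z - I * Lr) * (Z + I * Lr) = Z ^ 2 - I ^ 2 * Lr ^ 2 := by ring
  rw [this, I_sq]
  ring

theorem Cz_re_pos {Z : ℂ} (h : 0 < Z.re) : 0 < (Cz Z).re := by
  have e1 : (Z - I * Lr).re = Z.re := by simp
  have e2 : (Z + I * Lr).re = Z.re := by simp
  have h1 : (Z - I * Lr) ∈ slitPlane := mem_slitPlane_iff.2 (Or.inl (by rw [e1]; exact h))
  have h2 : (Z + I * Lr) ∈ slitPlane := mem_slitPlane_iff.2 (Or.inl (by rw [e2]; exact h))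
  have a1 := sq_re_pos h1
  have b1 := sq_re_pos h2
  have a2 := (sq_rel (Z - I * Lr)).1
  have b2 := (sq_rel (Z + I * Lr)).1
  rw [e1] at a2
  rw [e2] at b2
  unfold Cz
  rw [mul_re]
  generalize (Z - I * Lr : ℂ) ^ (1 / 2 : ℂ) = a at *
  generalize (Z + I * Lr : ℂ) ^ (1 / 2 : ℂ) = b at *
  have a3 : |a.im| < a.re := by
    apply abs_lt_of_sq_lt_sq _ a1.le
    linarith
  have b3 : |b.im| < b.re := by
    apply abs_lt_of_sq_lt_sq _ b1.le
    linarith
  have h3 : |a.im * b.im| < a.re * b.re := by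
    rw [abs_mul]
    exact mul_lt_mul'' a3 b3 (abs_nonneg _) (abs_nonneg _)
  have := (abs_lt.1 h3).2
  linarith

private theorem Lr2_im : (((Lr : ℝ) : ℂ) ^ 2).im = 0 := by
  rw [← ofReal_pow, ofReal_im]

private theorem Lr2_re : (((Lr : ℝ) : ℂ) ^ 2).re = Lr ^ 2 := by
  rw [← ofReal_pow, ofReal_re]

theorem Cz_not_slit {Z : ℂ} (h : 0 < Z.re) : ¬ ((Cz Z).im = 0 ∧ (Cz Z).re ≤ Lr) := by
  rintro ⟨h1, h2⟩
  have h3 := Cz_re_pos h
  have h4 := congrArg Complex.im (Cz_sq Z)
  have h5 := congrArg Complex.re (Cz_sq Z)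
  rw [im_sq', add_im, im_sq', Lr2_im, h1] at h4
  rw [re_sq', add_re, re_sq', Lr2_re, h1] at h5
  have h6 : Z.im = 0 := by
    have : Z.re * Z.im = 0 := by linarith
    rcases mul_eq_zero.1 this with h7 | h7
    · exact absurd h7 h.ne'
    · exact h7
  rw [h6] at h5
  have h7 : (Cz Z).re ^ 2 ≤ Lr ^ 2 := pow_le_pow_left₀ h3.le h2 2
  have h8 : 0 < Z.re ^ 2 := by positivity
  linarith

private theorem slit2 {Z : ℂ} (h : 0 < Z.re ∨ Z = I * La) :
    (Z - I * Lr) ∈ slitPlane ∧ (Z + I * Lr) ∈ slitPlane := by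
  rw [mem_slitPlane_iff, mem_slitPlane_iff]
  rcases h with h | h
  · constructor
    · left
      simpa using h
    · left
      simpa using h
  · have h1 := La_bounds.1
    have h2 := Lr_pos
    constructor
    · right
      rw [h]
      simp
      linarith
    · right
      rw [h]
      simp
      linarith

theorem Cz_differentiableAt {Z : ℂ} (h : 0 < Z.re ∨ Z = I * La) : DifferentiableAt ℂ Cz Z := by
  obtain ⟨s1, s2⟩ := slit2 h
  have h1 : DifferentiableAt ℂ (fun c : ℂ => (c - I * Lr) ^ (1 / 2 : ℂ)) Z :=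
    (differentiableAt_id.sub_const _).cpow (differentiableAt_const _) s1
  have h2 : DifferentiableAt ℂ (fun c : ℂ => (c + I * Lr) ^ (1 / 2 : ℂ)) Z :=
    (differentiableAt_id.add_const _).cpow (differentiableAt_const _) s2
  exact h1.mul h2

private theorem eq_of_sq_eq {z w : ℂ} (h : z ^ 2 = w ^ 2) (hz : 0 < z.re) (hw : 0 < w.re) :
    z = w := by
  rcases sq_eq_sq_iff_eq_or_eq_neg.1 h with h1 | h1
  · exact h1
  · rw [h1, neg_re] at hz
    linarith

theorem Zx_Cz {Z : ℂ} (h : 0 < Z.re) : Zx (Cz Z) = Z := by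
  apply eq_of_sq_eq _ (Zx_re_pos (Cz_re_pos h) (Cz_not_slit h)) h
  rw [Zx_sq, Cz_sq]
  ring

theorem Cz_Zx {c : ℂ} (h : 0 < c.re) (h' : ¬ (c.im = 0 ∧ c.re ≤ Lr)) : Cz (Zx c) = c := by
  apply eq_of_sq_eq _ (Cz_re_pos (Zx_re_pos h h')) h
  rw [Cz_sq, Zx_sq]
  ring

private theorem La_sq_complex : ((La : ℝ) : ℂ) ^ 2 = 1 + ((Lr : ℝ) : ℂ) ^ 2 := by
  have := congrArg (fun x : ℝ => (x : ℂ)) La_sq
  push_cast at this
  exact this

theorem Cz_ILa : Cz (I * La) = I := by
  have h0 : Cz (I * La) ^ 2 = I ^ 2 := by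
    rw [Cz_sq, mul_pow, La_sq_complex, I_sq]
    ring
  obtain ⟨s1, s2⟩ := slit2 (Z := I * La) (Or.inr rfl)
  have a1 := sq_re_pos s1
  have b1 := sq_re_pos s2
  have a2 := (sq_rel (I * La - I * Lr)).2
  have b2 := (sq_rel (I * La + I * Lr)).2
  have e1 : (I * La - I * Lr : ℂ).im = La - Lr := by simp
  have e2 : (I * La + I * Lr : ℂ).im = La + Lr := by simp
  rw [e1] at a2
  rw [e2] at b2
  have h1 := La_bounds.1
  have h2 := Lr_pos
  have him : 0 < (Cz (I * La)).im := by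
    unfold Cz
    rw [mul_im]
    generalize (I * La - I * Lr : ℂ) ^ (1 / 2 : ℂ) = a at *
    generalize (I * La + I * Lr : ℂ) ^ (1 / 2 : ℂ) = b at *
    have a3 : 0 < a.im := by
      by_contra h3
      have := mul_nonpos_of_nonneg_of_nonpos a1.le (not_lt.1 h3)
      linarith
    have b3 : 0 < b.im := by
      by_contra h3
      have := mul_nonpos_of_nonneg_of_nonpos b1.le (not_lt.1 h3)
      linarith
    positivity
  rcases sq_eq_sq_iff_eq_or_eq_neg.1 h0 with h3 | h3
  · exact h3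
  · rw [h3] at him
    simp at him
    linarith

theorem Zx_I : Zx I = I * La := by
  have h0 : Zx I ^ 2 = (I * La) ^ 2 := by
    rw [Zx_sq, mul_pow, La_sq_complex, I_sq]
    ring
  have him : 0 < (Zx I).im := Zx_im_pos (by simp)
  rcases sq_eq_sq_iff_eq_or_eq_neg.1 h0 with h3 | h3
  · exact h3
  · rw [h3] at him
    have := La_pos
    simp at him
    linarith

end Pool.Agent.TRB.Geo
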