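import Pool.Agent.TRB.GeoChi
import Pool.Agent.TRB.GeoZ
import Pool.Agent.Lib.RiemannMapping

/-!
# The conformal map of the slit disc

PROOF. s in Wg: den s /= 0, Re (chi s) > 0 by chi_re, chi s is not on the slit, so Re (Zf s) > 0, Sf (Zf s) = sig (Cz (Zx (chi s))) = s,
and Zf is differentiable at s. Conversely Re Z > 0: Cz Z has positive real part and is not on the slit; s = sig (Cz Z) has norm < 1
(norm_sig_lt) and chi s = Cz Z (chi_sig), so s in Wg and Zf s = Zx (Cz Z) = Z. Wg is open: ball 0 1 is open, chi is continuous on it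
and the slit {c | Im c = 0, Re c <= Lr} is closed (ContinuousOn.isOpen_inter_preimage).
HasPrimitives Wg: let f be holomorphic on Wg; F0 = (f o Sf) * deriv Sf is holomorphic on H = {Z | 0 < Re Z}, open and convex, so simply
connected (Pool.Lib has isSimplyConnected_of_convex in Lib/RiemannMapping.lean and hasPrimitives_of_isSimplyConnected in
Lib/HolomorphicPrimitives.lean; or use any other route), so F0 has a primitive A on H; then A o Zf is a primitive of f on Wg because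
(deriv Sf (Zf s)) * (deriv Zf s) = 1 (chain rule in Sf (Zf s) = s on the open set Wg).
Gf_re: real part of S0/(Z - I La) = S0 Re Z / norm (Z - I La)^2 (also if the denominator is 0), Re a0 = -1.
-/

set_option autoImplicit false

namespace Pool.Agent.TRB.Geo

open Complex Metric Set Filter Topology

private theorem chi_diffAt {s : ℂ} (h : ‖s‖ < 1) : DifferentiableAt ℂ chi s :=
  (hasDerivAt_chi (den_ne_zero h)).differentiableAt

private theorem Wg_eq : Wg = ball (0 : ℂ) 1 ∩ chi ⁻¹' ({c : ℂ | c.im = 0 ∧ c.re ≤ Lr}ᶜ) := by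
  ext s
  simp only [Wg, mem_setOf_eq, mem_inter_iff, mem_ball_zero_iff, mem_preimage, mem_compl_iff]

theorem isOpen_Wg : IsOpen Wg := by
  rw [Wg_eq]
  have hc : IsClosed {c : ℂ | c.im = 0 ∧ c.re ≤ Lr} := by
    have h1 : IsClosed {c : ℂ | c.im = 0} := isClosed_eq continuous_im continuous_const
    have h2 : IsClosed {c : ℂ | c.re ≤ Lr} := isClosed_le continuous_re continuous_const
    exact h1.inter h2
  refine ContinuousOn.isOpen_inter_preimage ?_ isOpen_ball hc.isOpen_compl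
  intro s hs
  rw [mem_ball_zero_iff] at hs
  exact (chi_diffAt hs).continuousAt.continuousWithinAt

theorem zero_mem_Wg : (0 : ℂ) ∈ Wg := by
  refine ⟨by simp, ?_⟩
  rw [chi_zero]
  rintro ⟨h, -⟩
  have : ((4 - 3 * I) / 5 : ℂ).im = -3 / 5 := by
    rw [show ((4 - 3 * I) / 5 : ℂ) = ((4 / 5 : ℝ) : ℂ) + ((-3 / 5 : ℝ) : ℂ) * I by push_cast; ring]
    simp
  rw [this] at h
  norm_num at h

private theorem chi_re_pos {s : ℂ} (h : ‖s‖ < 1) : 0 < (chi s).re := by
  have hd := den_ne_zero h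
  rw [chi_re hd]
  have h1 : 0 < ‖den s‖ := norm_pos_iff.mpr hd
  have h2 : ‖s‖ ^ 2 < 1 := by nlinarith [norm_nonneg s]
  have h3 : 0 < 1 - ‖s‖ ^ 2 := by linarith
  positivity

theorem Zf_re_pos {s : ℂ} (h : s ∈ Wg) : 0 < (Zf s).re :=
  Zx_re_pos (chi_re_pos h.1) h.2

theorem Sf_Zf {s : ℂ} (h : s ∈ Wg) : Sf (Zf s) = s := by
  rw [Sf, Zf, Cz_Zx (chi_re_pos h.1) h.2, sig_chi (den_ne_zero h.1)]

theorem Zf_differentiableAt {s : ℂ} (h : s ∈ Wg) : DifferentiableAt ℂ Zf s :=
  DifferentiableAt.comp s (Zx_differentiableAt h.2) (chi_diffAt h.1)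

theorem Sf_mem {Z : ℂ} (h : 0 < Z.re) : Sf Z ∈ Wg := by
  have h1 := Cz_re_pos h
  refine ⟨norm_sig_lt h1, ?_⟩
  rw [Sf, chi_sig h1.le]
  exact Cz_not_slit h

theorem Zf_Sf {Z : ℂ} (h : 0 < Z.re) : Zf (Sf Z) = Z := by
  rw [Zf, Sf, chi_sig (Cz_re_pos h).le, Zx_Cz h]

theorem Sf_differentiableAt {Z : ℂ} (h : 0 < Z.re ∨ Z = I * La) : DifferentiableAt ℂ Sf Z := by
  have h0 : 0 ≤ (Cz Z).re := by
    rcases h with h | h
    · exact (Cz_re_pos h).le
    · rw [h, Cz_ILa]; simp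
  exact DifferentiableAt.comp Z (differentiableAt_sig h0) (Cz_differentiableAt h)

theorem Sf_ILa : Sf (I * La) = 1 := by
  rw [Sf, Cz_ILa, sig_I]

theorem hasPrimitives_Wg : Pool.Lib.HasPrimitives Wg := by
  set H : Set ℂ := {Z : ℂ | 0 < Z.re} with hH
  have hHo : IsOpen H := isOpen_lt continuous_const continuous_re
  have hHc : Convex ℝ H := convex_halfSpace_re_gt 0
  have hHp : Pool.Lib.HasPrimitives H := by
    apply Pool.Lib.hasPrimitives_of_isSimplyConnected hHo
    exact Pool.Agent.Lib.RiemannMapping.isSimplyConnected_of_convex hHc ⟨1, by simp [hH]⟩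
  intro f hf
  have hSd : DifferentiableOn ℂ Sf H := fun Z hZ =>
    (Sf_differentiableAt (Or.inl hZ)).differentiableWithinAt
  have hF : DifferentiableOn ℂ (fun Z => f (Sf Z) * deriv Sf Z) H := by
    refine DifferentiableOn.mul ?_ (hSd.deriv hHo)
    exact hf.comp hSd fun Z hZ => Sf_mem hZ
  obtain ⟨A, hA⟩ := hHp _ hF
  refine ⟨fun s => A (Zf s), fun s hs => ?_⟩
  have hZ := Zf_re_pos hs
  have h1 : HasDerivAt Zf (deriv Zf s) s := (Zf_differentiableAt hs).hasDerivAt
  have h2 : HasDerivAt Sf (deriv Sf (Zf s)) (Zf s) :=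
    (Sf_differentiableAt (Or.inl hZ)).hasDerivAt
  have h3 : HasDerivAt (fun t => Sf (Zf t)) (deriv Sf (Zf s) * deriv Zf s) s := h2.comp s h1
  have h4 : HasDerivAt (fun t => Sf (Zf t)) 1 s := by
    refine (hasDerivAt_id s).congr_of_eventuallyEq ?_
    filter_upwards [isOpen_Wg.mem_nhds hs] with t ht
    exact Sf_Zf ht
  have h5 := h3.unique h4
  have h6 := (hA (Zf s) hZ).comp s h1
  simp only [Sf_Zf hs] at h6
  rw [mul_assoc, h5, mul_one] at h6
  exact h6

theorem Gf_re (s : ℂ) : (Gf s).re = -1 + S0 * (Zf s).re / ‖Zf s - I * La‖ ^ 2 := by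
  have h1 : (a0).re = -1 := by
    simp [a0]
  have h2 : ((S0 : ℂ) / (Zf s - I * La)).re = S0 * (Zf s).re / ‖Zf s - I * La‖ ^ 2 := by
    rw [div_re, ← normSq_eq_norm_sq]
    simp
  rw [Gf, add_re, h1, h2]

end Pool.Agent.TRB.Geo
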