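import Pool.Agent.TRB.GeoK

/-!
# The pole at s = 1

PROOF. den 1 = -2 I, chi 1 = I, so near s = 1: den s /= 0, Im (chi s) > 0 (continuity), hence 10 Re s - 3 - 3 norm s ^2 > 0 (chi_im), chi s not on the slit, Zf
is differentiable near 1 (Zx_differentiableAt, hasDerivAt_chi), Zf 1 = Zx I = I La. Derivative at 1: Zf^2 = chi^2 - Lr^2, so
2 Zf(1) Zf'(1) = 2 chi(1) chi'(1), chi'(1) = 8/den(1)^2 = -2, Zf'(1) = -2/La. General fact: if f is differentiable near 1, f 1 = 0, f'(1) = d /= 0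
then for some r, C and all s in ball 1 r, s /= 1: f s /= 0 and norm (1/f s - 1/(d (s-1))) <= C (dslope f 1 is differentiable near 1 with value d at 1;
1/dslope f 1 is differentiable near 1, so (1/dslope f 1 s - 1/d)/(s-1) is bounded). Apply to f s = Zf s - I La:
1/(d (s-1)) = La/(2 (1-s)). So norm (Gf s - S0 La/2/(1-s)) <= norm a0 + S0 C. Then norm (Gf s) tends to infinity, shrink r to get
rg < norm (Gf s - bg I). ball 1 r inter ball 0 1 in Wg because Im (chi s) > 0.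
Last claim: norm s >= 1: Re (chi s) <= 0 (chi_re), Im (chi s) > 0, so Im (Zf s) > 0 (Zx_im_pos), Re Zf * Im Zf = Re chi * Im chi <= 0, so Re (Zf s) <= 0
and Gf_re with S0 > 0.
-/

set_option autoImplicit false

namespace Pool.Agent.TRB.Geo

open Complex Metric Set

namespace PoleAux

open Topology Filter

theorem den_cont : Continuous den := by
  unfold den
  fun_prop

/-- the good neighbourhood -/
def V : Set ℂ := {s | den s ≠ 0 ∧ 0 < 10 * s.re - 3 - 3 * ‖s‖ ^ 2}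

theorem V_open : IsOpen V := by
  refine IsOpen.inter ?_ ?_
  · exact isOpen_ne_fun den_cont continuous_const
  · have h : Continuous (fun s : ℂ => 10 * s.re - 3 - 3 * ‖s‖ ^ 2) := by fun_prop
    exact isOpen_lt continuous_const h

theorem one_mem_V : (1 : ℂ) ∈ V := by
  refine ⟨?_, ?_⟩
  · rw [den_one]
    simp
  · norm_num

theorem im_pos {s : ℂ} (h : s ∈ V) : 0 < (chi s).im := by
  rw [chi_im h.1]
  have h1 : 0 < ‖den s‖ := norm_pos_iff.2 h.1
  exact div_pos h.2 (by positivity)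

theorem Zf_diff {s : ℂ} (h : s ∈ V) : DifferentiableAt ℂ Zf s := by
  have h1 : DifferentiableAt ℂ Zx (chi s) :=
    Zx_differentiableAt (fun hc => (im_pos h).ne' hc.1)
  exact h1.comp s (hasDerivAt_chi h.1).differentiableAt

theorem general {f : ℂ → ℂ} {d : ℂ} (hf : ∀ᶠ s in 𝓝 (1 : ℂ), DifferentiableAt ℂ f s)
    (h1 : f 1 = 0) (hd : deriv f 1 = d) (hd0 : d ≠ 0) :
    ∃ r C : ℝ, 0 < r ∧ ∀ s ∈ ball (1 : ℂ) r, s ≠ 1 → f s ≠ 0 ∧
      ‖1 / f s - 1 / (d * (s - 1))‖ ≤ C := by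
  obtain ⟨r0, hr0, hb⟩ := Metric.eventually_nhds_iff_ball.1 hf
  have hfd : DifferentiableOn ℂ f (ball 1 r0) := fun s hs =>
    (hb s hs).differentiableWithinAt
  have hmem : ball (1 : ℂ) r0 ∈ 𝓝 (1 : ℂ) := ball_mem_nhds _ hr0
  have hg : DifferentiableOn ℂ (dslope f 1) (ball 1 r0) :=
    (Complex.differentiableOn_dslope hmem).2 hfd
  have hg1 : DifferentiableAt ℂ (dslope f 1) 1 := (hg 1 (mem_ball_self hr0)).differentiableAt hmem
  have hgv : dslope f 1 1 = d := by rw [dslope_same, hd]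
  have hgne : dslope f 1 1 ≠ 0 := by rw [hgv]; exact hd0
  have hh : DifferentiableAt ℂ (fun s => (dslope f 1 s)⁻¹) 1 := hg1.inv hgne
  have hO := hh.isBigO_sub
  obtain ⟨C, hC⟩ := hO.bound
  have hne : ∀ᶠ s in 𝓝 (1 : ℂ), dslope f 1 s ≠ 0 :=
    hg1.continuousAt.eventually_ne hgne
  obtain ⟨r, hr, hall⟩ := Metric.eventually_nhds_iff_ball.1 (hC.and hne)
  refine ⟨r, C, hr, ?_⟩
  intro s hs hs1
  obtain ⟨h2, h3⟩ := hall s hs
  have hs1' : s - 1 ≠ 0 := sub_ne_zero.2 hs1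
  have hval : f s = (s - 1) * dslope f 1 s := by
    have h4 := sub_smul_dslope f 1 s
    rw [h1, sub_zero, smul_eq_mul] at h4
    exact h4.symm
  refine ⟨?_, ?_⟩
  · rw [hval]
    exact mul_ne_zero hs1' h3
  · have h5 : 1 / f s - 1 / (d * (s - 1)) =
        ((dslope f 1 s)⁻¹ - (dslope f 1 1)⁻¹) / (s - 1) := by
      rw [hval, hgv]
      field_simp
    rw [h5, norm_div]
    rw [div_le_iff₀ (norm_pos_iff.2 hs1')]
    exact h2

theorem La_ne : (La : ℂ) ≠ 0 := by
  exact_mod_cast La_pos.ne'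

theorem Zf_one : Zf 1 = I * La := by
  unfold Zf
  rw [chi_one, Zx_I]

theorem deriv_Zf : deriv Zf 1 = -2 / La := by
  have h1 : HasDerivAt Zf (deriv Zf 1) 1 := (Zf_diff one_mem_V).hasDerivAt
  have h2 : HasDerivAt (fun s => Zf s ^ 2) (2 * Zf 1 * deriv Zf 1) 1 := by
    have h0 := h1.pow 2
    have e0 : (Zf ^ 2) = fun s => Zf s ^ 2 := rfl
    rw [e0] at h0
    simpa using h0
  have h3 : HasDerivAt chi (8 / den 1 ^ 2) 1 := hasDerivAt_chi one_mem_V.1
  have h4 : HasDerivAt (fun s => chi s ^ 2 - (Lr : ℂ) ^ 2) (2 * chi 1 * (8 / den 1 ^ 2)) 1 := by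
    have h0 := (h3.pow 2).sub_const ((Lr : ℂ) ^ 2)
    have e0 : (chi ^ 2) = fun s => chi s ^ 2 := rfl
    rw [e0] at h0
    simpa using h0
  have h5 : (fun s => Zf s ^ 2) = fun s => chi s ^ 2 - (Lr : ℂ) ^ 2 := by
    funext s
    unfold Zf
    rw [Zx_sq]
  rw [h5] at h2
  have h6 := h2.unique h4
  rw [Zf_one, chi_one, den_one] at h6
  have h7 : ((-2 * I) ^ 2 : ℂ) = -4 := by
    rw [mul_pow, I_sq]; norm_num
  rw [h7] at h6
  have hI : (I : ℂ) ≠ 0 := I_ne_zero
  rw [eq_div_iff La_ne]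
  have h8 : I * (deriv Zf 1 * La) = I * (-2) := by
    linear_combination (1 / 2 : ℂ) * h6
  exact mul_left_cancel₀ hI h8

theorem S0_pos : 0 < S0 := lt_of_lt_of_le (by norm_num) S0_bounds.1

end PoleAux

open PoleAux in
theorem pole : ∃ r C : ℝ, 0 < r ∧ r ≤ 1 / 2 ∧ ball (1 : ℂ) r ∩ ball (0 : ℂ) 1 ⊆ Wg ∧
    (∀ s ∈ ball (1 : ℂ) r, 0 < 10 * s.re - 3 - 3 * ‖s‖ ^ 2) ∧
    (∀ s ∈ ball (1 : ℂ) r, s ≠ 1 → DifferentiableAt ℂ Gf s ∧
      ‖Gf s - ((S0 * La / 2 : ℝ) : ℂ) / (1 - s)‖ ≤ C ∧ rg < ‖Gf s - bg * I‖ ∧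
      (1 ≤ ‖s‖ → (Gf s).re ≤ -1)) := by
  have hVn : V ∈ nhds (1 : ℂ) := V_open.mem_nhds one_mem_V
  obtain ⟨r0, hr0, hb0⟩ := Metric.mem_nhds_iff.1 hVn
  have hfd : ∀ᶠ s in nhds (1 : ℂ), DifferentiableAt ℂ (fun s => Zf s - I * La) s := by
    filter_upwards [hVn] with s hs
    exact (Zf_diff hs).sub_const _
  have hf1 : (fun s => Zf s - I * La) 1 = 0 := by
    simp [Zf_one]
  have hder : deriv (fun s => Zf s - I * La) 1 = -2 / La := by
    rw [deriv_sub_const, deriv_Zf]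
  have hd0 : (-2 / La : ℂ) ≠ 0 := div_ne_zero (by norm_num) La_ne
  obtain ⟨r1, C, hr1, hC⟩ := general hfd hf1 hder hd0
  have hS := S0_pos
  have hK : 0 < S0 * La / 2 := by
    have := La_pos
    positivity
  set K : ℝ := S0 * La / 2 with hKdef
  set C' : ℝ := ‖a0‖ + S0 * C with hC'
  have hnear : ∀ s ∈ ball (1 : ℂ) r1, s ≠ 1 → ‖Gf s - (K : ℂ) / (1 - s)‖ ≤ C' := by
    intro s hs hs1
    obtain ⟨h2, h3⟩ := hC s hs hs1
    have hs1' : s - 1 ≠ 0 := sub_ne_zero.2 hs1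
    have hs1'' : 1 - s ≠ 0 := sub_ne_zero.2 (Ne.symm hs1)
    have h4 : Gf s - (K : ℂ) / (1 - s) =
        a0 + S0 * (1 / (Zf s - I * La) - 1 / (-2 / La * (s - 1))) := by
      unfold Gf
      rw [hKdef]
      have hL := La_ne
      have h5 : (1 : ℂ) / (-2 / La * (s - 1)) = La / 2 / (1 - s) := by
        field_simp
        ring
      rw [h5]
      push_cast
      field_simp
      ring
    rw [h4]
    refine (norm_add_le _ _).trans ?_
    rw [hC', norm_mul]
    have h6 : ‖(S0 : ℂ)‖ = S0 := by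
      rw [Complex.norm_real, Real.norm_eq_abs, abs_of_pos hS]
    rw [h6]
    have h7 := mul_le_mul_of_nonneg_left h3 hS.le
    linarith
  have hC'0 : 0 ≤ C' := by
    obtain ⟨s, hs, hs1⟩ : ∃ s ∈ ball (1 : ℂ) r1, s ≠ 1 := by
      refine ⟨1 + ((r1 / 2 : ℝ) : ℂ), ?_, ?_⟩
      · rw [mem_ball, dist_eq_norm, add_sub_cancel_left, Complex.norm_real, Real.norm_eq_abs,
          abs_of_pos (by positivity)]
        linarith
      · intro hcon
        have : ((r1 / 2 : ℝ) : ℂ) = 0 := by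
          linear_combination hcon
        have h2 : r1 / 2 = 0 := by exact_mod_cast this
        linarith
    exact (norm_nonneg _).trans (hnear s hs hs1)
  set D : ℝ := C' + |rg| + |bg| + 1 with hD
  have hDpos : 0 < D := by positivity
  set r : ℝ := min (min r0 r1) (min (1 / 2) (K / D)) with hr
  have hrpos : 0 < r := by
    rw [hr]
    exact lt_min (lt_min hr0 hr1) (lt_min (by norm_num) (by positivity))
  have hrr0 : r ≤ r0 := (min_le_left _ _).trans (min_le_left _ _)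
  have hrr1 : r ≤ r1 := (min_le_left _ _).trans (min_le_right _ _)
  have hrh : r ≤ 1 / 2 := (min_le_right _ _).trans (min_le_left _ _)
  have hrK : r ≤ K / D := (min_le_right _ _).trans (min_le_right _ _)
  have hV : ∀ s ∈ ball (1 : ℂ) r, s ∈ V := fun s hs => hb0 (ball_subset_ball hrr0 hs)
  refine ⟨r, C', hrpos, hrh, ?_, fun s hs => (hV s hs).2, ?_⟩
  · rintro s ⟨hs, hs'⟩
    refine ⟨?_, ?_⟩
    · rwa [mem_ball_zero_iff] at hs'
    · intro hcon
      exact (im_pos (hV s hs)).ne' hcon.1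
  · intro s hs hs1
    have hs2 : s ∈ ball (1 : ℂ) r1 := ball_subset_ball hrr1 hs
    obtain ⟨hne, -⟩ := hC s hs2 hs1
    refine ⟨?_, hnear s hs2 hs1, ?_, ?_⟩
    · have h2 := Zf_diff (hV s hs)
      unfold Gf
      exact (differentiableAt_const _).add ((differentiableAt_const _).div (h2.sub_const _) hne)
    · have h3 := hnear s hs2 hs1
      have hs3 : 0 < ‖1 - s‖ := norm_pos_iff.2 (sub_ne_zero.2 (Ne.symm hs1))
      have hs4 : ‖1 - s‖ < r := by
        rw [mem_ball, dist_eq_norm] at hs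
        rwa [norm_sub_rev]
      have h4 : D < K / ‖1 - s‖ := by
        rw [lt_div_iff₀ hs3]
        have h5 : D * ‖1 - s‖ < D * (K / D) :=
          mul_lt_mul_of_pos_left (lt_of_lt_of_le hs4 hrK) hDpos
        rwa [mul_div_cancel₀ _ hDpos.ne'] at h5
      have h6 : ‖(K : ℂ) / (1 - s)‖ = K / ‖1 - s‖ := by
        rw [norm_div, Complex.norm_real, Real.norm_eq_abs, abs_of_pos hK]
      have h7 : ‖(K : ℂ) / (1 - s)‖ ≤ ‖Gf s - bg * I‖ + ‖(bg : ℂ) * I‖ +
          ‖Gf s - (K : ℂ) / (1 - s)‖ := by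
        have e : (K : ℂ) / (1 - s) = (Gf s - bg * I) + bg * I - (Gf s - (K : ℂ) / (1 - s)) := by
          ring
        have e1 := norm_sub_le ((Gf s - bg * I) + bg * I) (Gf s - (K : ℂ) / (1 - s))
        have e2 := norm_add_le (Gf s - bg * I) ((bg : ℂ) * I)
        rw [← e] at e1
        linarith
      have h8 : ‖(bg : ℂ) * I‖ = |bg| := by
        rw [norm_mul, Complex.norm_I, mul_one, Complex.norm_real, Real.norm_eq_abs]
      rw [h6, h8] at h7
      have h9 := le_abs_self rg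
      linarith
    · intro hn
      have hv := hV s hs
      have h2 := im_pos hv
      have h3 : (chi s).re ≤ 0 := by
        rw [chi_re hv.1]
        refine div_nonpos_of_nonpos_of_nonneg ?_ (by positivity)
        nlinarith [norm_nonneg s]
      have h4 : 0 < (Zf s).im := Zx_im_pos h2
      have h5 : (Zf s).re * (Zf s).im = (chi s).re * (chi s).im := Zx_re_mul_im (chi s)
      have h6 : (Zf s).re ≤ 0 := by
        by_contra hcon
        push Not at hcon
        have := mul_pos hcon h4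
        have h7 : (chi s).re * (chi s).im ≤ 0 := mul_nonpos_of_nonpos_of_nonneg h3 h2.le
        linarith
      rw [Gf_re]
      have h8 : S0 * (Zf s).re / ‖Zf s - I * La‖ ^ 2 ≤ 0 :=
        div_nonpos_of_nonpos_of_nonneg (mul_nonpos_of_nonneg_of_nonpos hS.le h6) (by positivity)
      linarith

end Pool.Agent.TRB.Geo
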