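import Pool.Agent.TRB.Runge

/-!
# The polynomial

PROOF. Put f0 s = exp (Phi s/n) on W (differentiable, nonzero), f0'/f0 = Phi'/n, n s f0'/f0 = s * dslope G 0 s = G s - 1 on W.
Step 0. There is d0 > 0 (d0 <= δ/2) such that for all polynomials P: if norm (P s - f0 s) <= d0 and norm (P' s - f0' s) <= d0 for all s in KV then
for all s in KV: P s /= 0 and norm (GP P n s - G s) <= δ, norm (P s - f0 s) <= δ (norm f0 >= c > 0, norm f0' bounded on compact KV).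
Kb := the compact set of hKb (inside W). KE := frontier E inter {norm η <= exp (h/2)}: compact (hEb), inside U (by hfr: η in U or η in W).
Step 1. runge on W for f0, compact set KV union Kb, tolerance d0/4: polynomial Pa.
Ba := a bound of norm (Pa z) for norm z <= R1 := max Rm (exp h) + 1.
Step 2. m := 2 pi j/ρ with j large: m >= m0, m > 0, exp(-m/4) <= d0/8, m * BG * exp(-m/4) <= d0/8 where BG bounds norm (deriv G) on KV, and
exp (m/2) >= 8 (abs H + Ba + 2). R1fun z := I exp(I m b) exp(-m G z), differentiable on U. norm (R1fun z) = exp(-m Re G z), so <= exp(-m/4) on KV,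
norm of its derivative <= m BG exp(-m/4) on KV, and >= exp (m/2) where Re G <= -1/2.
Step 3. runge on U for R1fun, compact KV union Kb union KE, tolerance d1 := min (d0/8) 1: polynomial R1. B1 := bound of norm (R1 z) for norm z <= R1,
bR := bound of norm (R1fun) on KE.
Step 4. bp := R1fun (exp(i pi/k)), bm := R1fun (exp (-i pi/k)), both of norm >= exp(m/2) (hp1, hp2). Choose c3 of norm 1 with
Re (c3 * conj bp) >= 0 and Re (c3 * conj bm) >= 0 (bisector: normalize bp/|bp| + bm/|bm|, or I bp/|bp| if that sum is 0).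
Choose th in (0,1/2) with norm (R1fun (x exp(i pi/k)) - bp) <= norm bp/4 for abs (x-1) <= th, same for bm (continuity, hp1.1, hp2.1).
Step 5. M := 2 k M1 with M1 large: (x_V)^M and M x_V^(M-1) <= d0/8 with x_V = sup of the norms on KV union Kb (< 1, compact inside the unit ball);
(1 - min th c)^M <= 1 (c from hc), (1+th)^M >= bR + abs H + Ba + 3, (min x0 (exp (h/2)))^M >= abs H + Ba + B1 + 1; M > natDegree Pa, natDegree R1.
P := Pa + R1 + C c3 X^M (natDegree P = M >= 1).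
(V1) on KV: norm (P - f0) <= d0/4 + exp(-m/4) + d1 + x_V^M <= d0, same for derivatives; Step 0.
(V2) on Kb: norm (P - f0 - R1fun) <= d0/4 + d1 + x_V^M <= δ.
(V4) x0 <= norm η <= Rm: norm (P η) >= norm η^M - Ba - B1 >= H. Same for exp (h/2) <= norm η <= exp h.
(V3) remaining: η in frontier E, η in U, Re G η <= -1/2, norm η < exp (h/2), so η in KE, norm (R1 η - R1fun η) <= 1, norm (R1fun η) >= exp(m/2).
If norm η <= 1 - min th c: norm (P η) >= exp (m/2) - 1 - Ba - 1 >= H. Otherwise norm η > 1 - c, and by hc η = x exp(+- i pi/k), x = norm η, and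
η^M = x^M (M is a multiple of 2k: exp(i pi/k)^(2k) = 1). If abs (x-1) <= th: norm (R1fun η + c3 x^M) >= norm (bp + c3 x^M) - norm bp/4 >=
(3/4) norm bp >= (3/4) exp (m/2) (Re (c3 x^M conj bp) >= 0), so norm (P η) >= (3/4) exp(m/2) - 1 - Ba >= H. If x >= 1 + th:
norm (P η) >= (1+th)^M - bR - 1 - Ba >= H. If x <= 1 - th it is the first case.
-/

set_option autoImplicit false

namespace Pool.Agent.TRB

open Polynomial Complex Metric Set Filter Topology

private theorem poly_step0 (K : Set ℂ) (hK : IsCompact K) (f f' G : ℂ → ℂ)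
    (hf : ContinuousOn f K) (hf' : ContinuousOn f' K) (hne : ∀ s ∈ K, f s ≠ 0)
    (hs1 : ∀ s ∈ K, ‖s‖ ≤ 1) (n : ℕ) (hG : ∀ s ∈ K, 1 + n * s * f' s / f s = G s)
    (δ : ℝ) (hδ : 0 < δ) :
    ∃ d : ℝ, 0 < d ∧ d ≤ δ ∧ ∀ s ∈ K, ∀ p p' : ℂ, ‖p - f s‖ ≤ d → ‖p' - f' s‖ ≤ d →
      p ≠ 0 ∧ ‖1 + n * s * p' / p - G s‖ ≤ δ := by
  obtain ⟨C0, hC0⟩ := hK.exists_bound_of_continuousOn (hf.inv₀ hne)
  obtain ⟨B0, hB0⟩ := hK.exists_bound_of_continuousOn hf'
  obtain ⟨C, hCp, hC⟩ : ∃ C : ℝ, 0 < C ∧ ∀ s ∈ K, ‖(f s)⁻¹‖ ≤ C :=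
    ⟨|C0| + 1, by positivity, fun s hs => (hC0 s hs).trans (by linarith [le_abs_self C0])⟩
  obtain ⟨B, hBp, hB⟩ : ∃ B : ℝ, 0 < B ∧ ∀ s ∈ K, ‖f' s‖ ≤ B :=
    ⟨|B0| + 1, by positivity, fun s hs => (hB0 s hs).trans (by linarith [le_abs_self B0])⟩
  obtain ⟨d, hd⟩ : ∃ d : ℝ, d = min (min δ (1 / (2 * C)))
    (δ / (2 * C * (1 + B * C) * ((n : ℝ) + 1))) := ⟨_, rfl⟩
  have hd1 : d ≤ δ := by
    rw [hd]
    exact (min_le_left _ _).trans (min_le_left _ _)
  have hd2 : d ≤ 1 / (2 * C) := by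
    rw [hd]
    exact (min_le_left _ _).trans (min_le_right _ _)
  have hd3 : d ≤ δ / (2 * C * (1 + B * C) * ((n : ℝ) + 1)) := by
    rw [hd]
    exact min_le_right _ _
  have hd0 : 0 < d := by
    rw [hd]
    refine lt_min (lt_min hδ ?_) ?_ <;> positivity
  refine ⟨d, hd0, hd1, fun s hs p p' hp hp' => ?_⟩
  have hfs := hne s hs
  have hfpos : 0 < ‖f s‖ := norm_pos_iff.2 hfs
  have h1 : 1 / C ≤ ‖f s‖ := by
    have := hC s hs
    rw [norm_inv] at this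
    rw [div_le_iff₀ hCp]
    have h2 : ‖f s‖ * ‖f s‖⁻¹ = 1 := mul_inv_cancel₀ hfpos.ne'
    nlinarith
  have h2 : 1 / (2 * C) ≤ ‖p‖ := by
    have h3 : ‖f s‖ - ‖p‖ ≤ ‖p - f s‖ := by
      rw [norm_sub_rev]
      exact norm_sub_norm_le _ _
    have h4 : 1 / C = 1 / (2 * C) + 1 / (2 * C) := by
      field_simp
      norm_num
    linarith
  have hCC : 0 < 1 / (2 * C) := by positivity
  have hppos : 0 < ‖p‖ := lt_of_lt_of_le hCC h2
  have hp0 : p ≠ 0 := norm_pos_iff.1 hppos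
  refine ⟨hp0, ?_⟩
  rw [← hG s hs]
  have e1 : 1 + n * s * p' / p - (1 + n * s * f' s / f s) =
      n * s * (((p' - f' s) - f' s * (f s)⁻¹ * (p - f s)) * p⁻¹) := by
    field_simp
    ring
  rw [e1, norm_mul, norm_mul, norm_mul]
  have h5 : ‖(p' - f' s) - f' s * (f s)⁻¹ * (p - f s)‖ ≤ d + B * C * d := by
    refine (norm_sub_le _ _).trans ?_
    rw [norm_mul, norm_mul]
    have h6 : ‖f' s‖ * ‖(f s)⁻¹‖ ≤ B * C := mul_le_mul (hB s hs) (hC s hs) (norm_nonneg _) hBp.le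
    have h7 : ‖f' s‖ * ‖(f s)⁻¹‖ * ‖p - f s‖ ≤ B * C * d :=
      mul_le_mul h6 hp (norm_nonneg _) (by positivity)
    linarith
  have h8 : ‖p⁻¹‖ ≤ 2 * C := by
    rw [norm_inv]
    rw [div_le_iff₀ (by positivity)] at h2
    rw [inv_le_iff_one_le_mul₀ hppos]
    linarith
  have h9 : ‖(n : ℂ)‖ * ‖s‖ ≤ (n : ℝ) + 1 := by
    rw [Complex.norm_natCast]
    have := hs1 s hs
    have hn : (0 : ℝ) ≤ n := Nat.cast_nonneg n
    nlinarith [norm_nonneg s]
  have h10 : ‖(p' - f' s) - f' s * (f s)⁻¹ * (p - f s)‖ * ‖p⁻¹‖ ≤ (d + B * C * d) * (2 * C) :=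
    mul_le_mul h5 h8 (norm_nonneg _) (by positivity)
  have h11 : ‖(n : ℂ)‖ * ‖s‖ * (‖(p' - f' s) - f' s * (f s)⁻¹ * (p - f s)‖ * ‖p⁻¹‖) ≤
      ((n : ℝ) + 1) * ((d + B * C * d) * (2 * C)) :=
    mul_le_mul h9 h10 (by positivity) (by positivity)
  refine h11.trans ?_
  rw [le_div_iff₀ (by positivity)] at hd3
  calc ((n : ℝ) + 1) * ((d + B * C * d) * (2 * C)) = d * (2 * C * (1 + B * C) * ((n : ℝ) + 1)) := by
        ring
    _ ≤ δ := hd3

private theorem poly_c3 (p q : ℂ) (hp : p ≠ 0) :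
    ∃ c : ℂ, ‖c‖ = 1 ∧ 0 ≤ (c * (starRingEnd ℂ) p).re ∧ 0 ≤ (c * (starRingEnd ℂ) q).re := by
  have hpn : (0 : ℝ) < ‖p‖ := norm_pos_iff.2 hp
  have hn : ‖I * p / (‖p‖ : ℂ)‖ = 1 := by
    rw [norm_div, norm_mul, Complex.norm_I, one_mul, Complex.norm_real, norm_norm,
      div_self hpn.ne']
  have h0 : (I * p / (‖p‖ : ℂ) * (starRingEnd ℂ) p).re = 0 := by
    have e : I * p / (‖p‖ : ℂ) * (starRingEnd ℂ) p = I * ((‖p‖ : ℝ) : ℂ) := by
      have h1 : p * (starRingEnd ℂ) p = ((‖p‖ : ℝ) : ℂ) ^ 2 := by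
        rw [Complex.mul_conj, Complex.normSq_eq_norm_sq]
        push_cast
        rfl
      have h2 : (‖p‖ : ℂ) ≠ 0 := by exact_mod_cast hpn.ne'
      calc I * p / (‖p‖ : ℂ) * (starRingEnd ℂ) p = I * (p * (starRingEnd ℂ) p) / (‖p‖ : ℂ) := by
            ring
        _ = I * ((‖p‖ : ℝ) : ℂ) := by
            rw [h1]
            field_simp
    rw [e]
    simp
  rcases le_total 0 (I * p / (‖p‖ : ℂ) * (starRingEnd ℂ) q).re with h | h
  · exact ⟨_, hn, h0.ge, h⟩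
  · refine ⟨-(I * p / (‖p‖ : ℂ)), by rw [norm_neg, hn], ?_, ?_⟩
    · rw [neg_mul, Complex.neg_re, h0, neg_zero]
    · rw [neg_mul, Complex.neg_re]
      linarith

private theorem poly_lb (b c : ℂ) (h : 0 ≤ (c * (starRingEnd ℂ) b).re) (t : ℝ) (ht : 0 ≤ t) :
    ‖b‖ ≤ ‖b + c * (t : ℂ)‖ := by
  have h1 : ‖b‖ ^ 2 ≤ ‖b + c * (t : ℂ)‖ ^ 2 := by
    rw [← Complex.normSq_eq_norm_sq, ← Complex.normSq_eq_norm_sq, Complex.normSq_add]
    have h2 : (b * (starRingEnd ℂ) (c * (t : ℂ))).re = t * (c * (starRingEnd ℂ) b).re := by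
      rw [map_mul, Complex.conj_ofReal]
      simp only [Complex.mul_re, Complex.mul_im, Complex.conj_re, Complex.conj_im,
        Complex.ofReal_re, Complex.ofReal_im]
      ring
    rw [h2]
    have h3 := Complex.normSq_nonneg (c * (t : ℂ))
    have h4 := mul_nonneg ht h
    linarith
  exact le_of_sq_le_sq h1 (norm_nonneg _)

private theorem poly_m (m₀ ρ e BG Y : ℝ) (hρ : 0 < ρ) (he : 0 < e) :
    ∃ m : ℝ, m₀ ≤ m ∧ 1 ≤ m ∧ (∃ j : ℕ, m * ρ = 2 * Real.pi * j) ∧ Real.exp (-m / 4) ≤ e ∧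
      m * BG * Real.exp (-m / 4) ≤ e ∧ Y ≤ Real.exp (m / 2) := by
  have h1 : Tendsto (fun m : ℝ => Real.exp (-m / 4)) atTop (𝓝 0) := by
    have : Tendsto (fun m : ℝ => -m / 4) atTop atBot := by
      have h := (tendsto_id (α := ℝ) (x := atTop)).atTop_mul_const (by norm_num : (0:ℝ) < 1 / 4)
      have h' := tendsto_neg_atTop_atBot.comp h
      refine h'.congr (fun m => ?_)
      simp only [Function.comp, id]
      ring
    exact Real.tendsto_exp_atBot.comp this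
  have h2 : Tendsto (fun m : ℝ => m * BG * Real.exp (-m / 4)) atTop (𝓝 0) := by
    have h := Real.tendsto_pow_mul_exp_neg_atTop_nhds_zero 1
    have h3 : Tendsto (fun m : ℝ => m / 4) atTop atTop :=
      tendsto_id.atTop_div_const (by norm_num)
    have h4 := (h.comp h3).const_mul (4 * BG)
    rw [mul_zero] at h4
    refine h4.congr (fun m => ?_)
    simp only [Function.comp, pow_one]
    rw [neg_div]
    ring
  have h5 : Tendsto (fun m : ℝ => Real.exp (m / 2)) atTop atTop :=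
    Real.tendsto_exp_atTop.comp (tendsto_id.atTop_div_const (by norm_num))
  have h6 : Tendsto (fun j : ℕ => 2 * Real.pi * j / ρ) atTop atTop := by
    have h := (tendsto_natCast_atTop_atTop (R := ℝ)).const_mul_atTop
      (by positivity : (0 : ℝ) < 2 * Real.pi)
    exact h.atTop_div_const hρ
  have hev := ((((eventually_ge_atTop m₀).and (eventually_ge_atTop (1 : ℝ))).and
    ((h1.eventually_le_const he).and (h2.eventually_le_const he))).and
    (h5.eventually_ge_atTop Y))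
  obtain ⟨j, ⟨⟨ha, hb⟩, hc, hd⟩, hY⟩ := (h6.eventually hev).exists
  refine ⟨2 * Real.pi * j / ρ, ha, hb, ⟨j, ?_⟩, hc, hd, hY⟩
  field_simp

private theorem poly_M (x e y1 Y1 y2 Y2 : ℝ) (hx0 : 0 ≤ x) (hx1 : x < 1) (he : 0 < e)
    (hy1 : 1 < y1) (hy2 : 1 < y2) (k N : ℕ) (hk : 1 ≤ k) :
    ∃ M : ℕ, (∃ M1 : ℕ, M = 2 * k * M1) ∧ x ^ M ≤ e ∧ M * x ^ (M - 1) ≤ e ∧ Y1 ≤ y1 ^ M ∧
      Y2 ≤ y2 ^ M ∧ N < M := by
  have h1 : Tendsto (fun M : ℕ => x ^ M) atTop (𝓝 0) :=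
    tendsto_pow_atTop_nhds_zero_of_lt_one hx0 hx1
  have h2 : Tendsto (fun M : ℕ => (M : ℝ) * x ^ (M - 1)) atTop (𝓝 0) := by
    have ha : Tendsto (fun M : ℕ => (M : ℝ) * x ^ M) atTop (𝓝 0) :=
      tendsto_self_mul_const_pow_of_lt_one hx0 hx1
    have hb : Tendsto (fun M : ℕ => ((M + 1 : ℕ) : ℝ) * x ^ M) atTop (𝓝 0) := by
      have hc := ha.add h1
      rw [add_zero] at hc
      refine hc.congr (fun M => ?_)
      push_cast
      ring
    have hd : Tendsto (fun M : ℕ => ((M + 1 : ℕ) : ℝ) * x ^ (M + 1 - 1)) atTop (𝓝 0) := hb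
    exact (tendsto_add_atTop_iff_nat (f := fun M : ℕ => (M : ℝ) * x ^ (M - 1)) 1).1 hd
  have h3 : Tendsto (fun M : ℕ => y1 ^ M) atTop atTop := tendsto_pow_atTop_atTop_of_one_lt hy1
  have h4 : Tendsto (fun M : ℕ => y2 ^ M) atTop atTop := tendsto_pow_atTop_atTop_of_one_lt hy2
  have h5 : Tendsto (fun M1 : ℕ => 2 * k * M1) atTop atTop := by
    refine tendsto_atTop_mono (fun M1 => ?_) tendsto_id
    simp only [id]
    nlinarith
  have hev := (((h1.eventually_le_const he).and (h2.eventually_le_const he)).and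
    ((h3.eventually_ge_atTop Y1).and (h4.eventually_ge_atTop Y2))).and (eventually_gt_atTop N)
  obtain ⟨M1, ⟨⟨ha, hb⟩, hc, hd⟩, hN⟩ := (h5.eventually hev).exists
  exact ⟨2 * k * M1, ⟨M1, rfl⟩, ha, hb, hc, hd, hN⟩

private theorem poly_xV (K : Set ℂ) (hK : IsCompact K) (hsub : K ⊆ ball (0 : ℂ) 1) :
    ∃ x : ℝ, 0 ≤ x ∧ x < 1 ∧ ∀ s ∈ K, ‖s‖ ≤ x := by
  rcases K.eq_empty_or_nonempty with rfl | hne
  · exact ⟨0, le_rfl, zero_lt_one, fun s hs => absurd hs (notMem_empty s)⟩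
  · obtain ⟨s0, hs0, hmax⟩ := hK.exists_isMaxOn hne continuous_norm.continuousOn
    refine ⟨‖s0‖, norm_nonneg _, ?_, fun s hs => hmax hs⟩
    have := hsub hs0
    rwa [mem_ball_zero_iff] at this

private theorem poly_R1_norm (G : ℂ → ℂ) (m b : ℝ) (z : ℂ) :
    ‖I * exp (I * m * b) * exp (-m * G z)‖ = Real.exp (-(m * (G z).re)) := by
  rw [norm_mul, norm_mul, Complex.norm_I, one_mul, Complex.norm_exp, Complex.norm_exp]
  have h1 : (I * (m : ℂ) * (b : ℂ)).re = 0 := by simp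
  have h2 : (-(m : ℂ) * G z).re = -(m * (G z).re) := by simp
  rw [h1, h2, Real.exp_zero, one_mul]

private theorem poly_R1_deriv (G : ℂ → ℂ) (m b : ℝ) (z : ℂ) (hG : DifferentiableAt ℂ G z) :
    HasDerivAt (fun z => I * exp (I * m * b) * exp (-m * G z))
      (I * exp (I * m * b) * exp (-m * G z) * (-m * deriv G z)) z := by
  have h1 := (hG.hasDerivAt.const_mul (-(m : ℂ))).cexp.const_mul (I * exp (I * m * b))
  refine h1.congr_deriv ?_
  ring

private theorem poly_th (f : ℂ → ℂ) (z : ℂ) (hf : ContinuousAt f z) (e : ℝ) (he : 0 < e) :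
    ∃ th : ℝ, 0 < th ∧ th < 1 / 2 ∧ ∀ t : ℝ, |t - 1| ≤ th → ‖f (t * z) - f z‖ ≤ e := by
  have hg : ContinuousAt (fun t : ℝ => f ((t : ℂ) * z)) 1 := by
    have h1 : ContinuousAt (fun t : ℝ => (t : ℂ) * z) 1 := by fun_prop
    have h2 : ContinuousAt f ((fun t : ℝ => (t : ℂ) * z) 1) := by
      simpa using hf
    exact ContinuousAt.comp h2 h1
  obtain ⟨d, hd, H⟩ := Metric.continuousAt_iff.1 hg e he
  refine ⟨min (d / 2) (1 / 4), lt_min (by linarith) (by norm_num),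
    lt_of_le_of_lt (min_le_right _ _) (by norm_num), fun t ht => ?_⟩
  have h3 : |t - 1| ≤ d / 2 := ht.trans (min_le_left _ _)
  have h4 := H (x := t) (by rw [Real.dist_eq]; linarith)
  rw [dist_eq_norm] at h4
  simp only [Complex.ofReal_one, one_mul] at h4
  exact h4.le

private theorem poly_root (k : ℕ) (hk : 1 ≤ k) (M1 : ℕ) (x : ℝ) :
    ((x : ℂ) * exp ((Real.pi / k : ℝ) * I)) ^ (2 * k * M1) = ((x ^ (2 * k * M1) : ℝ) : ℂ) ∧
    ((x : ℂ) * exp (-((Real.pi / k : ℝ) * I))) ^ (2 * k * M1) = ((x ^ (2 * k * M1) : ℝ) : ℂ) := by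
  have hk0 : (k : ℂ) ≠ 0 := by exact_mod_cast (by omega : k ≠ 0)
  have h1 : exp ((Real.pi / k : ℝ) * I) ^ (2 * k) = 1 := by
    rw [← Complex.exp_nat_mul]
    have : (((2 * k : ℕ) : ℂ)) * (((Real.pi / k : ℝ) : ℂ) * I) = 2 * Real.pi * I := by
      push_cast
      field_simp
    rw [this, Complex.exp_two_pi_mul_I]
  have h2 : exp (-((Real.pi / k : ℝ) * I)) ^ (2 * k) = 1 := by
    rw [Complex.exp_neg, inv_pow, h1, inv_one]
  constructor
  · rw [mul_pow, pow_mul (exp _), h1, one_pow, mul_one]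
    push_cast
    rfl
  · rw [mul_pow, pow_mul (exp _), h2, one_pow, mul_one]
    push_cast
    rfl

private theorem poly_edge (f : ℂ → ℂ) (z c : ℂ) (hc : 0 ≤ (c * (starRingEnd ℂ) (f z)).re)
    (M : ℕ) (x : ℝ) (hx : 0 ≤ x) (hpow : ((x : ℂ) * z) ^ M = ((x ^ M : ℝ) : ℂ))
    (hnear : ‖f (x * z) - f z‖ ≤ ‖f z‖ / 4) :
    3 / 4 * ‖f z‖ ≤ ‖f (x * z) + c * (x * z) ^ M‖ := by
  rw [hpow]
  have h1 := poly_lb (f z) c hc (x ^ M) (pow_nonneg hx M)
  have h2 : ‖f z + c * ((x ^ M : ℝ) : ℂ)‖ ≤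
      ‖f (x * z) + c * ((x ^ M : ℝ) : ℂ)‖ + ‖f (x * z) - f z‖ := by
    have h3 : f z + c * ((x ^ M : ℝ) : ℂ) =
        (f (x * z) + c * ((x ^ M : ℝ) : ℂ)) - (f (x * z) - f z) := by ring
    rw [h3]
    exact norm_sub_le _ _
  linarith

private theorem poly_f0 (D : Data) (Φ : ℂ → ℂ)
    (hΦ : ∀ s ∈ D.W, HasDerivAt Φ (dslope D.G 0 s) s) (n : ℕ) (s : ℂ) (hs : s ∈ D.W) :
    HasDerivAt (fun s => exp (Φ s / n)) (exp (Φ s / n) * (dslope D.G 0 s / n)) s :=
  ((hΦ s hs).div_const (n : ℂ)).cexp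

private theorem poly_A (D : Data) (Φ : ℂ → ℂ)
    (hΦ : ∀ s ∈ D.W, HasDerivAt Φ (dslope D.G 0 s) s) (n : ℕ) (hn : 1 ≤ n) (KV : Set ℂ)
    (hKV : IsCompact KV) (hKVW : KV ⊆ D.W) (δ : ℝ) (hδ : 0 < δ) :
    ∃ d : ℝ, 0 < d ∧ d ≤ δ ∧ ∀ s ∈ KV, ∀ P : ℂ[X], ‖P.eval s - exp (Φ s / n)‖ ≤ d →
      ‖P.derivative.eval s - deriv (fun s => exp (Φ s / n)) s‖ ≤ d →
      P.eval s ≠ 0 ∧ ‖GP P n s - D.G s‖ ≤ δ := by
  have hn0 : (n : ℂ) ≠ 0 := by exact_mod_cast (by omega : n ≠ 0)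
  have hdiff : DifferentiableOn ℂ (fun s => exp (Φ s / n)) D.W := fun s hs =>
    (poly_f0 D Φ hΦ n s hs).differentiableAt.differentiableWithinAt
  obtain ⟨d, hd0, hd1, H⟩ := poly_step0 KV hKV (fun s => exp (Φ s / n))
    (deriv (fun s => exp (Φ s / n))) D.G (hdiff.continuousOn.mono hKVW)
    ((hdiff.deriv D.hWo).continuousOn.mono hKVW) (fun s _ => Complex.exp_ne_zero _)
    (fun s hs => by
      have := D.hWb (hKVW hs)
      rw [mem_ball_zero_iff] at this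
      exact this.le) n (fun s hs => by
      rw [(poly_f0 D Φ hΦ n s (hKVW hs)).deriv]
      have h1 := sub_smul_dslope D.G 0 s
      rw [D.hG0, sub_zero, smul_eq_mul] at h1
      have h2 := Complex.exp_ne_zero (Φ s / n)
      have h3 : (1 : ℂ) + n * s * (exp (Φ s / n) * (dslope D.G 0 s / n)) / exp (Φ s / n) =
          1 + s * dslope D.G 0 s := by
        field_simp
      rw [h3, h1]
      ring) δ hδ
  refine ⟨d, hd0, hd1, fun s hs P h1 h2 => ?_⟩
  exact H s hs (P.eval s) (P.derivative.eval s) h1 h2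

private theorem poly_bound (P : ℂ[X]) (R : ℝ) : ∃ B : ℝ, 0 ≤ B ∧ ∀ z : ℂ, ‖z‖ ≤ R →
    ‖P.eval z‖ ≤ B := by
  obtain ⟨B, hB⟩ := (isCompact_closedBall (0 : ℂ) R).exists_bound_of_continuousOn
    P.continuous.continuousOn
  exact ⟨|B|, abs_nonneg _, fun z hz => (hB z (by rwa [mem_closedBall_zero_iff])).trans
    (le_abs_self B)⟩

private theorem poly_fun_bound (K : Set ℂ) (hK : IsCompact K) (f : ℂ → ℂ)
    (hf : ContinuousOn f K) : ∃ B : ℝ, 0 ≤ B ∧ ∀ z ∈ K, ‖f z‖ ≤ B := by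
  obtain ⟨B, hB⟩ := hK.exists_bound_of_continuousOn hf
  exact ⟨|B|, abs_nonneg _, fun z hz => (hB z hz).trans (le_abs_self B)⟩

private theorem poly_eval (Pa R1 : ℂ[X]) (c : ℂ) (M : ℕ) (z : ℂ) :
    (Pa + R1 + C c * X ^ M).eval z = Pa.eval z + R1.eval z + c * z ^ M := by
  simp

private theorem poly_eval_deriv (Pa R1 : ℂ[X]) (c : ℂ) (M : ℕ) (z : ℂ) :
    (Pa + R1 + C c * X ^ M).derivative.eval z =
      Pa.derivative.eval z + R1.derivative.eval z + c * (M * z ^ (M - 1)) := by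
  simp [Polynomial.derivative_X_pow]

private theorem poly_natDegree (Pa R1 : ℂ[X]) (c : ℂ) (hc : ‖c‖ = 1) (M : ℕ)
    (h1 : Pa.natDegree < M) (h2 : R1.natDegree < M) :
    1 ≤ (Pa + R1 + C c * X ^ M).natDegree := by
  have hc0 : c ≠ 0 := by
    intro h
    rw [h, norm_zero] at hc
    exact zero_ne_one hc
  have h3 : (Pa + R1 + C c * X ^ M).coeff M = c := by
    rw [coeff_add, coeff_add, coeff_eq_zero_of_natDegree_lt h1,
      coeff_eq_zero_of_natDegree_lt h2]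
    simp
  have h4 : M ≤ (Pa + R1 + C c * X ^ M).natDegree :=
    le_natDegree_of_ne_zero (by rw [h3]; exact hc0)
  omega

private theorem poly_tri1 (a b r f x : ℂ) :
    ‖a + r + x - b‖ ≤ ‖b - a‖ + ‖f - r‖ + ‖f‖ + ‖x‖ := by
  have h1 : a + r + x - b = -(b - a) - (f - r) + f + x := by ring
  rw [h1]
  have h2 := norm_add_le (-(b - a) - (f - r) + f) x
  have h3 := norm_add_le (-(b - a) - (f - r)) f
  have h4 := norm_sub_le (-(b - a)) (f - r)
  rw [norm_neg] at h4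
  linarith

private theorem poly_tri2 (a b r f x : ℂ) :
    ‖a + r + x - b - f‖ ≤ ‖b - a‖ + ‖f - r‖ + ‖x‖ := by
  have h1 : a + r + x - b - f = -(b - a) - (f - r) + x := by ring
  rw [h1]
  have h2 := norm_add_le (-(b - a) - (f - r)) x
  have h4 := norm_sub_le (-(b - a)) (f - r)
  rw [norm_neg] at h4
  linarith

private theorem poly_tri3 (a r x : ℂ) : ‖x‖ - ‖a‖ - ‖r‖ ≤ ‖a + r + x‖ := by
  have h1 : x = (a + r + x) - a - r := by ring
  have h2 := norm_sub_le ((a + r + x) - a) r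
  have h3 := norm_sub_le (a + r + x) a
  rw [← h1] at h2
  linarith

private theorem poly_tri4 (a r f x : ℂ) : ‖f + x‖ - ‖a‖ - ‖f - r‖ ≤ ‖a + r + x‖ := by
  have h1 : f + x = (a + r + x) - a + (f - r) := by ring
  have h2 := norm_add_le ((a + r + x) - a) (f - r)
  have h3 := norm_sub_le (a + r + x) a
  rw [← h1] at h2
  linarith

/-- the polynomial: `P = P_a + R_1 + c_3 X ^ M` -/
theorem Data.poly (D : Data) (Φ : ℂ → ℂ) (hΦ : ∀ s ∈ D.W, HasDerivAt Φ (dslope D.G 0 s) s)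
    (n : ℕ) (hn : 1 ≤ n) (KV : Set ℂ) (hKV : IsCompact KV) (hKVW : KV ⊆ D.W)
    (hKVG : ∀ s ∈ KV, 1 / 4 ≤ (D.G s).re) (δ : ℝ) (hδ : 0 < δ) (H x₀ Rm m₀ : ℝ) (hx₀ : 1 < x₀) :
    ∃ m : ℝ, m₀ ≤ m ∧ (∃ j : ℕ, m * D.ρ = 2 * Real.pi * j) ∧ ∃ P : ℂ[X], 1 ≤ P.natDegree ∧
      (∀ s ∈ KV, P.eval s ≠ 0 ∧ ‖GP P n s - D.G s‖ ≤ δ ∧ ‖P.eval s - exp (Φ s / n)‖ ≤ δ) ∧
      (∀ η ∈ D.W, -1 / 2 ≤ (D.G η).re → ‖D.G η - D.b * I‖ = D.ρ →
        ‖P.eval η - exp (Φ η / n) - I * exp (I * m * D.b) * exp (-m * D.G η)‖ ≤ δ) ∧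
      (∀ η ∈ frontier D.E, (η ∈ D.U ∧ (D.G η).re ≤ -1 / 2 ∧ ‖η‖ < Real.exp D.h) ∨
        ‖η‖ = Real.exp D.h → H ≤ ‖P.eval η‖) ∧
      (∀ η : ℂ, x₀ ≤ ‖η‖ → ‖η‖ ≤ Rm → H ≤ ‖P.eval η‖) := by
  obtain ⟨d0, hd0, hd0δ, HA⟩ := poly_A D Φ hΦ n hn KV hKV hKVW δ hδ
  obtain ⟨Kb, hKbdef⟩ : ∃ Kb : Set ℂ, Kb = {η | η ∈ D.W ∧ -1 / 2 ≤ (D.G η).re ∧
    ‖D.G η - D.b * I‖ = D.ρ} := ⟨_, rfl⟩
  have hKb : IsCompact Kb := by
    rw [hKbdef]
    exact D.hKb
  have hKbW : Kb ⊆ D.W := by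
    rw [hKbdef]
    intro η h
    exact h.1
  have hK1 : IsCompact (KV ∪ Kb) := hKV.union hKb
  have hK1W : KV ∪ Kb ⊆ D.W := union_subset hKVW hKbW
  have hf0 : DifferentiableOn ℂ (fun s => exp (Φ s / n)) D.W := fun s hs =>
    (poly_f0 D Φ hΦ n s hs).differentiableAt.differentiableWithinAt
  obtain ⟨Pa, hPa⟩ := runge D.W D.hWo D.hRW (fun s => exp (Φ s / n)) hf0 (KV ∪ Kb) hK1 hK1W
    (d0 / 4) (by positivity)
  obtain ⟨Ba, hBa0, hBa⟩ := poly_bound Pa (max Rm (Real.exp D.h) + 1)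
  obtain ⟨BG, hBG0, hBG⟩ := poly_fun_bound KV hKV (deriv D.G)
    (((D.hG.deriv D.hUo).continuousOn).mono (hKVW.trans D.hWU))
  obtain ⟨m, hm0, hm1, hmρ, hme, hmBG, hmY⟩ := poly_m m₀ D.ρ (d0 / 8) BG
    (8 * (|H| + Ba + 2)) D.hρ (by positivity)
  obtain ⟨F, hF⟩ : ∃ F : ℂ → ℂ, F = fun z => I * exp (I * m * D.b) * exp (-m * D.G z) :=
    ⟨_, rfl⟩
  have hFn : ∀ z, ‖F z‖ = Real.exp (-(m * (D.G z).re)) := by
    intro z
    rw [hF]
    exact poly_R1_norm D.G m D.b z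
  have hFd : ∀ z ∈ D.U, HasDerivAt F (F z * (-m * deriv D.G z)) z := by
    intro z hz
    rw [hF]
    exact poly_R1_deriv D.G m D.b z (D.hG.differentiableAt (D.hUo.mem_nhds hz))
  have hFdiff : DifferentiableOn ℂ F D.U := fun z hz =>
    (hFd z hz).differentiableAt.differentiableWithinAt
  obtain ⟨KE, hKE⟩ : ∃ KE : Set ℂ, KE = frontier D.E ∩ closedBall 0 (Real.exp (D.h / 2)) :=
    ⟨_, rfl⟩
  have hKEc : IsCompact KE := by
    rw [hKE]
    exact (isCompact_closedBall _ _).inter_left isClosed_frontier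
  have hh2 : Real.exp (D.h / 2) < Real.exp D.h := Real.exp_lt_exp.2 (by linarith [D.hh])
  have hh1 : 1 < Real.exp (D.h / 2) := by
    rw [← Real.exp_zero]
    exact Real.exp_lt_exp.2 (by linarith [D.hh])
  have hKEU : KE ⊆ D.U := by
    rw [hKE]
    rintro η ⟨h1, h2⟩
    rw [mem_closedBall_zero_iff] at h2
    rcases D.hfr η h1 with h | h | h
    · exact h.1
    · exact D.hWU h.1
    · linarith
  have hK3 : IsCompact (KV ∪ Kb ∪ KE) := hK1.union hKEc
  have hK3U : KV ∪ Kb ∪ KE ⊆ D.U := union_subset (hK1W.trans D.hWU) hKEU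
  obtain ⟨R1, hR1⟩ := runge D.U D.hUo D.hRU F hFdiff (KV ∪ Kb ∪ KE) hK3 hK3U
    (min (d0 / 8) 1) (lt_min (by positivity) one_pos)
  obtain ⟨B1, hB10, hB1⟩ := poly_bound R1 (max Rm (Real.exp D.h) + 1)
  obtain ⟨bR, hbR0, hbR⟩ := poly_fun_bound KE hKEc F (hFdiff.continuousOn.mono hKEU)
  -- the two points
  obtain ⟨ep, hep⟩ : ∃ ep : ℂ, ep = exp ((Real.pi / D.k : ℝ) * I) := ⟨_, rfl⟩
  obtain ⟨em, hem⟩ : ∃ em : ℂ, em = exp (-((Real.pi / D.k : ℝ) * I)) := ⟨_, rfl⟩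
  have hp1 := D.hp1
  have hp2 := D.hp2
  rw [← hep] at hp1
  rw [← hem] at hp2
  have hFlow : ∀ z : ℂ, (D.G z).re ≤ -1 / 2 → Real.exp (m / 2) ≤ ‖F z‖ := by
    intro z hz
    rw [hFn]
    apply Real.exp_le_exp.2
    nlinarith
  have hbp := hFlow ep hp1.2
  have hbm := hFlow em hp2.2
  have hexp0 := Real.exp_pos (m / 2)
  have hFp0 : 0 < ‖F ep‖ := lt_of_lt_of_le hexp0 hbp
  have hFm0 : 0 < ‖F em‖ := lt_of_lt_of_le hexp0 hbm
  obtain ⟨c3, hc3n, hc3p, hc3m⟩ := poly_c3 (F ep) (F em) (norm_pos_iff.1 hFp0)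
  obtain ⟨th1, hth10, hth11, hth1⟩ := poly_th F ep
    (hFd ep hp1.1).continuousAt (‖F ep‖ / 4) (by positivity)
  obtain ⟨th2, hth20, hth21, hth2⟩ := poly_th F em
    (hFd em hp2.1).continuousAt (‖F em‖ / 4) (by positivity)
  obtain ⟨c, hc0, hc⟩ := D.hc
  obtain ⟨th, hth⟩ : ∃ th : ℝ, th = min th1 th2 := ⟨_, rfl⟩
  have hth0 : 0 < th := by
    rw [hth]
    exact lt_min hth10 hth20
  have htha : th ≤ th1 := by
    rw [hth]
    exact min_le_left _ _
  have hthb : th ≤ th2 := by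
    rw [hth]
    exact min_le_right _ _
  obtain ⟨xV, hxV0, hxV1, hxV⟩ := poly_xV (KV ∪ Kb) hK1 (hK1W.trans D.hWb)
  obtain ⟨M, ⟨M1, hM1⟩, hMa, hMb, hMc, hMd, hMN⟩ := poly_M xV (d0 / 8) (1 + th)
    (bR + |H| + Ba + 3) (min x₀ (Real.exp (D.h / 2))) (|H| + Ba + B1 + 1) hxV0 hxV1
    (by positivity) (by linarith) (lt_min hx₀ hh1) D.k (Pa.natDegree + R1.natDegree) D.hk
  have hHabs : H ≤ |H| := le_abs_self H
  have hxM : ∀ s ∈ KV ∪ Kb, ‖c3 * s ^ M‖ ≤ d0 / 8 := by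
    intro s hs
    rw [norm_mul, hc3n, one_mul, norm_pow]
    exact (pow_le_pow_left₀ (norm_nonneg _) (hxV s hs) M).trans hMa
  have hxM' : ∀ s ∈ KV ∪ Kb, ‖c3 * (M * s ^ (M - 1))‖ ≤ d0 / 8 := by
    intro s hs
    rw [norm_mul, hc3n, one_mul, norm_mul, norm_pow, Complex.norm_natCast]
    refine le_trans ?_ hMb
    exact mul_le_mul_of_nonneg_left (pow_le_pow_left₀ (norm_nonneg _) (hxV s hs) (M - 1))
      (Nat.cast_nonneg M)
  have hR1min : ∀ s ∈ KV ∪ Kb ∪ KE, ‖F s - R1.eval s‖ ≤ d0 / 8 ∧ ‖F s - R1.eval s‖ ≤ 1 ∧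
      ‖deriv F s - R1.derivative.eval s‖ ≤ d0 / 8 := by
    intro s hs
    have h1 := hR1 s hs
    exact ⟨h1.1.le.trans (min_le_left _ _), h1.1.le.trans (min_le_right _ _),
      h1.2.le.trans (min_le_left _ _)⟩
  have hbig : ∀ η : ℂ, min x₀ (Real.exp (D.h / 2)) ≤ ‖η‖ →
      ‖η‖ ≤ max Rm (Real.exp D.h) + 1 → H ≤ ‖(Pa + R1 + Polynomial.C c3 * X ^ M).eval η‖ := by
    intro η h1 h2
    rw [poly_eval]
    have h3 := poly_tri3 (Pa.eval η) (R1.eval η) (c3 * η ^ M)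
    have h4 := hBa η h2
    have h5 := hB1 η h2
    have h6 : min x₀ (Real.exp (D.h / 2)) ^ M ≤ ‖c3 * η ^ M‖ := by
      rw [norm_mul, hc3n, one_mul, norm_pow]
      exact pow_le_pow_left₀ (lt_min (by linarith) (by linarith)).le h1 M
    linarith
  refine ⟨m, hm0, hmρ, Pa + R1 + Polynomial.C c3 * X ^ M,
    poly_natDegree Pa R1 c3 hc3n M (by omega) (by omega), ?_, ?_, ?_, ?_⟩
  · intro s hs
    have hsK : s ∈ KV ∪ Kb := Or.inl hs
    have hsK3 : s ∈ KV ∪ Kb ∪ KE := Or.inl hsK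
    have hsU : s ∈ D.U := D.hWU (hKVW hs)
    have a1 := (hPa s hsK).1.le
    have a2 := (hPa s hsK).2.le
    obtain ⟨r1, _, r3⟩ := hR1min s hsK3
    have hF1 : ‖F s‖ ≤ Real.exp (-m / 4) := by
      rw [hFn]
      apply Real.exp_le_exp.2
      have := hKVG s hs
      nlinarith
    have hF2 : ‖F s‖ ≤ d0 / 8 := hF1.trans hme
    have hF3 : ‖deriv F s‖ ≤ d0 / 8 := by
      rw [(hFd s hsU).deriv, norm_mul, norm_mul, norm_neg, Complex.norm_real,
        Real.norm_eq_abs, abs_of_pos (by linarith : (0 : ℝ) < m)]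
      refine le_trans ?_ hmBG
      have h1 : m * ‖deriv D.G s‖ ≤ m * BG :=
        mul_le_mul_of_nonneg_left (hBG s hs) (by linarith)
      calc ‖F s‖ * (m * ‖deriv D.G s‖) ≤ Real.exp (-m / 4) * (m * BG) :=
            mul_le_mul hF1 h1 (mul_nonneg (by linarith) (norm_nonneg _)) (Real.exp_pos _).le
        _ = m * BG * Real.exp (-m / 4) := by ring
    have v1 : ‖(Pa + R1 + Polynomial.C c3 * X ^ M).eval s - exp (Φ s / n)‖ ≤ d0 := by
      rw [poly_eval]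
      have h1 := poly_tri1 (Pa.eval s) (exp (Φ s / n)) (R1.eval s) (F s) (c3 * s ^ M)
      have h2 := hxM s hsK
      linarith
    have v2 : ‖(Pa + R1 + Polynomial.C c3 * X ^ M).derivative.eval s -
        deriv (fun s => exp (Φ s / n)) s‖ ≤ d0 := by
      rw [poly_eval_deriv]
      have h1 := poly_tri1 (Pa.derivative.eval s) (deriv (fun s => exp (Φ s / n)) s)
        (R1.derivative.eval s) (deriv F s) (c3 * (M * s ^ (M - 1)))
      have h2 := hxM' s hsK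
      linarith
    obtain ⟨w1, w2⟩ := HA s hs _ v1 v2
    exact ⟨w1, w2, v1.trans hd0δ⟩
  · intro η h1 h2 h3
    have hη : η ∈ KV ∪ Kb := by
      right
      rw [hKbdef]
      exact ⟨h1, h2, h3⟩
    have a1 := (hPa η hη).1.le
    obtain ⟨r1, _, _⟩ := hR1min η (Or.inl hη)
    have h4 := poly_tri2 (Pa.eval η) (exp (Φ η / n)) (R1.eval η) (F η) (c3 * η ^ M)
    have h5 := hxM η hη
    have h6 : F η = I * exp (I * m * D.b) * exp (-m * D.G η) := by rw [hF]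
    rw [← h6, poly_eval]
    linarith
  · intro η hηE hη
    by_cases hbigη : Real.exp (D.h / 2) ≤ ‖η‖
    · apply hbig η ((min_le_right _ _).trans hbigη)
      have : ‖η‖ ≤ Real.exp D.h := by
        rcases hη with h | h
        · exact h.2.2.le
        · exact h.le
      have h2 := le_max_right Rm (Real.exp D.h)
      linarith
    · push Not at hbigη
      have hηU : η ∈ D.U ∧ (D.G η).re ≤ -1 / 2 ∧ ‖η‖ < Real.exp D.h := by
        rcases hη with h | h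
        · exact h
        · linarith
      obtain ⟨h1, h2, h3⟩ := hηU
      have hηKE : η ∈ KE := by
        rw [hKE]
        exact ⟨hηE, by rw [mem_closedBall_zero_iff]; exact hbigη.le⟩
      obtain ⟨_, r2, _⟩ := hR1min η (Or.inr hηKE)
      have hFη := hFlow η h2
      have hPaη := hBa η (by
        have := le_max_right Rm (Real.exp D.h)
        linarith)
      have t4 := poly_tri4 (Pa.eval η) (R1.eval η) (F η) (c3 * η ^ M)
      rw [poly_eval]
      by_cases hsmall : ‖η‖ ≤ 1 - min th c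
      · have h4 : ‖c3 * η ^ M‖ ≤ 1 := by
          rw [norm_mul, hc3n, one_mul, norm_pow]
          have h5 : 0 < min th c := lt_min hth0 hc0
          exact pow_le_one₀ (norm_nonneg _) (by linarith)
        have h6 : ‖F η‖ - ‖c3 * η ^ M‖ ≤ ‖F η + c3 * η ^ M‖ := by
          have h7 := norm_sub_le (F η + c3 * η ^ M) (c3 * η ^ M)
          rw [add_sub_cancel_right] at h7
          linarith
        have h8 := abs_nonneg H
        linarith
      · push Not at hsmall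
        have hx1 : 1 - c < ‖η‖ := by
          have := min_le_right th c
          linarith
        have hx2 : 1 - th < ‖η‖ := by
          have := min_le_left th c
          linarith
        by_cases hge : 1 + th ≤ ‖η‖
        · have h4 : bR + |H| + Ba + 3 ≤ ‖c3 * η ^ M‖ := by
            rw [norm_mul, hc3n, one_mul, norm_pow]
            exact hMc.trans (pow_le_pow_left₀ (by linarith) hge M)
          have h5 := hbR η hηKE
          have h6 : ‖c3 * η ^ M‖ - ‖F η‖ ≤ ‖F η + c3 * η ^ M‖ := by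
            have h7 := norm_sub_le (F η + c3 * η ^ M) (F η)
            rw [add_sub_cancel_left] at h7
            linarith
          linarith
        · push Not at hge
          have habs : |‖η‖ - 1| ≤ th := by
            rw [abs_le]
            constructor <;> linarith
          have hroot := poly_root D.k D.hk M1 ‖η‖
          rw [← hep, ← hem, ← hM1] at hroot
          have h8 := abs_nonneg H
          have hkey : 3 / 4 * Real.exp (m / 2) ≤ ‖F η + c3 * η ^ M‖ := by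
            rcases hc η hηE hx1 h3 with h | h
            · rw [← hep] at h
              have e1 := poly_edge F ep c3 hc3p M ‖η‖ (norm_nonneg _) hroot.1
                (hth1 ‖η‖ (habs.trans htha))
              rw [← h] at e1
              linarith
            · rw [← hem] at h
              have e1 := poly_edge F em c3 hc3m M ‖η‖ (norm_nonneg _) hroot.2
                (hth2 ‖η‖ (habs.trans hthb))
              rw [← h] at e1
              linarith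
          linarith
  · intro η h1 h2
    apply hbig η ((min_le_left _ _).trans h1)
    have := le_max_left Rm (Real.exp D.h)
    linarith

end Pool.Agent.TRB
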