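import Pool.Agent.TRB.Defs

/-!
# Cauchy kernels approximate holomorphic functions (Cauchy-Pompeiu)

PROOF. As in Pool/Agent/Lib/HolomorphicPrimitives.lean (isExactOn_of_compact, first 60 lines): choose a compact L with
K inside interior L, L inside U, a smooth cutoff chi (values in [0,1]) equal to 1 on a neighbourhood of K and 0 off L,
put G = chi * g, which is C^1 with compact support, c = dbar G: continuous, compactly supported (support inside L),
zero on a neighbourhood O of K. Pool.Lib.integral_dbar_div_sub gives for s in K: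
integral of c(z)/(z - s) dz = - pi g(s). The support of c is a compact set L' = tsupport c disjoint from K.
Approximate the integral by finite sums uniformly in s in K, for instance: the map F : plane -> C(K, complex),
F z = (s -> c(z)/(z - s)) (zero if z in K) is continuous with compact support, hence Bochner integrable; its integral
lies in the closure of the span of its values (if A is the closed submodule: A = topological closure of the span of the
functions s -> 1/(a - s), a not in K; compose with the quotient map mkQ, integral of 0 is 0, so the integral is in A; or use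
Convex.integral_mem after normalizing the volume restricted to a ball); evaluate at s (evaluation is continuous linear).
Or do Riemann sums over a grid of small squares by uniform continuity of (z,s) -> c(z)/(z-s) on L' x K.
-/

set_option autoImplicit false

namespace Pool.Agent.TRB

open Polynomial Complex Metric Set Filter Topology

/-- the cutoff function and its `dbar` -/
private theorem rungeInt_density (K U : Set ℂ) (hK : IsCompact K) (hU : IsOpen U) (hKU : K ⊆ U)
    (g : ℂ → ℂ) (hg : DifferentiableOn ℂ g U) :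
    ∃ (c : ℂ → ℂ) (O : Set ℂ), Continuous c ∧ HasCompactSupport c ∧ IsOpen O ∧ K ⊆ O ∧
      (∀ z ∈ O, c z = 0) ∧
      ∀ s ∈ K, ∫ z, c z / (z - s) = - Real.pi * g s := by
  obtain ⟨L, hL, hKL, hLW⟩ := exists_compact_between hK hU hKU
  obtain ⟨χ, hχ1, hχ0, -⟩ := exists_contMDiffMap_one_nhds_of_subset_interior
    (modelWithCornersSelf ℝ ℂ) (n := 1) hK.isClosed hKL
  have hχd : ContDiff ℝ 1 χ := χ.contMDiff.contDiff
  obtain ⟨V, hV, hKV, hχV⟩ := eventually_nhdsSet_iff_exists.mp hχ1
  obtain ⟨G, hG⟩ : ∃ G : ℂ → ℂ, G = fun z => (χ z : ℂ) * g z := ⟨_, rfl⟩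
  have hsupp : tsupport G ⊆ L := by
    apply closure_minimal _ hL.isClosed
    intro z hz
    by_contra hzL
    apply hz
    simp only [hG]
    rw [hχ0 z hzL]; simp
  have hgc : HasCompactSupport G := HasCompactSupport.of_support_subset_isCompact hL
    ((subset_tsupport G).trans hsupp)
  have hgd : ContDiff ℝ 1 G := by
    rw [contDiff_iff_contDiffAt]
    intro z
    by_cases hz : z ∈ U
    · have h1 : ContDiffAt ℂ 1 g z := by
        have := hg.analyticAt (hU.mem_nhds hz)
        exact this.contDiffAt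
      have h2 : ContDiffAt ℝ 1 g z := h1.restrict_scalars ℝ
      have h3 : ContDiffAt ℝ 1 (fun z => (χ z : ℂ)) z :=
        ofRealCLM.contDiff.contDiffAt.comp z hχd.contDiffAt
      rw [hG]
      exact h3.mul h2
    · have h1 : G =ᶠ[𝓝 z] fun _ => 0 := by
        have : (tsupport G)ᶜ ∈ 𝓝 z :=
          (isClosed_tsupport G).isOpen_compl.mem_nhds (fun h => hz (hLW (hsupp h)))
        filter_upwards [this] with w hw
        exact image_eq_zero_of_notMem_tsupport hw
      exact contDiffAt_const.congr_of_eventuallyEq h1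
  have hgf : ∀ z ∈ V, G z = g z := by
    intro z hz
    simp only [hG]; rw [hχV z hz]; simp
  refine ⟨Pool.Lib.dbar G, V ∩ U, Pool.Lib.continuous_dbar hgd, ?_, hV.inter hU,
    fun z hz => ⟨hKV hz, hKU hz⟩, ?_, ?_⟩
  · apply HasCompactSupport.of_support_subset_isCompact hL
    exact (subset_tsupport _).trans ((Pool.Lib.tsupport_dbar_subset G).trans hsupp)
  · intro z hz
    have h1 : G =ᶠ[𝓝 z] g := by
      filter_upwards [hV.mem_nhds hz.1] with w hw
      exact hgf w hw
    rw [Pool.Lib.dbar_congr h1]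
    exact Pool.Lib.dbar_eq_zero (hg.differentiableAt (hU.mem_nhds hz.2))
  · intro s hs
    rw [Pool.Lib.integral_dbar_div_sub G hgd hgc s, hgf s (hKV hs)]

private theorem rungeInt_mem {E : Type*} [NormedAddCommGroup E] [NormedSpace ℂ E]
    [CompleteSpace E] (A : Submodule ℂ E) (hA : IsClosed (A : Set E)) (F : ℂ → E)
    (hF : MeasureTheory.Integrable F) (hFA : ∀ z, F z ∈ A) : ∫ z, F z ∈ A := by
  have := hA
  have h1 := A.mkQL.integral_comp_comm hF
  have h2 : ∀ z, A.mkQL (F z) = 0 := by
    intro z
    rw [Submodule.mkQL_apply, Submodule.mkQ_apply, Submodule.Quotient.mk_eq_zero]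
    exact hFA z
  simp only [h2] at h1
  rw [MeasureTheory.integral_zero, Submodule.mkQL_apply, Submodule.mkQ_apply] at h1
  exact (Submodule.Quotient.mk_eq_zero A).1 h1.symm

theorem runge_kernels (K U : Set ℂ) (hK : IsCompact K) (hU : IsOpen U) (hKU : K ⊆ U)
    (g : ℂ → ℂ) (hg : DifferentiableOn ℂ g U) (ε : ℝ) (hε : 0 < ε) :
    ∃ (m : ℕ) (a c : Fin m → ℂ), (∀ i, a i ∉ K) ∧ ∀ s ∈ K, ‖g s - ∑ i, c i / (a i - s)‖ < ε := by
  obtain ⟨c, O, hc, hcs, hO, hKO, hcO, hint⟩ := rungeInt_density K U hK hU hKU g hg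
  have : CompactSpace K := isCompact_iff_compactSpace.mp hK
  have hcont : Continuous (fun p : ℂ × K => c p.1 / (p.1 - (p.2 : ℂ))) := by
    rw [continuous_iff_continuousAt]
    rintro ⟨z, s⟩
    by_cases hz : z ∈ K
    · have h1 : (fun p : ℂ × K => c p.1 / (p.1 - (p.2 : ℂ))) =ᶠ[𝓝 (z, s)] fun _ => 0 := by
        have h2 : (Prod.fst ⁻¹' O : Set (ℂ × K)) ∈ 𝓝 (z, s) :=
          (hO.preimage continuous_fst).mem_nhds (hKO hz)
        filter_upwards [h2] with p hp
        rw [hcO p.1 hp, zero_div]
      exact continuousAt_const.congr h1.symm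
    · have h3 : z - (s : ℂ) ≠ 0 := by
        intro h
        apply hz
        rw [sub_eq_zero.1 h]
        exact s.2
      apply ContinuousAt.div
      · exact (hc.comp continuous_fst).continuousAt
      · exact (continuous_fst.sub (continuous_subtype_val.comp continuous_snd)).continuousAt
      · exact h3
  obtain ⟨Φ, hΦ⟩ : ∃ Φ : C(ℂ × K, ℂ), ∀ p, Φ p = c p.1 / (p.1 - (p.2 : ℂ)) :=
    ⟨⟨_, hcont⟩, fun _ => rfl⟩
  obtain ⟨F, hF⟩ : ∃ F : C(ℂ, C(K, ℂ)), ∀ z s, F z s = c z / (z - (s : ℂ)) :=
    ⟨Φ.curry, fun z s => by rw [ContinuousMap.curry_apply, hΦ]⟩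
  have hFsupp : HasCompactSupport F := by
    apply HasCompactSupport.of_support_subset_isCompact hcs.isCompact
    intro z hz
    apply subset_tsupport c
    intro h0
    apply hz
    ext s
    rw [hF, h0, zero_div]
    rfl
  have hFint : MeasureTheory.Integrable F := F.continuous.integrable_of_hasCompactSupport hFsupp
  obtain ⟨T, hT⟩ : ∃ T : Set C(K, ℂ), T = {f | ∃ a, a ∉ K ∧ ∀ s : K, f s = 1 / (a - (s : ℂ))} :=
    ⟨_, rfl⟩
  have hmem : ∫ z, F z ∈ (Submodule.span ℂ T).topologicalClosure := by
    apply rungeInt_mem _ (Submodule.isClosed_topologicalClosure _) F hFint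
    intro z
    apply Submodule.le_topologicalClosure
    by_cases hz : z ∈ K
    · have h0 : F z = 0 := by
        ext s
        rw [hF, hcO z (hKO hz), zero_div]
        rfl
      rw [h0]
      exact Submodule.zero_mem _
    · have hne : ∀ s : K, z - (s : ℂ) ≠ 0 := by
        intro s h
        apply hz
        rw [sub_eq_zero.1 h]
        exact s.2
      have hk : Continuous (fun s : K => 1 / (z - (s : ℂ))) :=
        continuous_const.div (continuous_const.sub continuous_subtype_val) hne
      have h1 : F z = c z • (⟨_, hk⟩ : C(K, ℂ)) := by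
        ext s
        rw [hF, ContinuousMap.smul_apply, smul_eq_mul]
        simp only [ContinuousMap.coe_mk]
        rw [mul_one_div]
      rw [h1]
      apply Submodule.smul_mem
      apply Submodule.subset_span
      rw [hT]
      exact ⟨z, hz, fun s => rfl⟩
  have hpi : (0 : ℝ) < Real.pi := Real.pi_pos
  have hclos : ∫ z, F z ∈ closure ((Submodule.span ℂ T : Submodule ℂ C(K, ℂ)) : Set C(K, ℂ)) :=
    hmem
  obtain ⟨f, hf, hdist⟩ := Metric.mem_closure_iff.1 hclos (ε * Real.pi) (by positivity)
  obtain ⟨m, b, q, hq⟩ := Submodule.mem_span_set'.1 hf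
  have hqT : ∀ i, ∃ a, a ∉ K ∧ ∀ s : K, (q i : C(K, ℂ)) s = 1 / (a - (s : ℂ)) := by
    intro i
    have h1 : ∀ f : C(K, ℂ), f ∈ T → ∃ a, a ∉ K ∧ ∀ s : K, f s = 1 / (a - (s : ℂ)) := by
      intro f hf
      rw [hT] at hf
      exact hf
    exact h1 _ (q i).2
  choose a ha hqa using hqT
  refine ⟨m, a, fun i => -(b i) / Real.pi, ha, ?_⟩
  intro s hs
  have e1 : (∫ z, F z) ⟨s, hs⟩ = - Real.pi * g s := by
    have h1 := (ContinuousMap.evalCLM ℂ (⟨s, hs⟩ : K)).integral_comp_comm hFint
    have h2 : ∀ z, (ContinuousMap.evalCLM ℂ (⟨s, hs⟩ : K)) (F z) = c z / (z - s) := by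
      intro z
      exact hF z ⟨s, hs⟩
    simp only [h2] at h1
    rw [hint s hs] at h1
    exact h1.symm
  have e2 : f ⟨s, hs⟩ = ∑ i, b i / (a i - s) := by
    rw [← hq, ContinuousMap.sum_apply]
    apply Finset.sum_congr rfl
    intro i _
    rw [ContinuousMap.smul_apply, hqa i, smul_eq_mul, mul_one_div]
  have e3 : ‖(∫ z, F z) ⟨s, hs⟩ - f ⟨s, hs⟩‖ < ε * Real.pi := by
    rw [← dist_eq_norm]
    exact lt_of_le_of_lt (ContinuousMap.dist_apply_le_dist _) hdist
  rw [e1, e2] at e3
  have hpc : (Real.pi : ℂ) ≠ 0 := by exact_mod_cast hpi.ne'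
  have e4 : g s - ∑ i, -(b i) / Real.pi / (a i - s) =
      -(- Real.pi * g s - ∑ i, b i / (a i - s)) / Real.pi := by
    have e5 : ∑ i, -(b i) / Real.pi / (a i - s) = - (∑ i, b i / (a i - s)) / Real.pi := by
      rw [neg_div, Finset.sum_div, ← Finset.sum_neg_distrib]
      apply Finset.sum_congr rfl
      intro i _
      ring
    rw [e5]
    field_simp
    ring
  rw [e4, norm_div, norm_neg, norm_real, Real.norm_eq_abs, abs_of_pos hpi, div_lt_iff₀ hpi]
  exact e3

end Pool.Agent.TRB
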