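import Pool.Agent.TRB.Defs

/-!
# Pole pushing: 1/(a-s) is uniformly approximable by polynomials on K if K has connected complement

PROOF. Work in C(K, complex) with the closed subalgebra AA = (polynomialFunctions K).topologicalClosure (or by hand).
For a not in K let k_a be the function s -> 1/(a-s) on K. Let S be the set of a not in K with k_a in AA.
(1) S contains all a with norm a > sup of norm s over K (geometric series sum s^j / a^(j+1), uniformly convergent on K).
(2) If b is not in K, d = infDist b K > 0 (K nonempty, otherwise everything is trivial), a not in K, a in S, and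
dist a b < d/3 then b in S: 1/(b-s) = sum_j (a-b)^j/(a-s)^(j+1) converges uniformly on K since dist a b <
(2/3) d <= norm (a-s), the powers of k_a are in the closed subalgebra AA.
So S is open in the complement of K, and its complement in the complement of K is open too (a limit b not in K of points
of S is in S by (2)); S is nonempty by (1); the complement of K is preconnected, so S is everything
(IsPreconnected.subset_of_closure_inter_subset or a clopen argument).
-/

set_option autoImplicit false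

namespace Pool.Agent.TRB

open Polynomial Complex Metric Set Filter Topology

/-- uniform approximability by polynomials on `K` -/
def RpAppr (K : Set ℂ) (f : ℂ → ℂ) : Prop :=
  ∀ ε : ℝ, 0 < ε → ∃ q : ℂ[X], ∀ s ∈ K, ‖f s - q.eval s‖ < ε

theorem rpAppr_poly (K : Set ℂ) (q : ℂ[X]) : RpAppr K (fun s => q.eval s) := by
  intro ε hε
  exact ⟨q, fun s _ => by simpa using hε⟩

theorem rpAppr_add {K : Set ℂ} {f g : ℂ → ℂ} (hf : RpAppr K f) (hg : RpAppr K g) :
    RpAppr K (fun s => f s + g s) := by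
  intro ε hε
  obtain ⟨p, hp⟩ := hf (ε / 2) (by positivity)
  obtain ⟨q, hq⟩ := hg (ε / 2) (by positivity)
  refine ⟨p + q, fun s hs => ?_⟩
  have h1 : f s + g s - (p + q).eval s = (f s - p.eval s) + (g s - q.eval s) := by
    rw [Polynomial.eval_add]; ring
  rw [h1]
  calc ‖(f s - p.eval s) + (g s - q.eval s)‖ ≤ ‖f s - p.eval s‖ + ‖g s - q.eval s‖ :=
        norm_add_le _ _
    _ < ε / 2 + ε / 2 := add_lt_add (hp s hs) (hq s hs)
    _ = ε := by ring

theorem rpAppr_mul {K : Set ℂ} {f g : ℂ → ℂ} (hf : RpAppr K f) (hg : RpAppr K g)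
    (M : ℝ) (hM : 0 < M) (hfM : ∀ s ∈ K, ‖f s‖ ≤ M) (hgM : ∀ s ∈ K, ‖g s‖ ≤ M) :
    RpAppr K (fun s => f s * g s) := by
  intro ε hε
  obtain ⟨q, hq⟩ := hg (ε / (2 * M)) (by positivity)
  obtain ⟨p, hp⟩ := hf (ε / (2 * (M + ε / (2 * M)))) (by positivity)
  refine ⟨p * q, fun s hs => ?_⟩
  have h1 : f s * g s - (p * q).eval s
      = f s * (g s - q.eval s) + (f s - p.eval s) * q.eval s := by
    rw [Polynomial.eval_mul]; ring
  have hqn : ‖q.eval s‖ ≤ M + ε / (2 * M) := by
    have h2 : q.eval s = g s - (g s - q.eval s) := by ring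
    rw [h2]
    refine (norm_sub_le _ _).trans (add_le_add (hgM s hs) (hq s hs).le)
  have hpos : 0 < M + ε / (2 * M) := by positivity
  rw [h1]
  have h3 : ‖f s * (g s - q.eval s)‖ < ε / 2 ∨ ‖f s * (g s - q.eval s)‖ ≤ ε / 2 := by
    right
    rw [norm_mul]
    calc ‖f s‖ * ‖g s - q.eval s‖ ≤ M * (ε / (2 * M)) :=
          mul_le_mul (hfM s hs) (hq s hs).le (norm_nonneg _) hM.le
      _ = ε / 2 := by field_simp
  have h3' : ‖f s * (g s - q.eval s)‖ ≤ ε / 2 := h3.elim le_of_lt id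
  have h4 : ‖(f s - p.eval s) * q.eval s‖ < ε / 2 := by
    rw [norm_mul]
    calc ‖f s - p.eval s‖ * ‖q.eval s‖ ≤ ‖f s - p.eval s‖ * (M + ε / (2 * M)) :=
          mul_le_mul_of_nonneg_left hqn (norm_nonneg _)
      _ < (ε / (2 * (M + ε / (2 * M)))) * (M + ε / (2 * M)) :=
          mul_lt_mul_of_pos_right (hp s hs) hpos
      _ = ε / 2 := by field_simp
  calc ‖f s * (g s - q.eval s) + (f s - p.eval s) * q.eval s‖
      ≤ ‖f s * (g s - q.eval s)‖ + ‖(f s - p.eval s) * q.eval s‖ := norm_add_le _ _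
    _ < ε / 2 + ε / 2 := add_lt_add_of_le_of_lt h3' h4
    _ = ε := by ring

theorem rpAppr_pow {K : Set ℂ} {f : ℂ → ℂ} (hf : RpAppr K f) (M : ℝ) (hM : 1 ≤ M)
    (hfM : ∀ s ∈ K, ‖f s‖ ≤ M) (n : ℕ) : RpAppr K (fun s => f s ^ n) := by
  induction n with
  | zero =>
    have := rpAppr_poly K 1
    simpa using this
  | succ n ih =>
    have h0 : (0 : ℝ) < M ^ (n + 1) := by positivity
    have := rpAppr_mul ih hf (M ^ (n + 1)) h0
      (fun s hs => by
        rw [norm_pow]
        calc ‖f s‖ ^ n ≤ M ^ n := pow_le_pow_left₀ (norm_nonneg _) (hfM s hs) n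
          _ ≤ M ^ (n + 1) := pow_le_pow_right₀ hM (Nat.le_succ n))
      (fun s hs => (hfM s hs).trans (le_self_pow₀ hM (Nat.succ_ne_zero n)))
    simpa [pow_succ] using this

theorem rpAppr_sum {K : Set ℂ} {F : ℕ → ℂ → ℂ} (n : ℕ) (h : ∀ j < n, RpAppr K (F j)) :
    RpAppr K (fun s => ∑ j ∈ Finset.range n, F j s) := by
  induction n with
  | zero =>
    have := rpAppr_poly K 0
    simpa using this
  | succ n ih =>
    have h1 := ih (fun j hj => h j (Nat.lt_succ_of_lt hj))
    have h2 := rpAppr_add h1 (h n (Nat.lt_succ_self n))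
    simpa [Finset.sum_range_succ] using h2

theorem rpAppr_const_mul {K : Set ℂ} {f : ℂ → ℂ} (c : ℂ) (hf : RpAppr K f) :
    RpAppr K (fun s => c * f s) := by
  intro ε hε
  obtain ⟨p, hp⟩ := hf (ε / (‖c‖ + 1)) (by positivity)
  refine ⟨C c * p, fun s hs => ?_⟩
  have h1 : c * f s - (C c * p).eval s = c * (f s - p.eval s) := by
    rw [Polynomial.eval_mul, Polynomial.eval_C]; ring
  rw [h1, norm_mul]
  calc ‖c‖ * ‖f s - p.eval s‖ ≤ (‖c‖ + 1) * ‖f s - p.eval s‖ :=
        mul_le_mul_of_nonneg_right (by linarith) (norm_nonneg _)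
    _ < (‖c‖ + 1) * (ε / (‖c‖ + 1)) := mul_lt_mul_of_pos_left (hp s hs) (by positivity)
    _ = ε := by field_simp

theorem rpAppr_limit {K : Set ℂ} {f : ℂ → ℂ}
    (h : ∀ ε : ℝ, 0 < ε → ∃ g : ℂ → ℂ, RpAppr K g ∧ ∀ s ∈ K, ‖f s - g s‖ < ε) :
    RpAppr K f := by
  intro ε hε
  obtain ⟨g, hg, hfg⟩ := h (ε / 2) (by positivity)
  obtain ⟨q, hq⟩ := hg (ε / 2) (by positivity)
  refine ⟨q, fun s hs => ?_⟩
  have h1 : f s - q.eval s = (f s - g s) + (g s - q.eval s) := by ring
  rw [h1]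
  calc ‖(f s - g s) + (g s - q.eval s)‖ ≤ ‖f s - g s‖ + ‖g s - q.eval s‖ := norm_add_le _ _
    _ < ε / 2 + ε / 2 := add_lt_add (hfg s hs) (hq s hs)
    _ = ε := by ring

/-- geometric expansion -/
theorem rp_geom (u w : ℂ) (hu : u ≠ 0) (hw : u - w ≠ 0) (n : ℕ) :
    1 / (u - w) - ∑ j ∈ Finset.range n, w ^ j * (1 / u) ^ (j + 1)
      = (1 / (u - w)) * (w / u) ^ n := by
  induction n with
  | zero => simp
  | succ n ih =>
    rw [Finset.sum_range_succ, ← sub_sub, ih]
    have h1 : w ^ n * (1 / u) ^ (n + 1) = (w / u) ^ n * (1 / u) := by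
      rw [pow_succ (1 / u) n, one_div, inv_pow, div_eq_mul_inv w u, mul_pow, inv_pow]; ring
    rw [h1, pow_succ]
    field_simp
    try ring

/-- poles outside a big disc -/
theorem rp_far {K : Set ℂ} {R : ℝ} (hR : 0 ≤ R) (hK : ∀ s ∈ K, ‖s‖ ≤ R) (a : ℂ) (ha : R < ‖a‖) :
    RpAppr K (fun s => 1 / (a - s)) := by
  have ha0 : a ≠ 0 := by
    intro h; rw [h, norm_zero] at ha; linarith
  have han : 0 < ‖a‖ := lt_of_le_of_lt hR ha
  apply rpAppr_limit
  intro ε hε
  have hr1 : R / ‖a‖ < 1 := by rw [div_lt_one han]; exact ha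
  have hr0 : 0 ≤ R / ‖a‖ := by positivity
  obtain ⟨n, hn⟩ := exists_pow_lt_of_lt_one (show 0 < ε * (‖a‖ - R) by
    have : 0 < ‖a‖ - R := by linarith
    positivity) hr1
  refine ⟨fun s => ∑ j ∈ Finset.range n, s ^ j * (1 / a) ^ (j + 1), ?_, fun s hs => ?_⟩
  · have := rpAppr_poly K (∑ j ∈ Finset.range n, X ^ j * C ((1 / a) ^ (j + 1)))
    have h2 : (fun s => (∑ j ∈ Finset.range n, X ^ j * C ((1 / a) ^ (j + 1)) : ℂ[X]).eval s)
        = (fun s => ∑ j ∈ Finset.range n, s ^ j * (1 / a) ^ (j + 1)) := by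
      funext s
      rw [Polynomial.eval_finsetSum]
      refine Finset.sum_congr rfl (fun j _ => ?_)
      rw [Polynomial.eval_mul, Polynomial.eval_pow, Polynomial.eval_X, Polynomial.eval_C]
    rw [h2] at this
    exact this
  · have hsn := hK s hs
    have hlow : ‖a‖ - R ≤ ‖a - s‖ := by
      have := norm_sub_norm_le a s
      linarith
    have hpos : 0 < ‖a - s‖ := by linarith
    have hne : a - s ≠ 0 := norm_pos_iff.mp hpos
    show ‖1 / (a - s) - ∑ j ∈ Finset.range n, s ^ j * (1 / a) ^ (j + 1)‖ < ε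
    rw [rp_geom a s ha0 hne n, norm_mul, norm_pow, norm_div, norm_div, norm_one]
    have hb : (‖s‖ / ‖a‖) ^ n ≤ (R / ‖a‖) ^ n :=
      pow_le_pow_left₀ (by positivity) (by gcongr) n
    have haR : 0 < ‖a‖ - R := by linarith
    calc 1 / ‖a - s‖ * (‖s‖ / ‖a‖) ^ n ≤ 1 / (‖a‖ - R) * (R / ‖a‖) ^ n :=
          mul_le_mul (one_div_le_one_div_of_le haR hlow) hb (by positivity) (by positivity)
      _ < 1 / (‖a‖ - R) * (ε * (‖a‖ - R)) := mul_lt_mul_of_pos_left hn (by positivity)
      _ = ε := by field_simp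

/-- moving a pole a little -/
theorem rp_move {K : Set ℂ} {d : ℝ} (hd : 0 < d) (a b : ℂ) (hb : ∀ s ∈ K, d ≤ ‖b - s‖)
    (hab : ‖a - b‖ < d / 3) (h : RpAppr K (fun s => 1 / (a - s))) :
    RpAppr K (fun s => 1 / (b - s)) := by
  have hlow : ∀ s ∈ K, 2 * d / 3 ≤ ‖a - s‖ := by
    intro s hs
    have h1 : b - s = (a - s) - (a - b) := by ring
    have h2 := hb s hs
    rw [h1] at h2
    have h3 := norm_sub_le (a - s) (a - b)
    linarith
  have hbd : ∀ s ∈ K, ‖1 / (a - s)‖ ≤ 3 / (2 * d) + 1 := by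
    intro s hs
    rw [norm_div, norm_one]
    have h1 := one_div_le_one_div_of_le (show 0 < 2 * d / 3 by positivity) (hlow s hs)
    have h2 : 1 / (2 * d / 3) = 3 / (2 * d) := by field_simp
    rw [h2] at h1
    linarith
  apply rpAppr_limit
  intro ε hε
  obtain ⟨n, hn⟩ := exists_pow_lt_of_lt_one (show 0 < ε * d by positivity)
    (show (1 / 2 : ℝ) < 1 by norm_num)
  refine ⟨fun s => ∑ j ∈ Finset.range n, (a - b) ^ j * (1 / (a - s)) ^ (j + 1), ?_,
    fun s hs => ?_⟩
  · apply rpAppr_sum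
    intro j _
    apply rpAppr_const_mul
    exact rpAppr_pow h (3 / (2 * d) + 1) (by
      have : 0 < 3 / (2 * d) := by positivity
      linarith) hbd (j + 1)
  · have h1 := hlow s hs
    have h2 := hb s hs
    have hpos : 0 < ‖a - s‖ := lt_of_lt_of_le (by positivity) h1
    have hne : a - s ≠ 0 := norm_pos_iff.mp hpos
    have hpos2 : 0 < ‖b - s‖ := lt_of_lt_of_le hd h2
    have hne2 : b - s ≠ 0 := norm_pos_iff.mp hpos2
    have hbs : b - s = (a - s) - (a - b) := by ring
    show ‖1 / (b - s) - ∑ j ∈ Finset.range n, (a - b) ^ j * (1 / (a - s)) ^ (j + 1)‖ < ε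
    have hne3 : (a - s) - (a - b) ≠ 0 := by rw [← hbs]; exact hne2
    have key := rp_geom (a - s) (a - b) hne hne3 n
    rw [← hbs] at key
    rw [key, norm_mul, norm_pow, norm_div, norm_div, norm_one]
    have hw : ‖a - b‖ / ‖a - s‖ ≤ 1 / 2 := by
      rw [div_le_iff₀ hpos]
      linarith
    calc 1 / ‖b - s‖ * (‖a - b‖ / ‖a - s‖) ^ n ≤ 1 / d * (1 / 2) ^ n :=
          mul_le_mul (one_div_le_one_div_of_le hd h2)
            (pow_le_pow_left₀ (by positivity) hw n) (by positivity) (by positivity)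
      _ < 1 / d * (ε * d) := mul_lt_mul_of_pos_left hn (by positivity)
      _ = ε := by field_simp

theorem runge_push (K : Set ℂ) (hK : IsCompact K) (hc : IsPreconnected Kᶜ) (a : ℂ) (ha : a ∉ K)
    (ε : ℝ) (hε : 0 < ε) : ∃ q : ℂ[X], ∀ s ∈ K, ‖1 / (a - s) - q.eval s‖ < ε := by
  classical
  -- the set of good poles
  let S : Set ℂ := {b | b ∉ K ∧ RpAppr K (fun s => 1 / (b - s))}
  suffices hS : Kᶜ ⊆ S from (hS ha).2 ε hε
  rcases K.eq_empty_or_nonempty with hKe | hKn
  · intro b hb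
    refine ⟨hb, fun η hη => ⟨0, fun s hs => ?_⟩⟩
    rw [hKe] at hs
    exact absurd hs (Set.notMem_empty s)
  have hdist : ∀ b, b ∉ K → 0 < infDist b K := fun b hb =>
    (hK.isClosed.notMem_iff_infDist_pos hKn).mp hb
  have hle : ∀ b, ∀ s ∈ K, infDist b K ≤ ‖b - s‖ := by
    intro b s hs
    have := infDist_le_dist_of_mem (x := b) hs
    rwa [dist_eq_norm] at this
  have hmove : ∀ a' b : ℂ, b ∉ K → ‖a' - b‖ < infDist b K / 3 → a' ∈ S → b ∈ S := by
    intro a' b hb hab ha'
    exact ⟨hb, rp_move (hdist b hb) a' b (hle b) hab ha'.2⟩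
  have hopen : IsOpen S := by
    rw [Metric.isOpen_iff]
    intro b hb
    have hd := hdist b hb.1
    refine ⟨infDist b K / 6, by positivity, fun c hc' => ?_⟩
    rw [Metric.mem_ball, dist_eq_norm] at hc'
    have hlip : infDist b K ≤ infDist c K + dist b c := infDist_le_infDist_add_dist
    rw [dist_comm, dist_eq_norm] at hlip
    have hcpos : 0 < infDist c K := by linarith
    have hcK : c ∉ K := (hK.isClosed.notMem_iff_infDist_pos hKn).mpr hcpos
    refine hmove b c hcK ?_ hb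
    rw [norm_sub_rev]
    linarith
  obtain ⟨R, hR⟩ := hK.isBounded.subset_closedBall (0 : ℂ)
  have hRn : ∀ s ∈ K, ‖s‖ ≤ max R 0 := fun s hs => by
    have := hR hs
    rw [mem_closedBall_zero_iff] at this
    exact this.trans (le_max_left _ _)
  have hne : (Kᶜ ∩ S).Nonempty := by
    have hnorm : max R 0 < ‖((max R 0 + 1 : ℝ) : ℂ)‖ := by
      rw [Complex.norm_real, Real.norm_eq_abs, abs_of_pos (by
        have : 0 ≤ max R 0 := le_max_right _ _
        linarith)]
      linarith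
    have hnk : ((max R 0 + 1 : ℝ) : ℂ) ∉ K := fun h => by
      have := hRn _ h
      linarith
    exact ⟨((max R 0 + 1 : ℝ) : ℂ), hnk, hnk, rp_far (le_max_right _ _) hRn _ hnorm⟩
  refine hc.subset_of_closure_inter_subset hopen hne ?_
  rintro b ⟨hbc, hbK⟩
  have hd := hdist b hbK
  obtain ⟨a', ha', hdd⟩ := Metric.mem_closure_iff.mp hbc (infDist b K / 3) (by positivity)
  refine hmove a' b hbK ?_ ha'
  rw [norm_sub_rev, ← dist_eq_norm]
  exact hdd

end Pool.Agent.TRB
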