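import Pool.Agent.TRB.RungeHull
import Pool.Agent.TRB.RungePush
import Pool.Agent.TRB.RungeInt

/-!
# Runge's theorem with derivatives

PROOF. If K is empty take q = 0. Choose d > 0 with cthickening d K inside U (IsCompact.exists_cthickening_subset_open),
K1 = cthickening d K compact. runge_hull: K' compact, K1 inside K' inside U, complement of K' preconnected.
runge_kernels on K' with e1 = min(ε, ε d)/4 gives g within e1 of a finite sum of c_i/(a_i - s) on K', a_i not in K'.
runge_push for each i with tolerance e1/(m+1)/(norm c_i + 1) gives a polynomial q with norm (g - q) <= 2 e1 on K'.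
For s in K: the closed ball of radius d around s is inside K1, and Cauchy's estimate for g - q on ball s d
(Complex.norm_deriv_le_of_forall_mem_sphere_norm_le or similar) gives norm (deriv g s - q'(s)) <= 2 e1 / d < ε.
-/

set_option autoImplicit false

namespace Pool.Agent.TRB

open Polynomial Complex Metric Set Filter Topology

/-- Runge's theorem with derivatives -/
theorem runge (U : Set ℂ) (hU : IsOpen U) (hR : RungeSet U) (g : ℂ → ℂ)
    (hg : DifferentiableOn ℂ g U) (K : Set ℂ) (hK : IsCompact K) (hKU : K ⊆ U) (ε : ℝ)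
    (hε : 0 < ε) :
    ∃ q : ℂ[X], ∀ s ∈ K, ‖g s - q.eval s‖ < ε ∧ ‖deriv g s - q.derivative.eval s‖ < ε := by
  obtain ⟨d, hd, hdU⟩ := hK.exists_cthickening_subset_open hU hKU
  obtain ⟨K', hK', hKK', hK'U, hcon⟩ := runge_hull U (cthickening d K) hU hR hK.cthickening hdU
  obtain ⟨e1, he1⟩ : ∃ e1, e1 = min ε (ε * d) / 4 := ⟨_, rfl⟩
  have he0 : 0 < e1 := by
    rw [he1]
    have : 0 < min ε (ε * d) := lt_min hε (mul_pos hε hd)
    linarith
  have he2 : 4 * e1 ≤ ε := by
    rw [he1]
    have := min_le_left ε (ε * d)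
    linarith
  have he3 : 4 * e1 ≤ ε * d := by
    rw [he1]
    have := min_le_right ε (ε * d)
    linarith
  obtain ⟨m, a, c, ha, hac⟩ := runge_kernels K' U hK' hU hK'U g hg e1 he0
  have hpos : ∀ i, 0 < e1 / (m + 1) / (‖c i‖ + 1) := by
    intro i
    have := norm_nonneg (c i)
    positivity
  choose q hq using fun i => runge_push K' hK' hcon (a i) (ha i) _ (hpos i)
  have hmain : ∀ s ∈ K', ‖g s - (∑ i, Polynomial.C (c i) * q i).eval s‖ ≤ 2 * e1 := by
    intro s hs
    have h1 : ‖∑ i, c i / (a i - s) - (∑ i, Polynomial.C (c i) * q i).eval s‖ ≤ e1 := by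
      rw [Polynomial.eval_finsetSum, ← Finset.sum_sub_distrib]
      refine (norm_sum_le _ _).trans ?_
      have h2 : ∀ i ∈ (Finset.univ : Finset (Fin m)),
          ‖c i / (a i - s) - (Polynomial.C (c i) * q i).eval s‖ ≤ e1 / (m + 1) := by
        intro i _
        have h3 : c i / (a i - s) - (Polynomial.C (c i) * q i).eval s =
            c i * (1 / (a i - s) - (q i).eval s) := by
          rw [Polynomial.eval_mul, Polynomial.eval_C]
          ring
        rw [h3, norm_mul]
        have h4 := (hq i s hs).le
        have h5 := norm_nonneg (c i)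
        calc ‖c i‖ * ‖1 / (a i - s) - (q i).eval s‖ ≤
            (‖c i‖ + 1) * (e1 / (m + 1) / (‖c i‖ + 1)) :=
              mul_le_mul (by linarith) h4 (norm_nonneg _) (by linarith)
          _ = e1 / (m + 1) := by
              field_simp
      refine (Finset.sum_le_sum h2).trans ?_
      rw [Finset.sum_const, Finset.card_univ, Fintype.card_fin, nsmul_eq_mul]
      have hm : (0 : ℝ) < (m : ℝ) + 1 := by positivity
      rw [mul_div_assoc', div_le_iff₀ hm]
      nlinarith
    have h6 := (hac s hs).le
    calc ‖g s - (∑ i, Polynomial.C (c i) * q i).eval s‖ =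
        ‖(g s - ∑ i, c i / (a i - s)) +
          (∑ i, c i / (a i - s) - (∑ i, Polynomial.C (c i) * q i).eval s)‖ := by
          congr 1
          ring
      _ ≤ e1 + e1 := (norm_add_le _ _).trans (add_le_add h6 h1)
      _ = 2 * e1 := by ring
  refine ⟨∑ i, Polynomial.C (c i) * q i, fun s hs => ?_⟩
  have hball : closedBall s d ⊆ K' :=
    (closedBall_subset_cthickening hs d).trans hKK'
  have hballU : closedBall s d ⊆ U := hball.trans hK'U
  have hsK' : s ∈ K' := hball (mem_closedBall_self hd.le)
  refine ⟨lt_of_le_of_lt (hmain s hsK') (by linarith), ?_⟩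
  obtain ⟨p, hp⟩ : ∃ p : ℂ[X], p = ∑ i, Polynomial.C (c i) * q i := ⟨_, rfl⟩
  rw [← hp]
  rw [← hp] at hmain
  have hdg : DifferentiableAt ℂ g s :=
    hg.differentiableAt (hU.mem_nhds (hK'U hsK'))
  have hder : deriv (fun z => g z - p.eval z) s = deriv g s - p.derivative.eval s := by
    rw [deriv_fun_sub hdg p.differentiableAt, Polynomial.deriv]
  have hdc : DiffContOnCl ℂ (fun z => g z - p.eval z) (ball s d) := by
    refine DifferentiableOn.diffContOnCl ?_
    refine DifferentiableOn.sub ?_ p.differentiable.differentiableOn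
    refine hg.mono ?_
    exact (closure_ball_subset_closedBall).trans hballU
  have h7 := Complex.norm_deriv_le_of_forall_mem_sphere_norm_le hd hdc
    (fun z hz => hmain z (hball (sphere_subset_closedBall hz)))
  rw [hder] at h7
  refine lt_of_le_of_lt h7 ?_
  rw [div_lt_iff₀ hd]
  have := mul_pos hε hd
  linarith

end Pool.Agent.TRB
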