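import Pool.Agent.TRB.Defs

/-!
# Filling the holes of a compact subset of a Runge set

PROOF. If K is empty take K' empty. Choose R > 0 with K inside ball 0 R. A = {z | R <= norm z} is connected
(isConnected_compl_ball or similar, real rank of the plane is 2) and disjoint from K. Let Om = connectedComponentIn
(complement of K) (R : complex), open, contains A, preconnected. K' = complement of Om: closed, bounded (inside ball 0 R),
contains K. K' inside U: let a be not in U, C the set given by hR: C is preconnected, disjoint from U hence from K,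
unbounded, so it meets A; hence C is inside Om and a is not in K'.
-/

set_option autoImplicit false

namespace Pool.Agent.TRB

open Polynomial Complex Metric Set Filter Topology

private theorem rh_outer (R : ℝ) (hR : 0 < R) : IsPreconnected {z : ℂ | R ≤ ‖z‖} := by
  have hs : IsPreconnected (sphere (0 : ℂ) 1) :=
    (isConnected_sphere (by rw [Complex.rank_real_complex]; exact Cardinal.one_lt_two) (0 : ℂ)
      zero_le_one).isPreconnected
  have hp : IsPreconnected (Set.Ici R ×ˢ sphere (0 : ℂ) 1) := isPreconnected_Ici.prod hs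
  have himg := hp.image (fun q : ℝ × ℂ => (q.1 : ℂ) * q.2)
    (by fun_prop : Continuous fun q : ℝ × ℂ => (q.1 : ℂ) * q.2).continuousOn
  convert himg using 1
  ext z
  simp only [Set.mem_setOf_eq, Set.mem_image, Set.mem_prod, Set.mem_Ici, mem_sphere_iff_norm,
    sub_zero, Prod.exists]
  constructor
  · intro hz
    have hz0 : 0 < ‖z‖ := hR.trans_le hz
    refine ⟨‖z‖, z / (‖z‖ : ℂ), ⟨hz, ?_⟩, ?_⟩
    · rw [norm_div, Complex.norm_real, norm_norm, div_self hz0.ne']
    · have h1 : (‖z‖ : ℂ) ≠ 0 := by exact_mod_cast hz0.ne'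
      field_simp
  · rintro ⟨t, u, ⟨ht, hu⟩, rfl⟩
    rw [norm_mul, Complex.norm_real, hu, mul_one]
    exact ht.trans (le_abs_self t)

theorem runge_hull (U K : Set ℂ) (hU : IsOpen U) (hR : RungeSet U) (hK : IsCompact K)
    (hKU : K ⊆ U) :
    ∃ K' : Set ℂ, IsCompact K' ∧ K ⊆ K' ∧ K' ⊆ U ∧ IsPreconnected K'ᶜ := by
  obtain ⟨R, hR0, hKR⟩ := hK.isBounded.subset_ball_lt 0 (0 : ℂ)
  have hA := rh_outer R hR0
  set A : Set ℂ := {z : ℂ | R ≤ ‖z‖} with hAdef
  have hAK : A ⊆ Kᶜ := by
    intro z hz hzK
    have h1 := hKR hzK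
    rw [mem_ball_zero_iff] at h1
    exact absurd h1 (not_lt.2 hz)
  have hRA : (R : ℂ) ∈ A := by
    show R ≤ ‖(R : ℂ)‖
    rw [Complex.norm_real]
    exact le_abs_self R
  set O : Set ℂ := connectedComponentIn Kᶜ (R : ℂ) with hO
  have hOo : IsOpen O := hK.isClosed.isOpen_compl.connectedComponentIn
  have hAO : A ⊆ O := hA.subset_connectedComponentIn hRA hAK
  refine ⟨Oᶜ, ?_, ?_, ?_, ?_⟩
  · refine Metric.isCompact_of_isClosed_isBounded hOo.isClosed_compl ?_
    refine (Metric.isBounded_ball (x := (0 : ℂ)) (r := R)).subset ?_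
    intro z hz
    rw [mem_ball_zero_iff]
    by_contra h1
    exact hz (hAO (not_lt.1 h1))
  · intro z hz hzO
    exact connectedComponentIn_subset _ _ hzO hz
  · intro a ha
    by_contra haU
    obtain ⟨C, hC, haC, hCU, hCb⟩ := hR a haU
    have hCK : C ⊆ Kᶜ := fun z hz hzK => hCU hz (hKU hzK)
    obtain ⟨z, hzC, hzA⟩ : ∃ z ∈ C, z ∈ A := by
      by_contra h1
      push Not at h1
      refine hCb ((Metric.isBounded_ball (x := (0 : ℂ)) (r := R)).subset ?_)
      intro z hz
      rw [mem_ball_zero_iff]
      by_contra h2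
      exact h1 z hz (not_lt.1 h2)
    have h2 : O = connectedComponentIn Kᶜ z := connectedComponentIn_eq (hAO hzA)
    have h3 : C ⊆ connectedComponentIn Kᶜ z := hC.subset_connectedComponentIn hzC hCK
    rw [← h2] at h3
    exact ha (h3 haC)
  · rw [compl_compl]
    exact isPreconnected_connectedComponentIn

end Pool.Agent.TRB
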